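import Mathlib

/-! # DP.NN : a domain of transcendence degree one is finite over `K0[T]` (MATHLIB only, about 100 lines)

Noether normalisation (`exists_integral_inj_algHom_of_fg`: injective integral `MvPolynomial (Fin s) K0 →ₐ A`).  `s = 0`: `A` is integral over a field, so a field: excluded.
In general the elements of `A` are algebraic over `R0 = K0[u]`, so `A` embeds in `L = Subalgebra.algebraicClosure R0 F`, and
`trdeg K0 L = trdeg K0 R0 + trdeg R0 L = trdeg K0 R0 ≤ trdeg K0 K0[X] = 1`; so `s ≤ 1`.
`s = 1`: `T` = the image of the variable. -/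

namespace H25.DP

open Polynomial

private theorem nn_trdeg {K0 A : Type} [Field K0] [CommRing A] [IsDomain A] [Algebra K0 A]
    {F : Type} [Field F] [Algebra K0 F] [Algebra A F] [IsScalarTower K0 A F]
    (hinj : Function.Injective (algebraMap A F)) {u : F}
    (hu : ∀ x : A, IsAlgebraic (IntermediateField.adjoin K0 ({u} : Set F)) (algebraMap A F x)) :
    Algebra.trdeg K0 A ≤ 1 := by
  let R0 := Algebra.adjoin K0 ({u} : Set F)
  have h1 : Algebra.trdeg K0 R0 ≤ 1 := by
    have hs : Function.Surjective ((aeval (R := K0) (⟨u, Algebra.self_mem_adjoin_singleton K0 u⟩ : R0))) := by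
      rintro ⟨x, hx⟩
      have h2 : x ∈ (aeval (R := K0) u).range := by
        rw [← Algebra.adjoin_singleton_eq_range_aeval]
        exact hx
      obtain ⟨p, hp⟩ := h2
      refine ⟨p, Subtype.ext (Eq.trans ?_ hp)⟩
      show (Subalgebra.val R0) (aeval (⟨u, Algebra.self_mem_adjoin_singleton K0 u⟩ : R0) p) = aeval u p
      rw [← aeval_algHom_apply]
      rfl
    have h2 := trdeg_le_of_surjective _ hs
    rwa [Polynomial.trdeg_of_isDomain] at h2
  let L := Subalgebra.algebraicClosure R0 F
  have hLinj : Function.Injective (algebraMap R0 L) := fun a b hab =>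
    Subtype.ext (congrArg (fun z : L => (z : F)) hab)
  haveI : FaithfulSMul R0 L := (faithfulSMul_iff_algebraMap_injective R0 L).2 hLinj
  have h3 : Algebra.trdeg K0 R0 + Algebra.trdeg R0 L = Algebra.trdeg K0 L := trdeg_add_eq K0 R0
  rw [trdeg_eq_zero (R := R0) (A := L), add_zero] at h3
  have hmem : ∀ x : A, algebraMap A F x ∈ L := by
    intro x
    rw [Subalgebra.mem_algebraicClosure]
    exact IntermediateField.isAlgebraic_adjoin_iff.1 (hu x)
  let f : A →ₐ[K0] L :=
    { toFun := fun x => ⟨algebraMap A F x, hmem x⟩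
      map_one' := Subtype.ext (map_one _)
      map_mul' := fun a b => Subtype.ext (map_mul _ a b)
      map_zero' := Subtype.ext (map_zero _)
      map_add' := fun a b => Subtype.ext (map_add _ a b)
      commutes' := fun c => Subtype.ext (IsScalarTower.algebraMap_apply K0 A F c).symm }
  have hf : Function.Injective f := fun a b hab => hinj (congrArg Subtype.val hab)
  exact (trdeg_le_of_injective f hf).trans (h3 ▸ h1)

theorem nn {K0 A : Type} [Field K0] [CommRing A] [IsDomain A] [Algebra K0 A] [Algebra.FiniteType K0 A]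
    (hnf : ¬ IsField A) {F : Type} [Field F] [Algebra K0 F] [Algebra A F] [IsScalarTower K0 A F]
    (hinj : Function.Injective (algebraMap A F)) {u : F}
    (hu : ∀ x : A, IsAlgebraic (IntermediateField.adjoin K0 ({u} : Set F)) (algebraMap A F x)) :
    ∃ T : A, Transcendental K0 T ∧ ∀ x : A, IsIntegral (Algebra.adjoin K0 ({T} : Set A)) x := by
  obtain ⟨s, g, hg, hi⟩ := exists_integral_inj_algHom_of_fg K0 A
  have hs : s ≤ 1 := by
    have h1 := (trdeg_le_of_injective g hg).trans (nn_trdeg hinj hu)
    rw [MvPolynomial.trdeg_of_isDomain] at h1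
    simpa using h1
  have hs0 : s ≠ 0 := by
    rintro rfl
    apply hnf
    letI : Algebra (MvPolynomial (Fin 0) K0) A := g.toRingHom.toAlgebra
    haveI : Algebra.IsIntegral (MvPolynomial (Fin 0) K0) A := ⟨hi⟩
    exact isField_of_isIntegral_of_isField'
      ((MvPolynomial.isEmptyAlgEquiv K0 (Fin 0)).toMulEquiv.isField (Field.toIsField K0))
  obtain rfl : s = 1 := by omega
  refine ⟨g (MvPolynomial.X 0), ?_, ?_⟩
  · have h1 := ((MvPolynomial.algebraicIndependent_X (Fin 1) K0).map' hg).transcendental 0
    exact h1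
  · intro x
    obtain ⟨p, hp, h0⟩ := hi x
    let T := g (MvPolynomial.X 0)
    let B := Algebra.adjoin K0 ({T} : Set A)
    let g' : MvPolynomial (Fin 1) K0 →ₐ[K0] B :=
      MvPolynomial.aeval (fun _ => (⟨T, Algebra.self_mem_adjoin_singleton K0 T⟩ : B))
    have hc : (B.val).comp g' = g := by
      refine MvPolynomial.algHom_ext fun i => ?_
      have hi0 : i = 0 := Subsingleton.elim _ _
      rw [hi0]
      show B.val (g' (MvPolynomial.X 0)) = g (MvPolynomial.X 0)
      rw [MvPolynomial.aeval_X]
      rfl
    refine ⟨p.map g'.toRingHom, hp.map _, ?_⟩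
    rw [eval₂_map]
    have hc2 : (algebraMap B A).comp g'.toRingHom = g.toRingHom :=
      RingHom.ext fun q => DFunLike.congr_fun hc q
    rw [hc2]
    exact h0

end H25.DP
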