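import Pool.Agent.H77.AF.Ins

/-! # DP.Push : push-forward of products of differences `g⁺(P) - g⁻(P)` (point data, about 250 lines)

`D`, `D'` point data, `gp, gm : D.X → D'.X`, `Gp, Gm : D.Y → D'.Y` compatible with the action and with specialisation; every point of `D'.Y` specialises at every place; a point which is `off` in `D` has specialisations `xp` of `Gp y`, `xm` of `Gm y` with `xp - xm` a torsion class.
Then the homomorphism `phi`: `single P 1 ↦ ∏ (gp (P i) - gm (P i))` sends `RatEq D k` to `tor (RatEq D' k)`.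

Proof.  Let `cyc c - cyc c'` be a generator: `S` stable, `S = S1 + S2` at `π` (`S1` specialises to `c`, the tuples of `S2` have an `off` coordinate), `S = S1' + S2'` at `π'`.  For `J : Finset (Fin k)` let `G_J` be the map of tuples with `Gm` at the places of `J` and `Gp` at the others;
`S.map G_J` is stable.  At `π` choose for every `P` and every `i` specialisations `xp P i`, `xm P i` of `Gp (P i)`, `Gm (P i)` (`hprop`); `S.map G_J` specialises to `c.map g_J + S2.map x_J`.  So `cyc (c.map g_J) + cyc (S2.map x_J) - (the same at π') ∈ RatEq D' k`.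
Sum over `J` with the signs `(-1)^|J|`: `phi (cyc c) + ∑_{P ∈ S2} ∏ (xp P i - xm P i) - ...`; and for `P ∈ S2` one factor is a torsion class, so the product is in `tor (RatEq D' k)` (`exists_mul`, `kill1`; `pr2_eq`: the sum over `J` is the multilinear product of the differences, `MultilinearMap.map_add_univ`
or `Finset.prod_add`-like expansion, `map_smul_univ` for the signs). -/

namespace H25.DP

open H68.BB (Om Place)
open H77.AF

variable {K : Type} [Field K] {D D' : PD K}

/-- the product of the differences `gp (P i) - gm (P i)` -/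
noncomputable def pr2 {X : Type} (gp gm : X → D'.X) {k : ℕ} (P : Fin k → X) : Cyc D' k :=
  ∑ J : Finset (Fin k), (-1 : ℤ) ^ J.card • Finsupp.single (fun i => if i ∈ J then gm (P i) else gp (P i)) 1

/-- the homomorphism with `single P 1 ↦ pr2 gp gm P` -/
noncomputable def phi (D : PD K) {D' : PD K} (gp gm : D.X → D'.X) (k : ℕ) : Cyc D k →+ Cyc D' k :=
  Finsupp.liftAddHom fun P => zmultiplesHom _ (pr2 gp gm P)

theorem phi_single (gp gm : D.X → D'.X) {k : ℕ} (P : Fin k → D.X) (n : ℤ) :
    phi D gp gm k (Finsupp.single P n) = n • pr2 gp gm P := by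
  unfold phi
  rw [Finsupp.liftAddHom_apply_single, zmultiplesHom_apply]

theorem pr2_eq {mul : ∀ k : ℕ, MultilinearMap ℤ (fun _ : Fin k => Cyc1 D') (Cyc D' k)} (hm : ∀ k, IsPr (mul k)) {X : Type}
    (gp gm : X → D'.X) {k : ℕ} (P : Fin k → X) :
    pr2 gp gm P = mul k (fun i => Finsupp.single (gp (P i)) 1 - Finsupp.single (gm (P i)) 1) := by
  have h0 : (fun i => (Finsupp.single (gp (P i)) 1 - Finsupp.single (gm (P i)) 1 : Cyc1 D')) =
      (fun i => -(Finsupp.single (gm (P i)) 1 : Cyc1 D')) + fun i => (Finsupp.single (gp (P i)) 1 : Cyc1 D') := by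
    funext i
    rw [Pi.add_apply]
    abel
  rw [h0, MultilinearMap.map_add_univ]
  unfold pr2
  refine Finset.sum_congr rfl fun J _ => ?_
  have h1 : J.piecewise (fun i => -(Finsupp.single (gm (P i)) 1 : Cyc1 D')) (fun i => (Finsupp.single (gp (P i)) 1 : Cyc1 D')) =
      J.piecewise (fun i => (-1 : ℤ) • (Finsupp.single (if i ∈ J then gm (P i) else gp (P i)) 1 : Cyc1 D'))
        (fun i => (Finsupp.single (if i ∈ J then gm (P i) else gp (P i)) 1 : Cyc1 D')) := by
    funext i
    by_cases hi : i ∈ J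
    · rw [Finset.piecewise_eq_of_mem _ _ _ hi, Finset.piecewise_eq_of_mem _ _ _ hi, if_pos hi, neg_one_smul]
    · rw [Finset.piecewise_eq_of_notMem _ _ _ hi, Finset.piecewise_eq_of_notMem _ _ _ hi, if_neg hi]
  rw [h1, MultilinearMap.map_piecewise_smul, Finset.prod_const, hm k]

private theorem cyc_add {E : PD K} {k : ℕ} (S T : Multiset (Fin k → E.X)) : cyc (D := E) (S + T) = cyc S + cyc T := by
  unfold cyc
  rw [Multiset.map_add, Multiset.sum_add]

private theorem sum_sw {X A I : Type} [AddCommGroup A] [Fintype I] (a : I → ℤ) (F : I → X → A) (S : Multiset X) :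
    ∑ J, a J • (S.map (F J)).sum = (S.map (fun P => ∑ J, a J • F J P)).sum := by
  induction S using Multiset.induction_on with
  | empty => simp
  | cons x S ih =>
    rw [Multiset.map_cons, Multiset.sum_cons, ← ih, ← Finset.sum_add_distrib]
    refine Finset.sum_congr rfl fun J _ => ?_
    rw [Multiset.map_cons, Multiset.sum_cons, smul_add]

private theorem cyc_map {E : PD K} {X : Type} {k : ℕ} (gp gm : X → E.X) (S : Multiset (Fin k → X)) :
    ∑ J : Finset (Fin k), (-1 : ℤ) ^ J.card • cyc (D := E) (S.map (fun P i => if i ∈ J then gm (P i) else gp (P i))) =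
      (S.map (fun P => pr2 (D' := E) gp gm P)).sum := by
  unfold cyc pr2
  rw [← sum_sw]
  refine Finset.sum_congr rfl fun J _ => ?_
  rw [Multiset.map_map]
  rfl

private theorem phi_cyc (gp gm : D.X → D'.X) {k : ℕ} (c : Multiset (Fin k → D.X)) :
    phi D gp gm k (cyc c) = (c.map (fun P => pr2 gp gm P)).sum := by
  unfold cyc
  rw [map_multiset_sum, Multiset.map_map]
  congr 1
  refine Multiset.map_congr rfl fun P _ => ?_
  rw [Function.comp_apply, phi_single, one_smul]

private theorem fib_push (gp gm : D.X → D'.X) (Gp Gm : D.Y → D'.Y)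
    (hsp : ∀ π y x, D.sp π y x → D'.sp π (Gp y) (gp x))
    (hsm : ∀ π y x, D.sp π y x → D'.sp π (Gm y) (gm x)) (hprop : ∀ (π : Place K (Om K)) (y : D'.Y), ∃ x, D'.sp π y x)
    (hkill : ∀ π y xp xm, D.off π y → D'.sp π (Gp y) xp → D'.sp π (Gm y) xm →
      (Finsupp.single (fun _ => xp) 1 - Finsupp.single (fun _ => xm) 1 : Cyc D' 1) ∈ tor (RatEq D' 1))
    {k : ℕ} (π : Place K (Om K)) {S : Multiset (Fin k → D.Y)} {c : Multiset (Fin k → D.X)} (h : Fibre π S c) :
    ∃ d : Finset (Fin k) → Multiset (Fin k → D'.X),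
      (∀ J, Fibre π (S.map (fun P i => if i ∈ J then Gm (P i) else Gp (P i))) (d J)) ∧
      ∑ J : Finset (Fin k), (-1 : ℤ) ^ J.card • cyc (d J) - phi D gp gm k (cyc c) ∈ tor (RatEq D' k) := by
  obtain ⟨S1, S2, hS, hR, hoff⟩ := h
  choose xs hxs using hprop π
  refine ⟨fun J => c.map (fun P i => if i ∈ J then gm (P i) else gp (P i)) +
    S2.map (fun P i => if i ∈ J then xs (Gm (P i)) else xs (Gp (P i))), fun J => ?_, ?_⟩
  · refine ⟨S.map (fun P i => if i ∈ J then Gm (P i) else Gp (P i)), 0, (add_zero _).symm, ?_, ?_⟩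
    · rw [hS, Multiset.map_add]
      refine Multiset.Rel.add ?_ ?_
      · rw [Multiset.rel_map]
        refine hR.mono fun P _ p _ hPp i => ?_
        change D'.sp π (if i ∈ J then Gm (P i) else Gp (P i)) (if i ∈ J then gm (p i) else gp (p i))
        split_ifs
        · exact hsm π _ _ (hPp i)
        · exact hsp π _ _ (hPp i)
      · rw [Multiset.rel_map]
        refine Multiset.rel_refl_of_refl_on fun P _ i => ?_
        change D'.sp π (if i ∈ J then Gm (P i) else Gp (P i)) (if i ∈ J then xs (Gm (P i)) else xs (Gp (P i)))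
        split_ifs
        · exact hxs _
        · exact hxs _
    · intro P hP
      exact absurd hP (Multiset.notMem_zero P)
  · obtain ⟨mul, hmul⟩ : ∃ mul : ∀ k : ℕ, MultilinearMap ℤ (fun _ : Fin k => Cyc1 D') (Cyc D' k), ∀ k, IsPr (mul k) := by
      choose mul hmul using fun k => exists_mul D' k
      exact ⟨mul, fun k => (hmul k).2⟩
    have h1 : ∑ J : Finset (Fin k), (-1 : ℤ) ^ J.card • cyc (D := D')
        (c.map (fun P i => if i ∈ J then gm (P i) else gp (P i)) +
          S2.map (fun P i => if i ∈ J then xs (Gm (P i)) else xs (Gp (P i)))) =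
        phi D gp gm k (cyc c) + (S2.map (fun P => pr2 (D' := D') (fun y => xs (Gp y)) (fun y => xs (Gm y)) P)).sum := by
      rw [phi_cyc, ← cyc_map, ← cyc_map, ← Finset.sum_add_distrib]
      refine Finset.sum_congr rfl fun J _ => ?_
      rw [cyc_add, smul_add]
    rw [h1, add_sub_cancel_left]
    apply AddSubgroup.multiset_sum_mem
    intro x hx
    obtain ⟨P, hP, rfl⟩ := Multiset.mem_map.1 hx
    obtain ⟨i, hi⟩ := hoff P hP
    rw [pr2_eq hmul]
    apply kill1 (hmul k) (i := i)
    have h2 := hkill π (P i) _ _ hi (hxs (Gp (P i))) (hxs (Gm (P i)))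
    have h3 : up (D := D') (Finsupp.single (xs (Gp (P i))) 1 - Finsupp.single (xs (Gm (P i))) 1) =
        Finsupp.single (fun _ => xs (Gp (P i))) 1 - Finsupp.single (fun _ => xs (Gm (P i))) 1 := by
      rw [map_sub]
      unfold up
      rw [Finsupp.mapDomain.addMonoidHom_apply, Finsupp.mapDomain.addMonoidHom_apply, Finsupp.mapDomain_single,
        Finsupp.mapDomain_single]
    rw [h3]
    exact h2

theorem push_pd (gp gm : D.X → D'.X) (Gp Gm : D.Y → D'.Y) (hap : ∀ σ y, D'.act σ (Gp y) = Gp (D.act σ y))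
    (ham : ∀ σ y, D'.act σ (Gm y) = Gm (D.act σ y)) (hsp : ∀ π y x, D.sp π y x → D'.sp π (Gp y) (gp x))
    (hsm : ∀ π y x, D.sp π y x → D'.sp π (Gm y) (gm x)) (hprop : ∀ (π : Place K (Om K)) (y : D'.Y), ∃ x, D'.sp π y x)
    (hkill : ∀ π y xp xm, D.off π y → D'.sp π (Gp y) xp → D'.sp π (Gm y) xm →
      (Finsupp.single (fun _ => xp) 1 - Finsupp.single (fun _ => xm) 1 : Cyc D' 1) ∈ tor (RatEq D' 1))
    {k : ℕ} {x : Cyc D k} (hx : x ∈ tor (RatEq D k)) : phi D gp gm k x ∈ tor (RatEq D' k) := by
  have key : ∀ z ∈ RatEq D k, phi D gp gm k z ∈ tor (RatEq D' k) := by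
    intro z hz
    unfold RatEq at hz
    induction hz using AddSubgroup.closure_induction with
    | mem z hz =>
      obtain ⟨S, π, π', c, c', hG, hF, hF', rfl⟩ := hz
      obtain ⟨d, hd1, hd2⟩ := fib_push gp gm Gp Gm hsp hsm hprop hkill π hF
      obtain ⟨d', hd1', hd2'⟩ := fib_push gp gm Gp Gm hsp hsm hprop hkill π' hF'
      have h1 : ∀ J : Finset (Fin k), cyc (d J) - cyc (d' J) ∈ tor (RatEq D' k) := by
        intro J
        apply le_tor
        apply AddSubgroup.subset_closure
        refine ⟨_, π, π', d J, d' J, ?_, hd1 J, hd1' J, rfl⟩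
        intro σ
        rw [Multiset.map_map]
        conv_rhs => rw [← hG σ, Multiset.map_map]
        refine Multiset.map_congr rfl fun P _ => ?_
        funext i
        change D'.act σ (if i ∈ J then Gm (P i) else Gp (P i)) =
          if i ∈ J then Gm (D.act σ (P i)) else Gp (D.act σ (P i))
        split_ifs
        · exact ham σ _
        · exact hap σ _
      have h2 : ∑ J : Finset (Fin k), (-1 : ℤ) ^ J.card • cyc (d J) -
          ∑ J : Finset (Fin k), (-1 : ℤ) ^ J.card • cyc (d' J) ∈ tor (RatEq D' k) := by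
        rw [← Finset.sum_sub_distrib]
        refine AddSubgroup.sum_mem _ fun J _ => ?_
        rw [← smul_sub]
        exact AddSubgroup.zsmul_mem _ (h1 J) _
      rw [map_sub]
      have h3 := AddSubgroup.add_mem _ (AddSubgroup.sub_mem _ h2 hd2) hd2'
      have h4 : ∀ a a' b b' : Cyc D' k, a - a' - (a - b) + (a' - b') = b - b' := by
        intro a a' b b'
        abel
      rw [h4] at h3
      exact h3
    | zero => rw [map_zero]; exact AddSubgroup.zero_mem _
    | add x y _ _ hx hy => rw [map_add]; exact AddSubgroup.add_mem _ hx hy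
    | neg x _ hx => rw [map_neg]; exact AddSubgroup.neg_mem _ hx
  obtain ⟨N, hN, h1⟩ := hx
  refine tor_sat hN ?_
  rw [← map_nsmul]
  exact key _ h1

end H25.DP
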