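import Pool.Agent.H25.DP.Def
import Pool.Agent.H68.BB.Plc

/-! # DP.RatC : rational curves in the double plane (about 150 lines)

`K` algebraically closed.  `rat_curve`: the multiset with the single point `(p(t), z(t))` over `Om K` (`t = tt K`; coordinates `aeval (tt K) (p i)`, in `K(t)`, so fixed by the automorphisms over `K(t)`); nonzero: `p i ≠ 0` for some `i` since `(p i).eval u0 ≠ 0`, and `tt K` is
transcendental over `K`.  Places with `t ↦ u0`, `t ↦ u1`: `H68.BB.place_exists`; reduction of a polynomial in `tt K`: `Rd` is compatible with sums and products, constants: `π.const`.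
`scale`: `S = {cst P}`, the specialisations `P` (scalar `1`) and `P'` (scalar `c`) at any place.
`inv_rat`: apply the involution to everything (`S.map` of `inv`). -/

namespace H25.DP

open H68.BB (Om Place Rd tt)
open H77.AF Polynomial

variable {K0 : Type} [Field K0] {K : Type} [Field K] [IsAlgClosed K] [Algebra K0 K] {f : MvPolynomial (Fin 3) K0}

/-- reduction of a polynomial in `t` -/
private theorem rc_rd {K : Type} [Field K] {π : Place K (Om K)} {u : K} (h : Rd π.V π.φ (tt K) u) (q : K[X]) :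
    Rd π.V π.φ (Polynomial.aeval (tt K) q) (q.eval u) := by
  have hc : ∀ c : K, Rd π.V π.φ (algebraMap K (Om K) c) c := fun c => π.const c
  induction q using Polynomial.induction_on with
  | C a =>
    rw [Polynomial.aeval_C, Polynomial.eval_C]
    exact hc a
  | add p q hp hq =>
    rw [map_add, Polynomial.eval_add]
    exact hp.add hq
  | monomial n a _ =>
    rw [map_mul, Polynomial.aeval_C, map_pow, Polynomial.aeval_X, Polynomial.eval_mul, Polynomial.eval_C,
      Polynomial.eval_pow, Polynomial.eval_X]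
    exact (hc a).mul (h.pow _)

private theorem rc_fix {K : Type} [Field K] (σ : Om K ≃ₐ[RatFunc K] Om K) (q : K[X]) :
    σ (Polynomial.aeval (tt K) q) = Polynomial.aeval (tt K) q := by
  unfold tt
  rw [Polynomial.aeval_algebraMap_apply, σ.commutes]

/-- a one-point family -/
private theorem rc_one {K : Type} [Field K] {D : PD K} {P : D.Y} {P0 P1 : D.X} {π π' : Place K (Om K)}
    (hσ : ∀ σ, D.act σ P = P) (h0 : D.sp π P P0) (h1 : D.sp π' P P1) :
    (Finsupp.single (fun _ => P0) 1 - Finsupp.single (fun _ => P1) 1 : Cyc D 1) ∈ RatEq D 1 := by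
  refine AddSubgroup.subset_closure ⟨{fun _ => P}, π, π', {fun _ => P0}, {fun _ => P1}, ?_, ?_, ?_, ?_⟩
  · intro σ
    rw [Multiset.map_singleton]
    congr 1
    funext _
    exact hσ σ
  · refine ⟨{fun _ => P}, 0, (add_zero _).symm, ?_, fun Q hQ => absurd hQ (Multiset.notMem_zero Q)⟩
    exact Multiset.Rel.cons (fun _ => h0) Multiset.Rel.zero
  · refine ⟨{fun _ => P}, 0, (add_zero _).symm, ?_, fun Q hQ => absurd hQ (Multiset.notMem_zero Q)⟩
    exact Multiset.Rel.cons (fun _ => h1) Multiset.Rel.zero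
  · unfold cyc
    rw [Multiset.map_singleton, Multiset.map_singleton, Multiset.sum_singleton, Multiset.sum_singleton]

theorem rat_curve (p : Fin 3 → K[X]) (z : K[X]) (hz : z ^ 2 = MvPolynomial.aeval p f) {u0 u1 : K} {P0 P1 : XP f K}
    (h0 : ∀ i, P0.p i = (p i).eval u0) (h0z : P0.z = z.eval u0) (h1 : ∀ i, P1.p i = (p i).eval u1)
    (h1z : P1.z = z.eval u1) :
    (Finsupp.single (fun _ => P0) 1 - Finsupp.single (fun _ => P1) 1 : Cyc (xpd K f) 1) ∈ RatEq (xpd K f) 1 := by
  obtain ⟨π, hπ⟩ := H68.BB.place_exists K u0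
  obtain ⟨π', hπ'⟩ := H68.BB.place_exists K u1
  have hr : Rd π.V π.φ (tt K) u0 := hπ
  have hr' : Rd π'.V π'.φ (tt K) u1 := hπ'
  let P : XP f (Om K) :=
    { p := fun i => Polynomial.aeval (tt K) (p i)
      z := Polynomial.aeval (tt K) z
      ne := fun h => P0.ne (by
        funext i
        have h2 := rc_rd hr (p i)
        have h3 : Polynomial.aeval (tt K) (p i) = 0 := congrFun h i
        rw [h3] at h2
        rw [h0 i]
        exact h2.unique Rd.zero)
      eq := by
        have h2 := congrArg (Polynomial.aeval (tt K)) hz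
        rw [map_pow] at h2
        rw [h2]
        exact ev_map ((Polynomial.aeval (tt K) : K[X] →ₐ[K] Om K).restrictScalars K0) f p }
  refine rc_one (D := xpd K f) (P := P) (π := π) (π' := π') ?_ ?_ ?_
  · intro σ
    refine XP.ext ?_ (rc_fix σ z)
    funext i
    exact rc_fix σ (p i)
  · refine ⟨1, one_ne_zero, fun i => ?_, ?_⟩
    · rw [one_mul, h0 i]
      exact rc_rd hr (p i)
    · rw [one_pow, one_mul, h0z]
      exact rc_rd hr z
  · refine ⟨1, one_ne_zero, fun i => ?_, ?_⟩
    · rw [one_mul, h1 i]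
      exact rc_rd hr' (p i)
    · rw [one_pow, one_mul, h1z]
      exact rc_rd hr' z

theorem scale {P P' : XP f K} {c : K} (hc : c ≠ 0) (h : ∀ i, P'.p i = c * P.p i) (hz : P'.z = c ^ 3 * P.z) :
    (Finsupp.single (fun _ => P) 1 - Finsupp.single (fun _ => P') 1 : Cyc (xpd K f) 1) ∈ RatEq (xpd K f) 1 := by
  obtain ⟨π, -⟩ := H68.BB.place_exists K (0 : K)
  refine rc_one (D := xpd K f) (P := (xpd K f).cst P) (π := π) (π' := π) (fun σ => (xpd K f).act_cst σ P)
    ((xpd K f).sp_cst π P) ?_
  refine ⟨algebraMap K (Om K) c, ?_, fun i => ?_, ?_⟩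
  · rw [Ne, map_eq_zero_iff (algebraMap K (Om K)) (algebraMap K (Om K)).injective]
    exact hc
  · rw [h i]
    exact Rd.mul (π.const c) (π.const (P.p i))
  · rw [hz]
    exact Rd.mul (Rd.pow (π.const c) 3) (π.const P.z)

private theorem rc_map {K : Type} [Field K] {D : PD K} (gX : D.X → D.X) (gY : D.Y → D.Y)
    (hact : ∀ σ Q, D.act σ (gY Q) = gY (D.act σ Q)) (hsp : ∀ π Q q, D.sp π Q q → D.sp π (gY Q) (gX q))
    (hoff : ∀ π Q, D.off π Q → D.off π (gY Q)) {P P' : D.X}
    (h : (Finsupp.single (fun _ => P) 1 - Finsupp.single (fun _ => P') 1 : Cyc D 1) ∈ RatEq D 1) :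
    (Finsupp.single (fun _ => gX P) 1 - Finsupp.single (fun _ => gX P') 1 : Cyc D 1) ∈ RatEq D 1 := by
  classical
  let g : (Fin 1 → D.X) → (Fin 1 → D.X) := fun s i => gX (s i)
  let G : (Fin 1 → D.Y) → (Fin 1 → D.Y) := fun s i => gY (s i)
  let m : Cyc D 1 →+ Cyc D 1 := Finsupp.mapDomain.addMonoidHom g
  have hcyc : ∀ C : Multiset (Fin 1 → D.X), cyc (D := D) (C.map g) = m (cyc (D := D) C) := by
    intro C
    unfold cyc
    rw [Multiset.map_map, map_multiset_sum, Multiset.map_map]
    congr 1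
    refine Multiset.map_congr rfl fun s _ => ?_
    exact (Finsupp.mapDomain_single).symm
  have hfib : ∀ (π : Place K (Om K)) (S : Multiset (Fin 1 → D.Y)) (C : Multiset (Fin 1 → D.X)),
      Fibre π S C → Fibre π (S.map G) (C.map g) := by
    rintro π S C ⟨S1, S2, rfl, h1, h2⟩
    refine ⟨S1.map G, S2.map G, Multiset.map_add _ _ _, ?_, ?_⟩
    · rw [Multiset.rel_map]
      exact h1.mono fun s _ q _ hs i => hsp π (s i) (q i) (hs i)
    · intro Q hQ
      obtain ⟨s, hs, rfl⟩ := Multiset.mem_map.1 hQ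
      obtain ⟨i, hi⟩ := h2 s hs
      exact ⟨i, hoff π (s i) hi⟩
  have key : RatEq D 1 ≤ (RatEq D 1).comap m := by
    unfold RatEq
    rw [AddSubgroup.closure_le]
    rintro z ⟨S, π, π', C, C', hG, h1, h2, rfl⟩
    refine AddSubgroup.subset_closure ⟨S.map G, π, π', C.map g, C'.map g, ?_, hfib π S C h1, hfib π' S C' h2, ?_⟩
    · intro σ
      have h3 := hG σ
      rw [Multiset.map_map]
      conv_rhs => rw [← h3]
      rw [Multiset.map_map]
      refine Multiset.map_congr rfl fun s _ => ?_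
      funext i
      exact hact σ (s i)
    · rw [map_sub, hcyc, hcyc]
  have h1 := key h
  rw [AddSubgroup.mem_comap, map_sub] at h1
  have h2 : ∀ Q : D.X, m (Finsupp.single (fun _ => Q) 1) = Finsupp.single (fun _ => gX Q) 1 := fun Q =>
    Finsupp.mapDomain_single
  rw [h2, h2] at h1
  exact h1

theorem inv_rat {P P' : XP f K}
    (h : (Finsupp.single (fun _ => P) 1 - Finsupp.single (fun _ => P') 1 : Cyc (xpd K f) 1) ∈ RatEq (xpd K f) 1) :
    (Finsupp.single (fun _ => P.inv) 1 - Finsupp.single (fun _ => P'.inv) 1 : Cyc (xpd K f) 1) ∈ RatEq (xpd K f) 1 := by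
  refine rc_map (D := xpd K f) (fun P : XP f K => P.inv) (fun P : XP f (Om K) => P.inv) ?_ ?_ ?_ h
  · exact fun σ Q => XP.ext rfl (map_neg σ (XP.z Q))
  · rintro π Q q ⟨c, hc, h1, h2⟩
    refine ⟨c, hc, h1, ?_⟩
    have h3 : c ^ 3 * (XP.inv Q).z = -(c ^ 3 * XP.z Q) := mul_neg _ _
    rw [h3]
    exact h2.neg
  · exact fun π Q h => h

end H25.DP
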