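import Pool.Agent.H25.DP.Push
import Pool.Agent.H25.DP.RatC

/-! # DP.AltUp : antisymmetrised products with more factors (about 200 lines; given `pr2_eq`, `inv_rat`; `H77.AF.exists_mul`, `insk`, `kill1`, `tor_sat`)

`pr P = mul N (fun i => aX (P i))` (`pr2_eq` with `gp = id`, `gm = XP.inv`).
`alt_kill`: in every summand one factor `aX (P i)` is a torsion class (`kill1`, position `σ⁻¹ i`).
`alt_congr`: change the factors one after another (`MultilinearMap.map_update_sub`; the difference has a factor `aX (P i) - aX (P' i)` which is a torsion class: `h` and `inv_rat`), or `multi`: `∏ x_i - ∏ y_i` is a sum of products with one factor `x_i - y_i`.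
`alt_up`: let `J = Finset.univ.map ι`, `PJ` the permutations `π` of `Fin N` fixing the points outside `J` (via `Fin k ≃ J` they correspond to `τ ∈ Perm (Fin k)`: `π (ι i) = ι (τ i)`, same sign; compare `H77/AF/MainPD.lean`, `sum_PJ`).  For every `ρ`: `∑_{π ∈ PJ} sgn π • pr (P ∘ π ∘ ρ)` is a torsion class:
`insk` for `ι' = ρ⁻¹ ∘ ι`, `z l = aX (P (ρ l))` and the relation `alt (P ∘ ι)` (written as a sum over `τ` and `J'`); sum the terms over `J'` by `pr2_eq`-like expansion at the places `ι' i` (`MultilinearMap` with the other places fixed: `MultilinearMap.domDomRestrict` or expand directly).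
Then `|PJ| • alt P = ∑_π ∑_ρ sgn (π ρ) • pr (P ∘ (π ρ)) = ∑_ρ sgn ρ ∑_π ...`, `tor_sat`. -/

namespace H25.DP

open H68.BB (Om Place Rd tt)
open H77.AF

section abst

variable {K : Type} [Field K] {D : PD K}

/-- a multilinear map at differences -/
private theorem ml_sub {A B : Type} [AddCommGroup A] [AddCommGroup B] {k : ℕ}
    (M : MultilinearMap ℤ (fun _ : Fin k => A) B) (x y : Fin k → A) :
    M (fun i => x i - y i) = ∑ J : Finset (Fin k), (-1 : ℤ) ^ J.card • M (fun i => if i ∈ J then y i else x i) := by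
  classical
  have h1 : (fun i => x i - y i) = (fun i => (-1 : ℤ) • y i) + x := by
    funext i
    rw [Pi.add_apply, neg_one_smul]
    abel
  rw [h1, M.map_add_univ]
  refine Finset.sum_congr rfl fun J _ => ?_
  have h2 : J.piecewise (fun i => (-1 : ℤ) • y i) x =
      J.piecewise (fun i => (-1 : ℤ) • (J.piecewise y x) i) (J.piecewise y x) := by
    funext i
    by_cases hi : i ∈ J
    · rw [Finset.piecewise_eq_of_mem _ _ _ hi, Finset.piecewise_eq_of_mem _ _ _ hi,
        Finset.piecewise_eq_of_mem _ _ _ hi]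
    · rw [Finset.piecewise_eq_of_notMem _ _ _ hi, Finset.piecewise_eq_of_notMem _ _ _ hi,
        Finset.piecewise_eq_of_notMem _ _ _ hi]
  rw [h2, M.map_piecewise_smul (fun _ => (-1 : ℤ)), Finset.prod_const]
  congr 2

/-- the exterior product -/
private noncomputable def mulD (D : PD K) (k : ℕ) : MultilinearMap ℤ (fun _ : Fin k => Cyc1 D) (Cyc D k) :=
  (exists_mul D k).choose

private theorem mulD_pr (k : ℕ) : IsPr (mulD D k) := (exists_mul D k).choose_spec.2

private noncomputable def aD (g : D.X → D.X) (P : D.X) : Cyc1 D := Finsupp.single P 1 - Finsupp.single (g P) 1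

private noncomputable def prD (g : D.X → D.X) {k : ℕ} (P : Fin k → D.X) : Cyc D k :=
  ∑ J : Finset (Fin k), (-1 : ℤ) ^ J.card • Finsupp.single (fun i => if i ∈ J then g (P i) else P i) 1

private noncomputable def altD (g : D.X → D.X) {k : ℕ} (P : Fin k → D.X) : Cyc D k :=
  ∑ σ : Equiv.Perm (Fin k), (Equiv.Perm.sign σ : ℤ) • prD g (fun i => P (σ i))

private theorem prD_eq (g : D.X → D.X) {k : ℕ} (P : Fin k → D.X) : prD g P = mulD D k (fun i => aD g (P i)) := by
  have h := ml_sub (mulD D k) (fun i => Finsupp.single (P i) 1) (fun i => Finsupp.single (g (P i)) 1)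
  unfold prD
  refine Eq.trans (Finset.sum_congr rfl fun J _ => ?_) h.symm
  congr 1
  rw [← mulD_pr]
  congr 1
  funext i
  split_ifs <;> rfl

private theorem up_aD (g : D.X → D.X) (P : D.X) :
    up (aD g P) = (Finsupp.single (fun _ => P) 1 - Finsupp.single (fun _ => g P) 1 : Cyc D 1) := by
  unfold aD
  rw [map_sub]
  congr 1
  · exact Finsupp.mapDomain_single
  · exact Finsupp.mapDomain_single

/-- changing the factors -/
private theorem ml_congr {N : ℕ} {mul : MultilinearMap ℤ (fun _ : Fin N => Cyc1 D) (Cyc D N)} (hm : IsPr mul)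
    (z z' : Fin N → Cyc1 D) (h : ∀ i, up (z i - z' i) ∈ tor (RatEq D 1)) : mul z - mul z' ∈ tor (RatEq D N) := by
  classical
  have key : ∀ s : Finset (Fin N), mul (s.piecewise z z') - mul z' ∈ tor (RatEq D N) := by
    intro s
    induction s using Finset.induction_on with
    | empty =>
      rw [Finset.piecewise_empty, sub_self]
      exact (tor (RatEq D N)).zero_mem
    | insert a s ha ih =>
      rw [Finset.piecewise_insert]
      have h2 : z' a = s.piecewise z z' a := (Finset.piecewise_eq_of_notMem _ _ _ ha).symm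
      have h1 : mul (Function.update (s.piecewise z z') a (z a)) - mul (s.piecewise z z') =
          mul (Function.update (s.piecewise z z') a (z a - z' a)) := by
        rw [MultilinearMap.map_update_sub]
        congr 2
        rw [h2, Function.update_eq_self]
      have h3 : mul (Function.update (s.piecewise z z') a (z a - z' a)) ∈ tor (RatEq D N) :=
        kill1 hm _ (i := a) (by rw [Function.update_self]; exact h a)
      have h4 : mul (Function.update (s.piecewise z z') a (z a)) - mul z' =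
          mul (Function.update (s.piecewise z z') a (z a - z' a)) + (mul (s.piecewise z z') - mul z') := by
        rw [← h1]
        abel
      rw [h4]
      exact (tor (RatEq D N)).add_mem h3 ih
  have h5 := key Finset.univ
  rwa [Finset.piecewise_univ] at h5

private theorem fill_updk {X : Type} {k m : ℕ} {ι : Fin k → Fin m} (hι : Function.Injective ι) [DecidableEq (Fin k)]
    (q : Fin m → X) (p : Fin k → X) (j : Fin k) (x : X) :
    fill ι q (Function.update p j x) = Function.update (fill ι q p) (ι j) x := by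
  funext l
  by_cases hl : ∃ i, ι i = l
  · obtain ⟨i, rfl⟩ := hl
    rw [fill_at hι]
    by_cases hij : i = j
    · subst hij
      rw [Function.update_self, Function.update_self]
    · rw [Function.update_of_ne hij, Function.update_of_ne (fun h => hij (hι h)), fill_at hι]
  · have hl' : ∀ i, ι i ≠ l := fun i hi => hl ⟨i, hi⟩
    rw [fill_off _ _ hl', Function.update_of_ne (fun h => hl' j h.symm), fill_off _ _ hl']

/-- the exterior product in the places `ι j` -/
private noncomputable def mulF {N k : ℕ} {ι : Fin k → Fin N} (hι : Function.Injective ι) (z : Fin N → Cyc1 D) :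
    MultilinearMap ℤ (fun _ : Fin k => Cyc1 D) (Cyc D N) where
  toFun := fun p => mulD D N (fill ι z p)
  map_update_add' := by
    intro _ p j x y
    rw [fill_updk hι, fill_updk hι, fill_updk hι, MultilinearMap.map_update_add]
  map_update_smul' := by
    intro _ p j c x
    rw [fill_updk hι, fill_updk hι, MultilinearMap.map_update_smul]

/-- the relation in `k` places -/
private theorem fill_rel (g : D.X → D.X) {N k : ℕ} {P : Fin k → D.X} (h : altD g P ∈ tor (RatEq D k)) {ι : Fin k → Fin N}
    (hι : Function.Injective ι) (z : Fin N → Cyc1 D) :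
    ∑ τ : Equiv.Perm (Fin k), (Equiv.Perm.sign τ : ℤ) • mulD D N (fill ι z (fun i => aD g (P (τ i)))) ∈
      tor (RatEq D N) := by
  let Pt : Equiv.Perm (Fin k) × Finset (Fin k) → Fin k → D.X := fun u i =>
    if i ∈ u.2 then g (P (u.1 i)) else P (u.1 i)
  let cf : Equiv.Perm (Fin k) × Finset (Fin k) → ℤ := fun u => (Equiv.Perm.sign u.1 : ℤ) * (-1 : ℤ) ^ u.2.card
  have h1 : ∑ u ∈ (Finset.univ : Finset (Equiv.Perm (Fin k) × Finset (Fin k))),
      cf u • (Finsupp.single (Pt u) 1 : Cyc D k) = altD g P := by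
    rw [← Finset.univ_product_univ, Finset.sum_product]
    unfold altD
    refine Finset.sum_congr rfl fun τ _ => ?_
    unfold prD
    rw [Finset.smul_sum]
    refine Finset.sum_congr rfl fun J _ => ?_
    rw [smul_smul]
  have h2 := insk (mulD_pr (D := D) N) hι (Finset.univ : Finset (Equiv.Perm (Fin k) × Finset (Fin k))) cf Pt
    (by rw [h1]; exact h) z
  have h3 : ∑ u ∈ (Finset.univ : Finset (Equiv.Perm (Fin k) × Finset (Fin k))),
      cf u • mulD D N (fill ι z (fun j => Finsupp.single (Pt u j) 1)) =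
      ∑ τ : Equiv.Perm (Fin k), (Equiv.Perm.sign τ : ℤ) • mulD D N (fill ι z (fun i => aD g (P (τ i)))) := by
    rw [← Finset.univ_product_univ, Finset.sum_product]
    refine Finset.sum_congr rfl fun τ _ => ?_
    have h4 := ml_sub (mulF hι z) (fun i => Finsupp.single (P (τ i)) 1) (fun i => Finsupp.single (g (P (τ i))) 1)
    have h5 : mulD D N (fill ι z (fun i => aD g (P (τ i)))) =
        mulF hι z (fun i => Finsupp.single (P (τ i)) 1 - Finsupp.single (g (P (τ i))) 1) := rfl
    rw [h5, h4, Finset.smul_sum]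
    refine Finset.sum_congr rfl fun J _ => ?_
    rw [smul_smul]
    change cf (τ, J) • mulF hι z (fun j => Finsupp.single (Pt (τ, J) j) 1) = _
    congr 2
    funext i
    change (Finsupp.single (if i ∈ J then g (P (τ i)) else P (τ i)) 1 : Cyc1 D) = _
    split_ifs <;> rfl
  rw [h3] at h2
  exact h2

private theorem alt_killD (g : D.X → D.X) {N : ℕ} {P : Fin N → D.X} {i : Fin N}
    (h : (Finsupp.single (fun _ => P i) 1 - Finsupp.single (fun _ => g (P i)) 1 : Cyc D 1) ∈ tor (RatEq D 1)) :
    altD g P ∈ tor (RatEq D N) := by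
  unfold altD
  refine AddSubgroup.sum_mem _ fun σ _ => AddSubgroup.zsmul_mem _ ?_ _
  rw [prD_eq]
  refine kill1 (mulD_pr N) _ (i := σ.symm i) ?_
  change up (aD g (P (σ (σ.symm i)))) ∈ _
  rw [Equiv.apply_symm_apply, up_aD]
  exact h

private theorem alt_congrD (g : D.X → D.X) {N : ℕ} {P P' : Fin N → D.X}
    (h : ∀ i, (Finsupp.single (fun _ => P i) 1 - Finsupp.single (fun _ => P' i) 1 : Cyc D 1) ∈ RatEq D 1)
    (hg : ∀ i, (Finsupp.single (fun _ => g (P i)) 1 - Finsupp.single (fun _ => g (P' i)) 1 : Cyc D 1) ∈ RatEq D 1)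
    (h' : altD g P' ∈ tor (RatEq D N)) : altD g P ∈ tor (RatEq D N) := by
  have h1 : altD g P - altD g P' ∈ tor (RatEq D N) := by
    unfold altD
    rw [← Finset.sum_sub_distrib]
    refine AddSubgroup.sum_mem _ fun σ _ => ?_
    rw [← smul_sub]
    refine AddSubgroup.zsmul_mem _ ?_ _
    rw [prD_eq, prD_eq]
    refine ml_congr (mulD_pr N) _ _ fun i => ?_
    have h2 := (RatEq D 1).sub_mem (h (σ i)) (hg (σ i))
    have h3 : up (aD g (P (σ i)) - aD g (P' (σ i))) =
        ((Finsupp.single (fun _ => P (σ i)) 1 - Finsupp.single (fun _ => P' (σ i)) 1 : Cyc D 1) -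
          (Finsupp.single (fun _ => g (P (σ i))) 1 - Finsupp.single (fun _ => g (P' (σ i))) 1 : Cyc D 1)) := by
      rw [map_sub, up_aD, up_aD]
      abel
    rw [h3]
    exact le_tor _ h2
  have h4 := (tor (RatEq D N)).add_mem h1 h'
  rwa [sub_add_cancel] at h4

private theorem alt_upD (g : D.X → D.X) {N k : ℕ} {P : Fin N → D.X} {ι : Fin k → Fin N} (hι : Function.Injective ι)
    (h : altD g (fun i => P (ι i)) ∈ tor (RatEq D k)) : altD g P ∈ tor (RatEq D N) := by
  classical
  let e : Fin k ↪ Fin N := ⟨ι, hι⟩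
  let v : Equiv.Perm (Fin k) → Equiv.Perm (Fin N) := fun τ => τ.viaFintypeEmbedding e
  have hv1 : ∀ τ i, v τ (ι i) = ι (τ i) := fun τ i => Equiv.Perm.viaFintypeEmbedding_apply_image τ e i
  have hv2 : ∀ τ l, (∀ i, ι i ≠ l) → v τ l = l := fun τ l hl =>
    Equiv.Perm.viaFintypeEmbedding_apply_notMem_range τ e (fun ⟨i, hi⟩ => hl i hi)
  have hv3 : ∀ τ, Equiv.Perm.sign (v τ) = Equiv.Perm.sign τ := fun τ => Equiv.Perm.viaFintypeEmbedding_sign τ e
  have h1 : ∀ ρ : Equiv.Perm (Fin N), ∑ τ : Equiv.Perm (Fin k),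
      (Equiv.Perm.sign τ : ℤ) • prD g (fun l => P ((v τ * ρ) l)) ∈ tor (RatEq D N) := by
    intro ρ
    have hι' : Function.Injective fun i => ρ.symm (ι i) := ρ.symm.injective.comp hι
    have h2 := fill_rel g h hι' (fun l => aD g (P (ρ l)))
    have h3 : ∀ τ : Equiv.Perm (Fin k), fill (fun i => ρ.symm (ι i)) (fun l => aD g (P (ρ l))) (fun i => aD g (P (ι (τ i)))) =
        fun l => aD g (P ((v τ * ρ) l)) := by
      intro τ
      funext l
      by_cases hl : ∃ i, ρ.symm (ι i) = l
      · obtain ⟨i, rfl⟩ := hl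
        have h7 := fill_at hι' (fun l => aD g (P (ρ l))) (fun i => aD g (P (ι (τ i)))) i
        refine h7.trans ?_
        rw [Equiv.Perm.mul_apply, Equiv.apply_symm_apply, hv1]
      · have hl' : ∀ i, ρ.symm (ι i) ≠ l := fun i hi => hl ⟨i, hi⟩
        rw [fill_off _ _ hl', Equiv.Perm.mul_apply, hv2]
        intro i hi
        exact hl' i (by rw [hi, Equiv.symm_apply_apply])
    have h4 : ∑ τ : Equiv.Perm (Fin k), (Equiv.Perm.sign τ : ℤ) • prD g (fun l => P ((v τ * ρ) l)) =
        ∑ τ : Equiv.Perm (Fin k), (Equiv.Perm.sign τ : ℤ) • mulD D N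
          (fill (fun i => ρ.symm (ι i)) (fun l => aD g (P (ρ l))) (fun i => aD g (P (ι (τ i))))) := by
      refine Finset.sum_congr rfl fun τ _ => ?_
      rw [h3, prD_eq]
    rw [h4]
    exact h2
  have h5 : (Fintype.card (Equiv.Perm (Fin k))) • altD g P =
      ∑ ρ : Equiv.Perm (Fin N), (Equiv.Perm.sign ρ : ℤ) • ∑ τ : Equiv.Perm (Fin k),
        (Equiv.Perm.sign τ : ℤ) • prD g (fun l => P ((v τ * ρ) l)) := by
    have h6 : ∀ τ : Equiv.Perm (Fin k), altD g P =
        ∑ ρ : Equiv.Perm (Fin N), (Equiv.Perm.sign ρ : ℤ) • (Equiv.Perm.sign τ : ℤ) • prD g (fun l => P ((v τ * ρ) l)) := by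
      intro τ
      unfold altD
      rw [← Equiv.sum_comp (Equiv.mulLeft (v τ))]
      refine Finset.sum_congr rfl fun ρ _ => ?_
      rw [Equiv.coe_mulLeft, Equiv.Perm.sign_mul, hv3, smul_smul, Units.val_mul, mul_comm]
    simp only [Finset.smul_sum]
    rw [Finset.sum_comm, ← Finset.card_univ, ← Finset.sum_const]
    exact Finset.sum_congr rfl fun τ _ => h6 τ
  refine tor_sat Fintype.card_pos (?_ : (Fintype.card (Equiv.Perm (Fin k))) • altD g P ∈ _)
  rw [h5]
  exact AddSubgroup.sum_mem _ fun ρ _ => AddSubgroup.zsmul_mem _ (h1 ρ) _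

end abst

variable {K0 : Type} [Field K0] {K : Type} [Field K] [IsAlgClosed K] [Algebra K0 K] {f : MvPolynomial (Fin 3) K0}

theorem alt_kill {N : ℕ} {P : Fin N → XP f K} {i : Fin N}
    (h : (Finsupp.single (fun _ => P i) 1 - Finsupp.single (fun _ => (P i).inv) 1 : Cyc (xpd K f) 1) ∈
      tor (RatEq (xpd K f) 1)) : alt P ∈ tor (RatEq (xpd K f) N) :=
  alt_killD (D := xpd K f) XP.inv h

theorem alt_congr {N : ℕ} {P P' : Fin N → XP f K}
    (h : ∀ i, (Finsupp.single (fun _ => P i) 1 - Finsupp.single (fun _ => P' i) 1 : Cyc (xpd K f) 1) ∈ RatEq (xpd K f) 1)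
    (h' : alt P' ∈ tor (RatEq (xpd K f) N)) : alt P ∈ tor (RatEq (xpd K f) N) :=
  alt_congrD (D := xpd K f) XP.inv h (fun i => inv_rat (h i)) h'

theorem alt_up {N k : ℕ} {P : Fin N → XP f K} {ι : Fin k → Fin N} (hι : Function.Injective ι)
    (h : alt (fun i => P (ι i)) ∈ tor (RatEq (xpd K f) k)) : alt P ∈ tor (RatEq (xpd K f) N) :=
  alt_upD (D := xpd K f) XP.inv hι h

end H25.DP
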