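import Pool.Agent.H77.AF.Surf
import Mathlib

/-! # DP.Brg : a domain of finite type, integral over `K0[T]`, is a finite faithful algebra over the polynomial ring -/

namespace H25.DP

open Polynomial

theorem brg {K0 A : Type} [Field K0] [CommRing A] [IsDomain A] [Algebra K0 A] [Algebra.FiniteType K0 A] {T : A}
    (hT : Transcendental K0 T) (hint : ∀ x : A, IsIntegral (Algebra.adjoin K0 ({T} : Set A)) x) :
    ∃ (_ : Algebra K0[X] A), IsScalarTower K0 K0[X] A ∧ Module.Finite K0[X] A ∧ FaithfulSMul K0[X] A := by
  let i : Algebra K0[X] A := (aeval T : K0[X] →ₐ[K0] A).toRingHom.toAlgebra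
  have hst : IsScalarTower K0 K0[X] A := IsScalarTower.of_algebraMap_eq fun c => ((aeval T : K0[X] →ₐ[K0] A).commutes c).symm
  have hinj : Function.Injective (algebraMap K0[X] A) := transcendental_iff_injective.mp hT
  refine ⟨i, hst, ?_, (faithfulSMul_iff_algebraMap_injective _ _).mpr hinj⟩
  have hft : Algebra.FiniteType K0[X] A := Algebra.FiniteType.of_restrictScalars_finiteType K0 K0[X] A
  have hint2 : Algebra.IsIntegral K0[X] A := by
    constructor
    intro x
    have h1 := hint x
    let ψ : Algebra.adjoin K0 ({T} : Set A) →+* (algebraMap K0[X] A).range :=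
      { toFun := fun y => ⟨y.1, by
          have h2 : ∀ z ∈ Algebra.adjoin K0 ({T} : Set A), z ∈ (algebraMap K0[X] A).range := by
            intro z hz
            rw [Algebra.adjoin_singleton_eq_range_aeval] at hz
            obtain ⟨p, hp⟩ := hz
            exact ⟨p, hp⟩
          exact h2 _ y.2⟩
        map_one' := rfl
        map_mul' := fun _ _ => rfl
        map_zero' := rfl
        map_add' := fun _ _ => rfl }
    obtain ⟨p, hp, hpx⟩ := h1
    have h2 : IsIntegral (algebraMap K0[X] A).range x := by
      refine ⟨p.map ψ, hp.map ψ, ?_⟩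
      rw [eval₂_map]
      exact hpx
    obtain ⟨q, hq, hqx⟩ := h2
    have hsurj : Function.Surjective (algebraMap K0[X] A).rangeRestrict := (algebraMap K0[X] A).rangeRestrict_surjective
    obtain ⟨q', hq'1, hq'2⟩ := Polynomial.lifts_and_natDegree_eq_and_monic
      (f := (algebraMap K0[X] A).rangeRestrict) (p := q) (by
        rw [Polynomial.lifts_iff_coeff_lifts]
        intro n
        obtain ⟨c, hc⟩ := hsurj (q.coeff n)
        exact ⟨c, hc⟩) hq
    refine ⟨q', hq'2.2, ?_⟩
    rw [← hq'1, eval₂_map] at hqx
    exact hqx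
  exact Algebra.IsIntegral.finite

end H25.DP
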