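import Pool.Agent.H25.DP.Def

/-! # DP.LinF : the polynomial `f(X d + e)` and the binary form `f(x d + y e)` (about 130 lines)

`ev_smul`: `MvPolynomial.IsHomogeneous` and scaling (e.g. `MvPolynomial.IsHomogeneous.eval₂`/`aeval` lemmas, or induction over the support: `aeval (c • p)` of a monomial of degree `n`).
`lin_fun`: for `y ≠ 0`: `x d + y e = y ((x/y) d + e)`, `ev_smul`, `lin_eval`, `h` evaluated at `x/y`, `field_simp`.  For `y = 0`: both sides are values at `Y = 0` of polynomials in `Y` over the infinite field `F`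
(left: `lin f e (x d)` evaluated at `Y`, since `Y e + x d`), which agree at all `Y ≠ 0`: so they are equal (`Polynomial.eq_of_infinite_eval_eq`).
`lin_of`: `Polynomial.funext` and `lin_eval`. -/

namespace H25.DP

open Polynomial

variable {K0 : Type} [Field K0]

theorem ev_smul {f : MvPolynomial (Fin 3) K0} {n : ℕ} (hf : f.IsHomogeneous n) {F : Type} [CommRing F] [Algebra K0 F]
    (c : F) (p : Fin 3 → F) : ev f (fun i => c * p i) = c ^ n * ev f p := by
  unfold ev
  rw [MvPolynomial.aeval_def, MvPolynomial.aeval_def, MvPolynomial.eval₂_eq', MvPolynomial.eval₂_eq', Finset.mul_sum]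
  refine Finset.sum_congr rfl fun d hd => ?_
  have h1 : ∑ i, d i = n := by
    rw [hf.degree_eq_sum_deg_support hd]
    exact (Finset.sum_subset (Finset.subset_univ _) fun i _ hi => Finsupp.notMem_support_iff.1 hi).symm
  rw [Finset.prod_congr rfl fun i _ => mul_pow c (p i) (d i), Finset.prod_mul_distrib,
    Finset.prod_pow_eq_pow_sum, h1]
  ring

theorem grad_smul {f : MvPolynomial (Fin 3) K0} {n : ℕ} (hf : f.IsHomogeneous (n + 1)) {F : Type} [CommRing F] [Algebra K0 F]
    (c : F) (p : Fin 3 → F) (i : Fin 3) : grad f (fun j => c * p j) i = c ^ n * grad f p i := by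
  have h : (MvPolynomial.pderiv i f).IsHomogeneous n := hf.pderiv
  exact ev_smul h c p

/-- Euler -/
theorem euler {f : MvPolynomial (Fin 3) K0} {n : ℕ} (hf : f.IsHomogeneous n) {F : Type} [CommRing F] [Algebra K0 F]
    (p : Fin 3 → F) : ∑ i, p i * grad f p i = n * ev f p := by
  have h := congrArg (MvPolynomial.aeval p) hf.sum_X_mul_pderiv
  rw [map_sum, map_nsmul, nsmul_eq_mul] at h
  rw [← ev] at h
  rw [← h]
  refine Finset.sum_congr rfl fun i _ => ?_
  rw [map_mul, MvPolynomial.aeval_X]
  rfl

theorem lin_fun {f : MvPolynomial (Fin 3) K0} (hf : f.IsHomogeneous 6) {F : Type} [Field F] [Infinite F] [Algebra K0 F]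
    {d e : Fin 3 → F} {s t a b : F}
    (h : lin f d e = (C s * X + C t) ^ 2 * (X ^ 3 - C (3 * a) * X - C (2 * b))) (x y : F) :
    ev f (lc x y d e) = (s * x + t * y) ^ 2 * quar 1 0 (-(3 * a)) (-(2 * b)) x y := by
  -- the case `y ≠ 0`
  have h1 : ∀ y : F, y ≠ 0 → ev f (lc x y d e) = (s * x + t * y) ^ 2 * quar 1 0 (-(3 * a)) (-(2 * b)) x y := by
    intro y hy
    have h2 : lc x y d e = fun i => y * lc (x / y) 1 d e i := by
      funext i
      simp only [lc]
      field_simp
    rw [h2, ev_smul hf, ← lin_eval, h]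
    simp only [eval_mul, eval_add, eval_sub, eval_pow, eval_C, eval_X, quar]
    field_simp
    ring
  -- both sides as polynomials in `y`
  set q : F[X] := (C (s * x) + C t * X) ^ 2 * (X * (C (x ^ 3) + C (-(3 * a) * x) * X ^ 2 + C (-(2 * b)) * X ^ 3)) with hq
  have h3 : ∀ y : F, (lin f e (fun i => x * d i)).eval y = ev f (lc x y d e) := by
    intro y
    rw [lin_eval]
    congr 1
    funext i
    simp only [lc]
    ring
  have h4 : ∀ y : F, q.eval y = (s * x + t * y) ^ 2 * quar 1 0 (-(3 * a)) (-(2 * b)) x y := by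
    intro y
    rw [hq]
    simp only [eval_mul, eval_add, eval_pow, eval_C, eval_X, quar]
    ring
  have h5 : lin f e (fun i => x * d i) = q := by
    refine Polynomial.eq_of_infinite_eval_eq _ _ ?_
    have h6 : (({0} : Set F)ᶜ).Infinite := (Set.finite_singleton (0 : F)).infinite_compl
    refine h6.mono fun y hy => ?_
    have hy0 : y ≠ 0 := hy
    change (lin f e (fun i => x * d i)).eval y = q.eval y
    rw [h3, h4, h1 y hy0]
  rw [← h3, h5, h4]

theorem lin_of {f : MvPolynomial (Fin 3) K0} {F : Type} [Field F] [Infinite F] [Algebra K0 F]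
    {d e : Fin 3 → F} {s t a b : F}
    (h : ∀ x : F, ev f (lc x 1 d e) = (s * x + t) ^ 2 * (x ^ 3 - 3 * a * x - 2 * b)) :
    lin f d e = (C s * X + C t) ^ 2 * (X ^ 3 - C (3 * a) * X - C (2 * b)) := by
  refine Polynomial.funext fun x => ?_
  rw [lin_eval, h]
  simp only [eval_mul, eval_add, eval_sub, eval_pow, eval_C, eval_X]

end H25.DP
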