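import Pool.Agent.H25.DP.Def

/-! # DP.Tang : derivatives along a line (about 150 lines)

`lin_der`: both sides are additive in `f`; `MvPolynomial.induction_on`: constants (`0 = 0`), sums, products with a variable (Leibniz; `MvPolynomial.pderiv_mul`, `pderiv_X`).
`tangG`: the polynomial `lin f g (y0 h)` has the values `ev f (lc x y0 g h)` (`lin_eval`), so it equals `P` (`F` infinite), take the derivative (`lin_der`) and evaluate at `x0` (`lin_eval` for the partial derivatives).
`tang`: `tangG` with `y0 = - u`, `x0 = v`, `P = (C u * X - C (v * u)) ^ 2 * (polynomial of the quartic at y = -u)`: `P.derivative` vanishes at `v`; for `h` exchange the roles: `lc x y g h = lc y x h g`.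
`perp`: linear algebra: if `cr g h ≠ 0`, the vectors orthogonal to `g` and `h` are the multiples of `cr g h`: let `i` be an index with `cr g h i ≠ 0`, `θ = w i / cr g h i`; the other coordinates by Cramer (three cases, `field_simp`, `linear_combination`). -/

namespace H25.DP

open Polynomial

variable {K0 : Type} [Field K0]

theorem lin_der (f : MvPolynomial (Fin 3) K0) {F : Type} [CommRing F] [Algebra K0 F] (d e : Fin 3 → F) :
    (lin f d e).derivative = ∑ i, C (d i) * lin (MvPolynomial.pderiv i f) d e := by
  induction f using MvPolynomial.induction_on with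
  | C c =>
    have h1 : lin (MvPolynomial.C c : MvPolynomial (Fin 3) K0) d e = C (algebraMap K0 F c) := by
      unfold lin
      rw [MvPolynomial.aeval_C]
      rfl
    have h2 : ∀ i : Fin 3, lin (MvPolynomial.pderiv i (MvPolynomial.C c : MvPolynomial (Fin 3) K0)) d e = 0 := fun i => by
      rw [MvPolynomial.pderiv_C]
      unfold lin
      rw [map_zero]
    rw [h1, derivative_C]
    simp only [h2, mul_zero, Finset.sum_const_zero]
  | add p q hp hq =>
    have h1 : lin (p + q) d e = lin p d e + lin q d e := by
      unfold lin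
      rw [map_add]
    have h2 : ∀ i : Fin 3, lin (MvPolynomial.pderiv i (p + q)) d e =
        lin (MvPolynomial.pderiv i p) d e + lin (MvPolynomial.pderiv i q) d e := fun i => by
      unfold lin
      rw [map_add, map_add]
    rw [h1, derivative_add, hp, hq]
    simp only [h2, mul_add, Finset.sum_add_distrib]
  | mul_X p j hp =>
    have h1 : lin (p * MvPolynomial.X j) d e = lin p d e * (C (d j) * X + C (e j)) := by
      unfold lin
      rw [map_mul, MvPolynomial.aeval_X]
    have h2 : ∀ i : Fin 3, C (d i) * lin (MvPolynomial.pderiv i (p * MvPolynomial.X j)) d e =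
        C (d i) * lin (MvPolynomial.pderiv i p) d e * (C (d j) * X + C (e j)) +
          (if i = j then C (d i) * lin p d e else 0) := fun i => by
      have h3 : lin (MvPolynomial.pderiv i (p * MvPolynomial.X j)) d e =
          lin (MvPolynomial.pderiv i p) d e * (C (d j) * X + C (e j)) +
            (if i = j then lin p d e else 0) := by
        rw [MvPolynomial.pderiv_mul]
        unfold lin
        rw [map_add, map_mul, map_mul, MvPolynomial.aeval_X]
        by_cases hij : i = j
        · subst hij
          rw [MvPolynomial.pderiv_X_self, map_one, mul_one, if_pos rfl]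
        · rw [MvPolynomial.pderiv_X_of_ne (Ne.symm hij), map_zero, mul_zero, if_neg hij]
      rw [h3]
      split_ifs <;> ring
    rw [h1, derivative_mul, hp]
    simp only [h2, Finset.sum_add_distrib, Finset.sum_ite_eq', Finset.mem_univ, if_true, derivative_add,
      derivative_C_mul, derivative_X, derivative_C, add_zero, mul_one, ← Finset.sum_mul]
    ring

theorem tangG (f : MvPolynomial (Fin 3) K0) {F : Type} [Field F] [Infinite F] [Algebra K0 F] {g h : Fin 3 → F} {y0 : F}
    {P : F[X]} (H : ∀ x : F, ev f (lc x y0 g h) = P.eval x) (x0 : F) :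
    ∑ i, g i * grad f (lc x0 y0 g h) i = P.derivative.eval x0 := by
  have hlc : ∀ x : F, lc x 1 g (fun i => y0 * h i) = lc x y0 g h := fun x => by
    funext i
    simp only [lc, one_mul]
  have h1 : lin f g (fun i => y0 * h i) = P := by
    refine Polynomial.funext (fun x => ?_)
    rw [lin_eval, hlc, H x]
  rw [← h1, lin_der, eval_finsetSum]
  refine Finset.sum_congr rfl (fun i _ => ?_)
  rw [eval_mul, eval_C, lin_eval, hlc]
  rfl

theorem tang {f : MvPolynomial (Fin 3) K0} {F : Type} [Field F] [Infinite F] [Algebra K0 F] {g h : Fin 3 → F}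
    {u v q0 q1 q2 q3 : F} (H : ∀ x y : F, ev f (lc x y g h) = (u * x + v * y) ^ 2 * quar q0 q1 q2 q3 x y) :
    ∑ i, g i * grad f (lc v (-u) g h) i = 0 ∧ ∑ i, h i * grad f (lc v (-u) g h) i = 0 := by
  have hsw : ∀ x y : F, lc x y g h = lc y x h g := fun x y => by
    funext i
    simp only [lc]
    ring
  constructor
  · have h1 := tangG (f := f) (g := g) (h := h) (y0 := -u)
      (P := (C u * X - C (v * u)) ^ 2 *
        (C (-u) * (C q0 * X ^ 3 + C (q1 * (-u)) * X ^ 2 + C (q2 * (-u) ^ 2) * X + C (q3 * (-u) ^ 3))))
      (fun x => by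
        rw [H]
        simp only [quar, eval_mul, eval_pow, eval_sub, eval_add, eval_C, eval_X]
        ring) v
    rw [h1]
    simp only [derivative_mul, derivative_pow, derivative_sub, derivative_C, derivative_X, eval_mul, eval_add, eval_pow,
      eval_sub, eval_C, eval_X]
    ring
  · have h1 := tangG (f := f) (g := h) (h := g) (y0 := v)
      (P := (C v * X + C (u * v)) ^ 2 *
        (X * (C (q0 * v ^ 3) + C (q1 * v ^ 2) * X + C (q2 * v) * X ^ 2 + C q3 * X ^ 3)))
      (fun x => by
        rw [← hsw, H]
        simp only [quar, eval_mul, eval_pow, eval_add, eval_C, eval_X]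
        ring) (-u)
    rw [hsw, h1]
    simp only [derivative_mul, derivative_pow, derivative_add, derivative_C, derivative_X, eval_mul, eval_add, eval_pow,
      eval_C, eval_X]
    ring

private theorem H20_tang_perp {A : Type} [CommRing A] {g h w : Fin 3 → A}
    (h1 : ∑ i, g i * w i = 0) (h2 : ∑ i, h i * w i = 0) (i j : Fin 3) : w i * cr g h j = w j * cr g h i := by
  rw [Fin.sum_univ_three] at h1 h2
  fin_cases i <;> fin_cases j
  · rfl
  · change w 0 * (g 2 * h 0 - g 0 * h 2) = w 1 * (g 1 * h 2 - g 2 * h 1)
    linear_combination g 2 * h2 - h 2 * h1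
  · change w 0 * (g 0 * h 1 - g 1 * h 0) = w 2 * (g 1 * h 2 - g 2 * h 1)
    linear_combination h 1 * h1 - g 1 * h2
  · change w 1 * (g 1 * h 2 - g 2 * h 1) = w 0 * (g 2 * h 0 - g 0 * h 2)
    linear_combination -g 2 * h2 + h 2 * h1
  · rfl
  · change w 1 * (g 0 * h 1 - g 1 * h 0) = w 2 * (g 2 * h 0 - g 0 * h 2)
    linear_combination g 0 * h2 - h 0 * h1
  · change w 2 * (g 1 * h 2 - g 2 * h 1) = w 0 * (g 0 * h 1 - g 1 * h 0)
    linear_combination -h 1 * h1 + g 1 * h2
  · change w 2 * (g 2 * h 0 - g 0 * h 2) = w 1 * (g 0 * h 1 - g 1 * h 0)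
    linear_combination -g 0 * h2 + h 0 * h1
  · rfl

theorem perp {F : Type} [Field F] {g h w : Fin 3 → F} (hgh : cr g h ≠ 0) (h1 : ∑ i, g i * w i = 0)
    (h2 : ∑ i, h i * w i = 0) : ∃ θ : F, ∀ i, w i = θ * cr g h i := by
  have h0 : ∃ j, cr g h j ≠ 0 := by
    by_contra hc
    push Not at hc
    exact hgh (funext hc)
  obtain ⟨j, hj⟩ := h0
  refine ⟨w j / cr g h j, fun i => ?_⟩
  rw [div_mul_eq_mul_div, eq_div_iff hj]
  exact H20_tang_perp h1 h2 i j

/-- the same over a domain: `w` is proportional to the cross product -/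
theorem perp_dom {A : Type} [CommRing A] [IsDomain A] {g h w : Fin 3 → A} (hgh : cr g h ≠ 0)
    (h1 : ∑ i, g i * w i = 0) (h2 : ∑ i, h i * w i = 0) (i j : Fin 3) : w i * cr g h j = w j * cr g h i :=
  H20_tang_perp h1 h2 i j

end H25.DP
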