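import Pool.Agent.H25.DP.SmF
import Pool.Agent.H25.DP.Tang
import Pool.Agent.H25.DP.LinF

/-! # DP.NoL : a smooth sextic contains no line (about 130 lines; uses `DP.SmF`, `DP.Tang`, `DP.LinF`)

`F` algebraically closed (infinite).  By `tangG` with `P = 0` (in both directions) `grad f (x g + y h)` is orthogonal to `g` and `h` for all `x, y`, so by `perp` it is a multiple of `cr g h`.  Let `i` be an index with
`cr g h i ≠ 0`: then `grad f (x g + y h) = 0` if and only if its `i`-th coordinate is zero.  `T = lin (pderiv i f) g h`, a polynomial in `X` with values `grad f (X g + h) i`.  If `T` has a root `x0`: `grad f (x0 g + h) = 0` with `x0 g + h ≠ 0` (`cr_lc`), contradiction to `sm_ext`.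
Otherwise `T` is a nonzero constant `c` (`F` algebraically closed); by homogeneity (`grad_smul`, degree 5) `grad f (g + y h) i = y ^ 5 c` for all `y ≠ 0`, and by comparison of the polynomials in `y` (`lin (pderiv i f) h g`) at `y = 0`: `grad f g i = 0`, so `grad f g = 0` with `g ≠ 0`: contradiction. -/

namespace H25.DP

variable {K0 : Type} [Field K0] [IsAlgClosed K0]

private theorem lc_comm {F : Type} [CommRing F] (x y : F) (g h : Fin 3 → F) : lc x y g h = lc y x h g := by
  funext i
  simp only [lc]
  ring

private theorem cr_comm {F : Type} [CommRing F] {g h : Fin 3 → F} (H : cr h g = 0) : cr g h = 0 := by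
  have h0 : h 1 * g 2 - h 2 * g 1 = 0 := congrFun H 0
  have h1 : h 2 * g 0 - h 0 * g 2 = 0 := congrFun H 1
  have h2 : h 0 * g 1 - h 1 * g 0 = 0 := congrFun H 2
  funext i
  fin_cases i
  · show g 1 * h 2 - g 2 * h 1 = 0
    linear_combination (-1 : F) * h0
  · show g 2 * h 0 - g 0 * h 2 = 0
    linear_combination (-1 : F) * h1
  · show g 0 * h 1 - g 1 * h 0 = 0
    linear_combination (-1 : F) * h2

theorem no_line {f : MvPolynomial (Fin 3) K0} (hf : Sm f) {F : Type} [Field F] [IsAlgClosed F] [Algebra K0 F]
    {g h : Fin 3 → F} (hgh : cr g h ≠ 0) : ∃ x y : F, ev f (lc x y g h) ≠ 0 := by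
  by_contra hcon
  push Not at hcon
  have hinf : Infinite F := IsAlgClosed.instInfinite
  have D1 : ∀ x y : F, ∑ i, g i * grad f (lc x y g h) i = 0 := by
    intro x y
    have h1 := tangG f (g := g) (h := h) (y0 := y) (P := 0) (fun x' => by
      rw [Polynomial.eval_zero]
      exact hcon x' y) x
    rwa [Polynomial.derivative_zero, Polynomial.eval_zero] at h1
  have D2 : ∀ x y : F, ∑ i, h i * grad f (lc x y g h) i = 0 := by
    intro x y
    have h1 := tangG f (g := h) (h := g) (y0 := x) (P := 0) (fun x' => by
      rw [Polynomial.eval_zero, lc_comm]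
      exact hcon x x') y
    rw [Polynomial.derivative_zero, Polynomial.eval_zero, lc_comm] at h1
    exact h1
  obtain ⟨i, hi⟩ := Function.ne_iff.1 hgh
  rw [Pi.zero_apply] at hi
  have key : ∀ x y : F, lc x y g h ≠ 0 → grad f (lc x y g h) i ≠ 0 := by
    intro x y hne h0
    obtain ⟨θ, hθ⟩ := perp hgh (D1 x y) (D2 x y)
    have h1 : θ = 0 := by
      have h2 := hθ i
      rw [h0] at h2
      exact (mul_eq_zero.1 h2.symm).resolve_right hi
    apply sm_ext hf hne
    funext j
    rw [hθ j, h1, zero_mul]
    rfl
  have hT : ∀ x : F, (lin (MvPolynomial.pderiv i f) g h).eval x = grad f (lc x 1 g h) i := fun x =>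
    lin_eval _ g h x
  have hT' : ∀ y : F, (lin (MvPolynomial.pderiv i f) h g).eval y = grad f (lc 1 y g h) i := fun y => by
    rw [lin_eval, lc_comm]
    rfl
  by_cases hdeg : (lin (MvPolynomial.pderiv i f) g h).degree = 0
  · have hc := Polynomial.eq_C_of_degree_eq_zero hdeg
    set c := (lin (MvPolynomial.pderiv i f) g h).coeff 0
    have h5 : ∀ y : F, y ≠ 0 → (lin (MvPolynomial.pderiv i f) h g).eval y = c * y ^ 5 := by
      intro y hy
      rw [hT']
      have h6 : lc 1 y g h = fun j => y * lc y⁻¹ 1 g h j := by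
        funext j
        simp only [lc]
        rw [mul_add, ← mul_assoc, mul_inv_cancel₀ hy, one_mul]
        ring
      rw [h6, grad_smul hf.hom, ← hT, hc, Polynomial.eval_C]
      ring
    have h7 : lin (MvPolynomial.pderiv i f) h g = Polynomial.C c * Polynomial.X ^ 5 := by
      refine Polynomial.eq_of_infinite_eval_eq _ _ ?_
      refine Set.Infinite.mono (s := {y : F | y ≠ 0}) ?_ ?_
      · intro y hy
        show _ = _
        rw [h5 y hy, Polynomial.eval_mul, Polynomial.eval_C, Polynomial.eval_pow, Polynomial.eval_X]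
      · have := (Set.finite_singleton (0 : F)).infinite_compl
        exact this
    have h8 := hT' 0
    rw [h7, Polynomial.eval_mul, Polynomial.eval_C, Polynomial.eval_pow, Polynomial.eval_X, zero_pow (by norm_num),
      mul_zero] at h8
    refine key 1 0 ?_ h8.symm
    intro h9
    rw [lc_comm] at h9
    exact hgh (cr_comm (cr_lc 0 h g h9))
  · obtain ⟨x0, hx0⟩ := IsAlgClosed.exists_root _ hdeg
    refine key x0 1 (fun h9 => hgh (cr_lc x0 g h h9)) ?_
    rw [← hT]
    exact hx0

end H25.DP
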