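import Pool.Agent.H25.DP.Fac
import Pool.Agent.H25.DP.NoL

/-! # DP.TrD : the base is a curve: the entries of a frame are algebraic over `K0(u)` (about 300 lines; given `fac`, `gau`, `no_line`, `sm_ext`, `tang`, `perp`)

`c = lc t (-s) d e ≠ 0` (otherwise `cr d e = grad f 0 = 0`, `grad_smul`), `f(c) = 0` (`lin_fun`).  Let `c i ≠ 0` and `u, v` the two other ratios `c j / c i`: `f` at `(1, u, v)` (in some order) is zero and the dehomogenised polynomial is nonzero (`f ≠ 0` because `Sm f`), so one of `u, v` is algebraic over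
`K0` adjoined the other; call the other one `u`.  Let `Ω` be the algebraic closure of `F` and `k1 ≤ Ω` the field of the elements algebraic over `K0(u)` (`IntermediateField`/`algebraicClosure`; every element of `Ω` algebraic over `k1` is in `k1`: `k1` is algebraically closed).  `c' = c / c i` has coordinates in `k1`.
`w = grad f c'` in `k1³`, nonzero; `d`, `e` are orthogonal to `w` (`tang`).  Choose a basis `g, h ∈ k1³` of the vectors orthogonal to `w`.  `d = x g + y h` over `Ω`; if `y ≠ 0`, `x / y` is a root of `lin f g h`, a nonzero polynomial over `k1` (`no_line` over `k1`), so `x/y ∈ k1`: replace `g` by `(x/y) g + h`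
(and `h` by `g`); if `y = 0` keep them.  So `d = k g`, `e = l g + m h` with `g, h ∈ k1³`, `k, l, m ∈ Ω`, `k, m ≠ 0`.  Apply `fac` over `Ω` with `V = ⊤` (and the frame `r.map`): `s1, s2, q_i, ρ, θ`.
`(s1, s2)`: `lc s2 (-s1) g h` is proportional to `c`, hence to `c' ∈ k1³`, and `s1 = 1` or `s2 = 1`: so `s1, s2 ∈ k1`.  `q_i ∈ k1`: `gau` (twice) for the subring `k1` and the polynomial `lin f g h`.  `θ ∈ k1`.
`(ρ/(k m))^12 ∈ k1` so `ρ/(k m) ∈ k1`; `(ρ/(k m))^5 (k m)^9 θ = 1`: `k m ∈ k1`, `ρ ∈ k1`; `m k³ q0 = ρ²`: `k² ∈ k1`, `k ∈ k1`, `m ∈ k1`, `l = - m q1/(3 q0)` (`q0 ≠ 0`), `a`, `b`, `s`, `t`, `d`, `e ∈ k1`. -/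

namespace H25.DP

open Polynomial

variable {K0 : Type} [Field K0]

private theorem trd_ev {F : Type} [Field F] [Algebra K0 F] (S : IntermediateField K0 F) {c : Fin 3 → F}
    (hc : ∀ i, c i ∈ S) (P : MvPolynomial (Fin 3) K0) : ev P c ∈ S := by
  have h1 := ev_map S.val P (fun i => (⟨c i, hc i⟩ : S))
  have h2 : (fun i => S.val (⟨c i, hc i⟩ : S)) = c := rfl
  rw [h2] at h1
  rw [← h1]
  exact (ev P (fun i => (⟨c i, hc i⟩ : S))).2

private theorem trd_lin {F : Type} [Field F] [Algebra K0 F] (S : IntermediateField K0 F) {g h : Fin 3 → F}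
    (hg : ∀ i, g i ∈ S) (hh : ∀ i, h i ∈ S) (f : MvPolynomial (Fin 3) K0) (n : ℕ) : (lin f g h).coeff n ∈ S := by
  have h1 := lin_map S.val f (fun i => (⟨g i, hg i⟩ : S)) (fun i => (⟨h i, hh i⟩ : S))
  have h2 : (fun i => S.val (⟨g i, hg i⟩ : S)) = g := rfl
  have h3 : (fun i => S.val (⟨h i, hh i⟩ : S)) = h := rfl
  rw [h2, h3] at h1
  rw [← h1, coeff_map]
  exact ((lin f (fun i => (⟨g i, hg i⟩ : S)) (fun i => (⟨h i, hh i⟩ : S))).coeff n).2

private theorem trd_nz [IsAlgClosed K0] {f : MvPolynomial (Fin 3) K0} (hf : Sm f) {F : Type} [Field F] [Algebra K0 F]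
    {g h : Fin 3 → F} (hgh : cr g h ≠ 0) : lin f g h ≠ 0 := by
  intro h0
  let φ : F →ₐ[K0] AlgebraicClosure F := IsScalarTower.toAlgHom K0 F (AlgebraicClosure F)
  have hinf : Infinite (AlgebraicClosure F) := IsAlgClosed.instInfinite
  have h1 : lin f (fun i => φ (g i)) (fun i => φ (h i)) = 0 := by
    rw [← lin_map, h0, Polynomial.map_zero]
  have h2 : cr (fun i => φ (g i)) (fun i => φ (h i)) ≠ 0 := by
    intro h3
    apply hgh
    have h4 := cr_map (φ : F →+* AlgebraicClosure F) g h
    funext i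
    have h5 := congrFun h4 i
    change φ (cr g h i) = cr (fun i => φ (g i)) (fun i => φ (h i)) i at h5
    rw [h3, Pi.zero_apply] at h5
    exact (map_eq_zero_iff φ φ.toRingHom.injective).1 h5
  obtain ⟨x, y, hxy⟩ := no_line hf h2
  generalize (fun i => φ (g i)) = G at *
  generalize (fun i => φ (h i)) = H at *
  have h3 : ∀ x : AlgebraicClosure F, ev f (lc x 1 G H) = 0 := fun x => by
    rw [← lin_eval, h1, eval_zero]
  have h4 : ∀ x y : AlgebraicClosure F, y ≠ 0 → ev f (lc x y G H) = 0 := by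
    intro x y hy
    have h5 : lc x y G H = fun i => y * lc (x / y) 1 G H i := by
      funext i
      simp only [lc]
      field_simp
    rw [h5, ev_smul hf.hom, h3, mul_zero]
  have h6 : ∀ x y : AlgebraicClosure F, (lin f H (fun i => x * G i)).eval y = ev f (lc x y G H) := by
    intro x y
    rw [lin_eval]
    congr 1
    funext i
    simp only [lc]
    ring
  have h7 : ∀ x : AlgebraicClosure F, lin f H (fun i => x * G i) = 0 := by
    intro x
    refine Polynomial.eq_of_infinite_eval_eq _ _ ?_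
    have h8 : (({0} : Set (AlgebraicClosure F))ᶜ).Infinite :=
      (Set.finite_singleton (0 : AlgebraicClosure F)).infinite_compl
    refine h8.mono fun y hy => ?_
    have hy0 : y ≠ 0 := hy
    change (lin f H (fun i => x * G i)).eval y = (0 : (AlgebraicClosure F)[X]).eval y
    rw [h6, h4 x y hy0, eval_zero]
  apply hxy
  rw [← h6, h7, eval_zero]

private theorem trd_pow {F : Type} [Field F] [Algebra K0 F] (S : IntermediateField K0 F)
    (hS : ∀ (z : F) (p : F[X]), p ≠ 0 → (∀ n, p.coeff n ∈ S) → p.eval z = 0 → z ∈ S) {z : F} {n : ℕ} (hn : 0 < n)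
    (hz : z ^ n ∈ S) : z ∈ S := by
  refine hS z (X ^ n - C (z ^ n)) (X_pow_sub_C_ne_zero hn _) ?_ (by simp)
  intro k
  rw [coeff_sub, coeff_X_pow, coeff_C]
  refine sub_mem ?_ ?_
  · split_ifs
    · exact one_mem S
    · exact zero_mem S
  · split_ifs
    · exact hz
    · exact zero_mem S

/-- a basis over `S` of the vectors orthogonal to `w` -/
private theorem trd_perp {F : Type} [Field F] [Algebra K0 F] (S : IntermediateField K0 F) {w : Fin 3 → F}
    (hw : ∀ i, w i ∈ S) (hw0 : w ≠ 0) : ∃ g h : Fin 3 → F, (∀ i, g i ∈ S) ∧ (∀ i, h i ∈ S) ∧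
      cr g h ≠ 0 ∧ ∀ v : Fin 3 → F, ∑ i, v i * w i = 0 → ∃ x y : F, ∀ i, v i = x * g i + y * h i := by
  obtain ⟨i, hi⟩ := Function.ne_iff.1 hw0
  rw [Pi.zero_apply] at hi
  have hd : ∀ j, -(w j) / w i ∈ S := fun j => div_mem (neg_mem (hw j)) (hw i)
  have h1 : (1 : F) ∈ S := one_mem S
  have h0 : (0 : F) ∈ S := zero_mem S
  fin_cases i
  · replace hi : w 0 ≠ 0 := hi
    refine ⟨![-(w 1) / w 0, 1, 0], ![-(w 2) / w 0, 0, 1], ?_, ?_, ?_, ?_⟩
    · intro i
      fin_cases i
      · exact hd 1
      · exact h1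
      · exact h0
    · intro i
      fin_cases i
      · exact hd 2
      · exact h0
      · exact h1
    · intro h
      have h2 := congrFun h 0
      simp [cr] at h2
    · intro v hv
      rw [Fin.sum_univ_three] at hv
      refine ⟨v 1, v 2, fun i => ?_⟩
      fin_cases i
      · show v 0 = v 1 * (-(w 1) / w 0) + v 2 * (-(w 2) / w 0)
        field_simp
        linear_combination hv
      · show v 1 = v 1 * 1 + v 2 * 0
        ring
      · show v 2 = v 1 * 0 + v 2 * 1
        ring
  · replace hi : w 1 ≠ 0 := hi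
    refine ⟨![1, -(w 0) / w 1, 0], ![0, -(w 2) / w 1, 1], ?_, ?_, ?_, ?_⟩
    · intro i
      fin_cases i
      · exact h1
      · exact hd 0
      · exact h0
    · intro i
      fin_cases i
      · exact h0
      · exact hd 2
      · exact h1
    · intro h
      have h2 := congrFun h 1
      simp [cr] at h2
    · intro v hv
      rw [Fin.sum_univ_three] at hv
      refine ⟨v 0, v 2, fun i => ?_⟩
      fin_cases i
      · show v 0 = v 0 * 1 + v 2 * 0
        ring
      · show v 1 = v 0 * (-(w 0) / w 1) + v 2 * (-(w 2) / w 1)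
        field_simp
        linear_combination hv
      · show v 2 = v 0 * 0 + v 2 * 1
        ring
  · replace hi : w 2 ≠ 0 := hi
    refine ⟨![1, 0, -(w 0) / w 2], ![0, 1, -(w 1) / w 2], ?_, ?_, ?_, ?_⟩
    · intro i
      fin_cases i
      · exact h1
      · exact h0
      · exact hd 0
    · intro i
      fin_cases i
      · exact h0
      · exact h1
      · exact hd 1
    · intro h
      have h2 := congrFun h 2
      simp [cr] at h2
    · intro v hv
      rw [Fin.sum_univ_three] at hv
      refine ⟨v 0, v 1, fun i => ?_⟩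
      fin_cases i
      · show v 0 = v 0 * 1 + v 1 * 0
        ring
      · show v 1 = v 0 * 0 + v 1 * 1
        ring
      · show v 2 = v 0 * (-(w 0) / w 2) + v 1 * (-(w 1) / w 2)
        field_simp
        linear_combination hv

private theorem trd_cr_lin {F : Type} [CommRing F] {d e g h : Fin 3 → F} {x y x' y' : F} (hd : ∀ i, d i = x * g i + y * h i)
    (he : ∀ i, e i = x' * g i + y' * h i) (i : Fin 3) : cr d e i = (x * y' - y * x') * cr g h i := by
  fin_cases i
  · show d 1 * e 2 - d 2 * e 1 = (x * y' - y * x') * (g 1 * h 2 - g 2 * h 1)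
    rw [hd, hd, he, he]
    ring
  · show d 2 * e 0 - d 0 * e 2 = (x * y' - y * x') * (g 2 * h 0 - g 0 * h 2)
    rw [hd, hd, he, he]
    ring
  · show d 0 * e 1 - d 1 * e 0 = (x * y' - y * x') * (g 0 * h 1 - g 1 * h 0)
    rw [hd, hd, he, he]
    ring

private theorem trd_orth {F : Type} [CommRing F] (d e : Fin 3 → F) :
    ∑ i, d i * cr d e i = 0 ∧ ∑ i, e i * cr d e i = 0 := by
  constructor
  · rw [Fin.sum_univ_three]
    show d 0 * (d 1 * e 2 - d 2 * e 1) + d 1 * (d 2 * e 0 - d 0 * e 2) + d 2 * (d 0 * e 1 - d 1 * e 0) = 0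
    ring
  · rw [Fin.sum_univ_three]
    show e 0 * (d 1 * e 2 - d 2 * e 1) + e 1 * (d 2 * e 0 - d 0 * e 2) + e 2 * (d 0 * e 1 - d 1 * e 0) = 0
    ring

private theorem trd_crS {F : Type} [Field F] [Algebra K0 F] (S : IntermediateField K0 F) {g h : Fin 3 → F}
    (hg : ∀ i, g i ∈ S) (hh : ∀ i, h i ∈ S) (i : Fin 3) : cr g h i ∈ S := by
  fin_cases i
  · exact sub_mem (mul_mem (hg 1) (hh 2)) (mul_mem (hg 2) (hh 1))
  · exact sub_mem (mul_mem (hg 2) (hh 0)) (mul_mem (hg 0) (hh 2))
  · exact sub_mem (mul_mem (hg 0) (hh 1)) (mul_mem (hg 1) (hh 0))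

/-- the basis of the line of the frame over `S` -/
private theorem trd_basis [IsAlgClosed K0] {f : MvPolynomial (Fin 3) K0} (hf : Sm f) {F : Type} [Field F]
    [Infinite F] [Algebra K0 F] (S : IntermediateField K0 F)
    (hS : ∀ (z : F) (p : F[X]), p ≠ 0 → (∀ n, p.coeff n ∈ S) → p.eval z = 0 → z ∈ S) (r : Frm f F)
    (hr : cr r.d r.e ≠ 0) {w : Fin 3 → F} (hw : ∀ i, w i ∈ S) {c : F} (hc : ∀ i, cr r.d r.e i = c * w i) :
    ∃ (g h : Fin 3 → F) (k l m : F), (∀ i, g i ∈ S) ∧ (∀ i, h i ∈ S) ∧ k ≠ 0 ∧ m ≠ 0 ∧ (∀ i, r.d i = k * g i) ∧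
      ∀ i, r.e i = l * g i + m * h i := by
  have hc0 : c ≠ 0 := by
    rintro rfl
    apply hr
    funext i
    rw [hc i, zero_mul]
    rfl
  have hw0 : w ≠ 0 := by
    intro h
    apply hr
    funext i
    rw [hc i, h, Pi.zero_apply, mul_zero]
  obtain ⟨h1, h2⟩ := trd_orth r.d r.e
  have h3 : ∑ i, r.d i * w i = 0 := by
    have h4 : c * ∑ i, r.d i * w i = 0 := by
      rw [← h1, Finset.mul_sum]
      refine Finset.sum_congr rfl fun i _ => ?_
      rw [hc i]
      ring
    exact (mul_eq_zero.1 h4).resolve_left hc0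
  have h4 : ∑ i, r.e i * w i = 0 := by
    have h4 : c * ∑ i, r.e i * w i = 0 := by
      rw [← h2, Finset.mul_sum]
      refine Finset.sum_congr rfl fun i _ => ?_
      rw [hc i]
      ring
    exact (mul_eq_zero.1 h4).resolve_left hc0
  obtain ⟨g, h, hg, hh, hgh, hsp⟩ := trd_perp S hw hw0
  obtain ⟨x, y, hxy⟩ := hsp _ h3
  obtain ⟨x', y', hxy'⟩ := hsp _ h4
  have h5 : x * y' - y * x' ≠ 0 := by
    intro h5
    apply hr
    funext i
    rw [trd_cr_lin hxy hxy' i, h5, zero_mul]
    rfl
  by_cases hy : y = 0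
  · subst hy
    have h6 : x * y' ≠ 0 := by
      intro h6
      apply h5
      rw [h6, zero_mul, sub_zero]
    refine ⟨g, h, x, x', y', hg, hh, left_ne_zero_of_mul h6, right_ne_zero_of_mul h6, fun i => ?_, hxy'⟩
    rw [hxy i]
    ring
  · have h6 : ev f r.d = 0 := by
      have h7 := lin_fun hf.hom r.line 1 0
      have h8 : lc 1 0 r.d r.e = r.d := by
        funext i
        simp [lc]
      rw [h8] at h7
      rw [h7]
      simp [quar]
    have h7 : ev f (lc (x / y) 1 g h) = 0 := by
      have h8 : r.d = fun i => y * lc (x / y) 1 g h i := by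
        funext i
        rw [hxy i]
        simp only [lc]
        field_simp
      rw [h8, ev_smul hf.hom] at h6
      exact (mul_eq_zero.1 h6).resolve_left (pow_ne_zero _ hy)
    have h8 : x / y ∈ S := by
      refine hS _ (lin f g h) (trd_nz hf hgh) (trd_lin S hg hh f) ?_
      rw [lin_eval, h7]
    refine ⟨lc (x / y) 1 g h, g, y, y', x' - y' * (x / y), fun i => ?_, hg, hy, ?_, fun i => ?_, fun i => ?_⟩
    · exact add_mem (mul_mem h8 (hg i)) (mul_mem (one_mem S) (hh i))
    · intro h9
      apply h5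
      have h10 : y * (x' - y' * (x / y)) = 0 := by rw [h9, mul_zero]
      have h11 : y * (x' - y' * (x / y)) = -(x * y' - y * x') := by
        field_simp
        ring
      rw [h11, neg_eq_zero] at h10
      exact h10
    · rw [hxy i]
      simp only [lc]
      field_simp
    · rw [hxy' i]
      simp only [lc]
      ring

private theorem trd_main [IsAlgClosed K0] [CharZero K0] {f : MvPolynomial (Fin 3) K0} (hf : Sm f) {F : Type} [Field F]
    [Infinite F] [CharZero F] [Algebra K0 F] (S : IntermediateField K0 F)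
    (hS : ∀ (z : F) (p : F[X]), p ≠ 0 → (∀ n, p.coeff n ∈ S) → p.eval z = 0 → z ∈ S) (r : Frm f F)
    (hr : cr r.d r.e ≠ 0) {c : Fin 3 → F} (hcS : ∀ i, c i ∈ S) {ν : F}
    (hc : lc r.t (-r.s) r.d r.e = fun i => ν * c i) : ∀ z ∈ r.ent, z ∈ S := by
  have hw : ∀ i, cr r.d r.e i = ν ^ 5 * grad f c i := by
    intro i
    rw [← r.grd, hc]
    exact grad_smul hf.hom ν c i
  have hwS : ∀ i, grad f c i ∈ S := fun i => trd_ev S hcS _
  obtain ⟨g, h, k, l, m, hg, hh, hk, hm, hd, he⟩ := trd_basis hf S hS r hr hwS hw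
  obtain ⟨s1, s2, q0, q1, q2, q3, ρ, θ, ⟨-, -, h12⟩, -, hρ, hev, hs, ht, e1, e2, e3, e4, e5, e6, e7⟩ :=
    fac hf (V := ⊤) (fun _ => ValuationSubring.mem_top _) r hr (fun _ => ValuationSubring.mem_top _)
      (fun _ => ValuationSubring.mem_top _) hk hm hd he
  have hcr : ∀ i, cr r.d r.e i = (k * m) * cr g h i := by
    intro i
    have h1 := trd_cr_lin (x := k) (y := 0) (x' := l) (y' := m) (d := r.d) (e := r.e) (g := g) (h := h)
      (fun i => by rw [hd i]; ring) he i
    rw [h1]
    ring
  obtain ⟨i, hi⟩ : ∃ i, cr g h i ≠ 0 := by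
    obtain ⟨i, hi⟩ := Function.ne_iff.1 hr
    refine ⟨i, fun h0 => hi ?_⟩
    rw [hcr i, h0, mul_zero]
    rfl
  have hD : cr g h i ∈ S := trd_crS S hg hh i
  -- `s1`, `s2`
  obtain ⟨lam, hlam⟩ : ∃ lam : F, ∀ j, lam * c j = s2 * g j - s1 * h j := by
    refine ⟨ν / (ρ * k * m), fun j => ?_⟩
    have h1 := congrFun hc j
    simp only [lc] at h1
    rw [hs, ht, hd j, he j] at h1
    have h2 : ρ * k * m ≠ 0 := mul_ne_zero (mul_ne_zero hρ hk) hm
    rw [div_mul_eq_mul_div, div_eq_iff h2, ← h1]
    ring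
  have hCg : lam * cr g c i = -s1 * cr g h i := by
    have h1 := trd_cr_lin (d := g) (e := fun j => lam * c j) (g := g) (h := h) (x := 1) (y := 0) (x' := s2) (y' := -s1)
      (fun i => by ring) (fun i => by rw [hlam i]; ring) i
    have h2 := trd_cr_lin (d := g) (e := fun j => lam * c j) (g := g) (h := c) (x := 1) (y := 0) (x' := 0) (y' := lam)
      (fun i => by ring) (fun i => by ring) i
    rw [h1] at h2
    linear_combination -h2
  have hCh : lam * cr h c i = -s2 * cr g h i := by
    have h1 := trd_cr_lin (d := h) (e := fun j => lam * c j) (g := g) (h := h) (x := 0) (y := 1) (x' := s2) (y' := -s1)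
      (fun i => by ring) (fun i => by rw [hlam i]; ring) i
    have h2 := trd_cr_lin (d := h) (e := fun j => lam * c j) (g := h) (h := c) (x := 1) (y := 0) (x' := 0) (y' := lam)
      (fun i => by ring) (fun i => by ring) i
    rw [h1] at h2
    linear_combination -h2
  have hCgS : cr g c i ∈ S := trd_crS S hg hcS i
  have hChS : cr h c i ∈ S := trd_crS S hh hcS i
  have hlamS : lam ∈ S := by
    rcases h12 with h1 | h1
    · rw [h1] at hCg
      have h2 : cr g c i ≠ 0 := by
        intro h3
        rw [h3, mul_zero] at hCg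
        apply hi
        linear_combination hCg
      have h3 : lam = -(cr g h i) / cr g c i := by
        rw [eq_div_iff h2, hCg]
        ring
      rw [h3]
      exact div_mem (neg_mem hD) hCgS
    · rw [h1] at hCh
      have h2 : cr h c i ≠ 0 := by
        intro h3
        rw [h3, mul_zero] at hCh
        apply hi
        linear_combination hCh
      have h3 : lam = -(cr g h i) / cr h c i := by
        rw [eq_div_iff h2, hCh]
        ring
      rw [h3]
      exact div_mem (neg_mem hD) hChS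
  have hs1 : s1 ∈ S := by
    have h3 : s1 = -(lam * cr g c i) / cr g h i := by
      rw [eq_div_iff hi, hCg]
      ring
    rw [h3]
    exact div_mem (neg_mem (mul_mem hlamS hCgS)) hD
  have hs2 : s2 ∈ S := by
    have h3 : s2 = -(lam * cr h c i) / cr g h i := by
      rw [eq_div_iff hi, hCh]
      ring
    rw [h3]
    exact div_mem (neg_mem (mul_mem hlamS hChS)) hD
  -- `q_i`
  have hq : ∀ n, (C q0 * X ^ 3 + C q1 * X ^ 2 + C q2 * X + C q3 : F[X]).coeff n ∈ S := by
    have h1 : lin f g h = (C s1 * X + C s2) * ((C s1 * X + C s2) *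
        (C q0 * X ^ 3 + C q1 * X ^ 2 + C q2 * X + C q3)) := by
      refine Polynomial.funext fun x => ?_
      rw [lin_eval, hev]
      simp only [eval_mul, eval_add, eval_pow, eval_C, eval_X, quar]
      ring
    have h2 : ∀ n, ((C s1 * X + C s2) * ((C s1 * X + C s2) *
        (C q0 * X ^ 3 + C q1 * X ^ 2 + C q2 * X + C q3)) : F[X]).coeff n ∈ S.toSubfield.toSubring := fun n => by
      rw [← h1]
      exact trd_lin S hg hh f n
    exact gau (V := S.toSubfield.toSubring) hs1 hs2 h12 (gau (V := S.toSubfield.toSubring) hs1 hs2 h12 h2)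
  have hq0 : q0 ∈ S := by
    have h1 := hq 3
    simpa [coeff_X, coeff_C, coeff_X_pow] using h1
  have hq1 : q1 ∈ S := by
    have h1 := hq 2
    simpa [coeff_X, coeff_C, coeff_X_pow] using h1
  have hq2 : q2 ∈ S := by
    have h1 := hq 1
    simpa [coeff_X, coeff_C, coeff_X_pow] using h1
  have hq3 : q3 ∈ S := by
    have h1 := hq 0
    simpa [coeff_X, coeff_C, coeff_X_pow] using h1
  -- `θ`
  have hθ : θ ∈ S := by
    have h1 : θ = grad f (lc s2 (-s1) g h) i / cr g h i := by
      rw [eq_div_iff hi, e6 i]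
    rw [h1]
    refine div_mem (trd_ev S (fun j => ?_) _) hD
    exact add_mem (mul_mem hs2 (hg j)) (mul_mem (neg_mem hs1) (hh j))
  -- `ρ / (k m)`
  have hkm : k * m ≠ 0 := mul_ne_zero hk hm
  have hR : ρ / (k * m) ∈ S := by
    refine trd_pow S hS (n := 12) (by norm_num) ?_
    have h1 : (ρ / (k * m)) ^ 12 = -(q0 ^ 2 * dis q0 q1 q2 q3) / 108 := by
      rw [div_pow, div_eq_div_iff (pow_ne_zero _ hkm) (by norm_num)]
      have h2 : (k * m) ^ 12 = (m * k) ^ 12 := by rw [mul_comm]
      rw [h2]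
      linear_combination e5
    rw [h1]
    refine div_mem (neg_mem (mul_mem (pow_mem hq0 2) ?_)) (ofNat_mem S 108)
    unfold dis
    refine add_mem (sub_mem (sub_mem (sub_mem ?_ ?_) ?_) ?_) ?_
    · exact mul_mem (pow_mem hq1 2) (pow_mem hq2 2)
    · exact mul_mem (mul_mem (ofNat_mem S 4) hq0) (pow_mem hq2 3)
    · exact mul_mem (mul_mem (ofNat_mem S 4) (pow_mem hq1 3)) hq3
    · exact mul_mem (mul_mem (ofNat_mem S 27) (pow_mem hq0 2)) (pow_mem hq3 2)
    · exact mul_mem (mul_mem (mul_mem (mul_mem (ofNat_mem S 18) hq0) hq1) hq2) hq3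
  have hR0 : ρ / (k * m) ≠ 0 := div_ne_zero hρ hkm
  have hθ0 : θ ≠ 0 := by
    rintro rfl
    rw [mul_zero] at e7
    exact zero_ne_one e7
  have hkmS : k * m ∈ S := by
    refine trd_pow S hS (n := 9) (by norm_num) ?_
    have h1 : (k * m) ^ 9 = 1 / ((ρ / (k * m)) ^ 5 * θ) := by
      rw [eq_div_iff (mul_ne_zero (pow_ne_zero _ hR0) hθ0), div_pow]
      rw [← e7]
      field_simp
    rw [h1]
    exact div_mem (one_mem S) (mul_mem (pow_mem hR 5) hθ)
  have hρS : ρ ∈ S := by
    have h1 : ρ = ρ / (k * m) * (k * m) := by rw [div_mul_cancel₀ _ hkm]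
    rw [h1]
    exact mul_mem hR hkmS
  have hq00 : q0 ≠ 0 := by
    rintro rfl
    rw [mul_zero] at e1
    exact pow_ne_zero 2 hρ e1.symm
  have hkS : k ∈ S := by
    refine trd_pow S hS (n := 2) (by norm_num) ?_
    have h1 : k ^ 2 = ρ ^ 2 / (k * m * q0) := by
      rw [eq_div_iff (mul_ne_zero hkm hq00), ← e1]
      ring
    rw [h1]
    exact div_mem (pow_mem hρS 2) (mul_mem hkmS hq0)
  have hmS : m ∈ S := by
    have h1 : m = k * m / k := by field_simp
    rw [h1]
    exact div_mem hkmS hkS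
  have hlS : l ∈ S := by
    have h1 : l = -(m * q1) / (3 * q0) := by
      rw [eq_div_iff (mul_ne_zero (by norm_num) hq00), e2]
      ring
    rw [h1]
    exact div_mem (neg_mem (mul_mem hmS hq1)) (mul_mem (ofNat_mem S 3) hq0)
  have haS : r.a ∈ S := by
    have h1 : r.a = m * (3 * q0 * k * l ^ 2 + 2 * q1 * k * l * m + q2 * k * m ^ 2) / (-3 * ρ ^ 2) := by
      rw [eq_div_iff (mul_ne_zero (by norm_num) (pow_ne_zero 2 hρ)), e3]
      ring
    rw [h1]
    refine div_mem (mul_mem hmS (add_mem (add_mem ?_ ?_) ?_)) (mul_mem (neg_mem (ofNat_mem S 3)) (pow_mem hρS 2))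
    · exact mul_mem (mul_mem (mul_mem (ofNat_mem S 3) hq0) hkS) (pow_mem hlS 2)
    · exact mul_mem (mul_mem (mul_mem (mul_mem (ofNat_mem S 2) hq1) hkS) hlS) hmS
    · exact mul_mem (mul_mem hq2 hkS) (pow_mem hmS 2)
  have hbS : r.b ∈ S := by
    have h1 : r.b = m * (q0 * l ^ 3 + q1 * l ^ 2 * m + q2 * l * m ^ 2 + q3 * m ^ 3) / (-2 * ρ ^ 2) := by
      rw [eq_div_iff (mul_ne_zero (by norm_num) (pow_ne_zero 2 hρ)), e4]
      ring
    rw [h1]
    refine div_mem (mul_mem hmS (add_mem (add_mem (add_mem ?_ ?_) ?_) ?_))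
      (mul_mem (neg_mem (ofNat_mem S 2)) (pow_mem hρS 2))
    · exact mul_mem hq0 (pow_mem hlS 3)
    · exact mul_mem (mul_mem hq1 (pow_mem hlS 2)) hmS
    · exact mul_mem (mul_mem hq2 hlS) (pow_mem hmS 2)
    · exact mul_mem hq3 (pow_mem hmS 3)
  have hsS : r.s ∈ S := by
    rw [hs]
    exact mul_mem (mul_mem hρS hs1) hkS
  have htS : r.t ∈ S := by
    rw [ht]
    exact mul_mem hρS (add_mem (mul_mem hs1 hlS) (mul_mem hs2 hmS))
  rintro z ((⟨j, rfl⟩ | ⟨j, rfl⟩) | hz)
  · rw [hd j]
    exact mul_mem hkS (hg j)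
  · rw [he j]
    exact add_mem (mul_mem hlS (hg j)) (mul_mem hmS (hh j))
  · rcases hz with rfl | rfl | rfl | rfl
    · exact hsS
    · exact htS
    · exact haS
    · exact hbS

theorem trd {K0 : Type} [Field K0] [IsAlgClosed K0] [CharZero K0] {f : MvPolynomial (Fin 3) K0} (hf : Sm f) {F : Type}
    [Field F] [Algebra K0 F] (r : Frm f F) (hr : cr r.d r.e ≠ 0) :
    ∃ u : F, ∀ w ∈ r.ent, IsAlgebraic (IntermediateField.adjoin K0 ({u} : Set F)) w := by
  have hinf0 : Infinite K0 := IsAlgClosed.instInfinite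
  have hinf : Infinite F := Infinite.of_injective _ (algebraMap K0 F).injective
  have hch : CharZero F := charZero_of_injective_algebraMap (algebraMap K0 F).injective
  set c : Fin 3 → F := lc r.t (-r.s) r.d r.e with hcdef
  have hc0 : c ≠ 0 := by
    intro h0
    apply hr
    rw [← r.grd, ← hcdef, h0]
    funext i
    have h1 := grad_smul hf.hom (n := 5) (0 : F) (0 : Fin 3 → F) i
    have h2 : (fun j => (0 : F) * (0 : Fin 3 → F) j) = 0 := by
      funext j
      simp
    rw [h2, zero_pow (by norm_num), zero_mul] at h1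
    exact h1
  have hfc : ev f c = 0 := by
    rw [hcdef, lin_fun hf.hom r.line]
    have h1 : r.s * r.t + r.t * (-r.s) = 0 := by ring
    rw [h1]
    simp
  -- the ratios
  obtain ⟨c', ν, u, v, g, h, hν, hcc, hgh, hev, hcu⟩ : ∃ (c' : Fin 3 → F) (ν u v : F) (g h : Fin 3 → F), ν ≠ 0 ∧
      c = (fun i => ν * c' i) ∧ cr g h ≠ 0 ∧ lc v 1 g h = c' ∧
      ∀ S : IntermediateField K0 F, u ∈ S → (∀ i, g i ∈ S) ∧ (∀ i, h i ∈ S) := by
    obtain ⟨i, hi⟩ := Function.ne_iff.1 hc0
    rw [Pi.zero_apply] at hi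
    fin_cases i
    · replace hi : c 0 ≠ 0 := hi
      refine ⟨fun j => c j / c 0, c 0, c 1 / c 0, c 2 / c 0, ![0, 0, 1], ![1, c 1 / c 0, 0], hi, ?_, ?_, ?_, ?_⟩
      · funext j
        field_simp
      · intro h
        have h2 := congrFun h 1
        simp [cr] at h2
      · funext j
        fin_cases j
        · show c 2 / c 0 * 0 + 1 * 1 = c 0 / c 0
          rw [div_self hi]
          ring
        · show c 2 / c 0 * 0 + 1 * (c 1 / c 0) = c 1 / c 0
          ring
        · show c 2 / c 0 * 1 + 1 * 0 = c 2 / c 0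
          ring
      · intro S hu
        constructor
        · intro j
          fin_cases j
          · exact zero_mem S
          · exact zero_mem S
          · exact one_mem S
        · intro j
          fin_cases j
          · exact one_mem S
          · exact hu
          · exact zero_mem S
    · replace hi : c 1 ≠ 0 := hi
      refine ⟨fun j => c j / c 1, c 1, c 0 / c 1, c 2 / c 1, ![0, 0, 1], ![c 0 / c 1, 1, 0], hi, ?_, ?_, ?_, ?_⟩
      · funext j
        field_simp
      · intro h
        have h2 := congrFun h 0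
        simp [cr] at h2
      · funext j
        fin_cases j
        · show c 2 / c 1 * 0 + 1 * (c 0 / c 1) = c 0 / c 1
          ring
        · show c 2 / c 1 * 0 + 1 * 1 = c 1 / c 1
          rw [div_self hi]
          ring
        · show c 2 / c 1 * 1 + 1 * 0 = c 2 / c 1
          ring
      · intro S hu
        constructor
        · intro j
          fin_cases j
          · exact zero_mem S
          · exact zero_mem S
          · exact one_mem S
        · intro j
          fin_cases j
          · exact hu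
          · exact one_mem S
          · exact zero_mem S
    · replace hi : c 2 ≠ 0 := hi
      refine ⟨fun j => c j / c 2, c 2, c 0 / c 2, c 1 / c 2, ![0, 1, 0], ![c 0 / c 2, 0, 1], hi, ?_, ?_, ?_, ?_⟩
      · funext j
        field_simp
      · intro h
        have h2 := congrFun h 0
        simp [cr] at h2
      · funext j
        fin_cases j
        · show c 1 / c 2 * 0 + 1 * (c 0 / c 2) = c 0 / c 2
          ring
        · show c 1 / c 2 * 1 + 1 * 0 = c 1 / c 2
          ring
        · show c 1 / c 2 * 0 + 1 * 1 = c 2 / c 2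
          rw [div_self hi]
          ring
      · intro S hu
        constructor
        · intro j
          fin_cases j
          · exact zero_mem S
          · exact one_mem S
          · exact zero_mem S
        · intro j
          fin_cases j
          · exact hu
          · exact zero_mem S
          · exact one_mem S
  refine ⟨u, ?_⟩
  obtain ⟨S, hSu, hS, hSalg⟩ : ∃ S : IntermediateField K0 F, u ∈ S ∧
      (∀ (z : F) (p : F[X]), p ≠ 0 → (∀ n, p.coeff n ∈ S) → p.eval z = 0 → z ∈ S) ∧
      ∀ z ∈ S, IsAlgebraic (IntermediateField.adjoin K0 ({u} : Set F)) z := by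
    refine ⟨(algebraicClosure (IntermediateField.adjoin K0 ({u} : Set F)) F).restrictScalars K0, ?_, ?_, ?_⟩
    · rw [IntermediateField.mem_restrictScalars, mem_algebraicClosure_iff]
      exact isAlgebraic_algebraMap (⟨u, IntermediateField.mem_adjoin_simple_self K0 u⟩ :
        IntermediateField.adjoin K0 ({u} : Set F))
    · intro z p hp hpS hpz
      rw [IntermediateField.mem_restrictScalars, mem_algebraicClosure_iff]
      have h1 : IsAlgebraic (algebraicClosure (IntermediateField.adjoin K0 ({u} : Set F)) F) z := by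
        have h2 : p ∈ Polynomial.lifts (algebraMap (algebraicClosure (IntermediateField.adjoin K0 ({u} : Set F)) F) F) := by
          rw [Polynomial.lifts_iff_coeff_lifts]
          intro n
          exact ⟨⟨p.coeff n, hpS n⟩, rfl⟩
        obtain ⟨q, hq⟩ := (Polynomial.mem_lifts p).1 h2
        refine ⟨q, ?_, ?_⟩
        · rintro rfl
          rw [Polynomial.map_zero] at hq
          exact hp hq.symm
        · rw [← hq, eval_map_algebraMap] at hpz
          exact hpz
      exact IsAlgebraic.restrictScalars _ h1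
    · intro z hz
      rw [IntermediateField.mem_restrictScalars, mem_algebraicClosure_iff] at hz
      exact hz
  obtain ⟨hgS, hhS⟩ := hcu S hSu
  have hv : v ∈ S := by
    refine hS v (lin f g h) (trd_nz hf hgh) (trd_lin S hgS hhS f) ?_
    rw [lin_eval, hev]
    rw [hcc, ev_smul hf.hom] at hfc
    exact (mul_eq_zero.1 hfc).resolve_left (pow_ne_zero _ hν)
  have hc'S : ∀ i, c' i ∈ S := by
    intro i
    rw [← hev]
    exact add_mem (mul_mem hv (hgS i)) (mul_mem (one_mem S) (hhS i))
  intro z hz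
  exact hSalg z (trd_main hf S hS r hr hc'S hcc z hz)

end H25.DP
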