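import Pool.Agent.H25.DP.KrH
import Pool.Agent.H25.DP.TrD
import Pool.Agent.H25.DP.NN

/-! # DP.Cmp : the components of the base (about 250 lines; given `not_max`, `trd`, `nn`, `lin_fun`, `tang`, `perp_dom`)

`R = MvPolynomial (Fin 10) K0`, the universal entries: `d = (X 0, X 1, X 2)`, `e = (X 3, X 4, X 5)`, `s = X 6`, `t = X 7`, `a = X 8`, `b = X 9`; `G = lin f d e - (C s * X + C t)^2 (X^3 - C (3 a) X - C (2 b)) ∈ R[X]`, of degree at most 6.  For `i : Fin 3` let `I_i` be the ideal generated by the nine elements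
`G.coeff 0, ..., G.coeff 6`, `b^2 - a^3 - 1`, `grad f (lc t (-s) d e) i - cr d e i`.  The family: all pairs (`i`, minimal prime `p` over `I_i` with `cr d e i ∉ p`) (finitely many, `Ideal.finite_minimalPrimes_of_isNoetherianRing`).
The frame over `R ⧸ p`: `line` and `disc` hold because the generators are in `p` (`lin_map`); `grd`: over the fraction field `lin_fun`, `tang` give that `w = grad f (lc t (-s) d e)` is orthogonal to `d` and `e`; `perp_dom`: `w j * cr i = w i * cr j = cr i * cr j`, so `w j = cr j`.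
`p` is not maximal (`not_max`, `n = 9`), so `R ⧸ p` is not a field; `trd` over the fraction field; all elements of `R ⧸ p` are algebraic over `K0(u)` because the entries generate; `nn`.
Covering: a frame `r'` over `K` with `cr ≠ 0` gives `ψ : R →ₐ[K0] K`; choose `i` with `cr r'.d r'.e i ≠ 0`; `ker ψ` is prime and contains `I_i`, so a minimal prime `p` over `I_i` (`Ideal.exists_minimalPrimes_le`); `cr d e i ∉ ker ψ`, so `∉ p`; `φ = Ideal.Quotient.liftₐ p ψ`. -/

namespace H25.DP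

open Polynomial

section univ

variable {K0 : Type} [Field K0]

/-- the universal entries -/
private noncomputable def ud : Fin 3 → MvPolynomial (Fin 10) K0 := ![MvPolynomial.X 0, MvPolynomial.X 1, MvPolynomial.X 2]

private noncomputable def ue : Fin 3 → MvPolynomial (Fin 10) K0 := ![MvPolynomial.X 3, MvPolynomial.X 4, MvPolynomial.X 5]

private noncomputable def uG (f : MvPolynomial (Fin 3) K0) : (MvPolynomial (Fin 10) K0)[X] :=
  lin f ud ue - (C (MvPolynomial.X 6) * X + C (MvPolynomial.X 7)) ^ 2 *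
    (X ^ 3 - C (3 * MvPolynomial.X 8) * X - C (2 * MvPolynomial.X 9))

/-- the nine equations -/
private noncomputable def gens (f : MvPolynomial (Fin 3) K0) (i : Fin 3) : Fin 9 → MvPolynomial (Fin 10) K0 :=
  fun k => if (k : ℕ) < 7 then (uG f).coeff k else
    if (k : ℕ) = 7 then MvPolynomial.X 9 ^ 2 - MvPolynomial.X 8 ^ 3 - 1 else
      grad f (lc (MvPolynomial.X 7) (-(MvPolynomial.X 6)) ud ue) i - cr ud ue i

private theorem lin_natDegree {f : MvPolynomial (Fin 3) K0} (hf : f.totalDegree ≤ 6) {F : Type} [CommRing F] [Algebra K0 F]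
    (d e : Fin 3 → F) : (lin f d e).natDegree ≤ 6 := by
  unfold lin
  rw [MvPolynomial.aeval_def, MvPolynomial.eval₂]
  apply (natDegree_sum_le _ _).trans
  apply Finset.sup_le
  intro m hm
  rw [Function.comp_apply]
  refine natDegree_mul_le.trans ?_
  rw [IsScalarTower.algebraMap_apply K0 F F[X], ← C_eq_algebraMap, natDegree_C, zero_add]
  refine (natDegree_prod_le _ _).trans ?_
  have h1 : ∑ i ∈ m.support, m i ≤ 6 := by
    refine le_trans ?_ hf
    rw [MvPolynomial.totalDegree]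
    exact Finset.le_sup_of_le hm le_rfl
  refine le_trans (Finset.sum_le_sum fun i _ => ?_) h1
  refine natDegree_pow_le.trans ?_
  have h2 : (C (d i) * X + C (e i)).natDegree ≤ 1 := natDegree_linear_le
  calc m i * (C (d i) * X + C (e i)).natDegree ≤ m i * 1 := Nat.mul_le_mul_left _ h2
    _ = m i := mul_one _

private theorem uG_coeff {f : MvPolynomial (Fin 3) K0} (hf : f.totalDegree ≤ 6) {k : ℕ} (hk : 6 < k) : (uG f).coeff k = 0 := by
  apply coeff_eq_zero_of_natDegree_lt
  refine lt_of_le_of_lt ?_ hk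
  unfold uG
  refine (natDegree_sub_le _ _).trans (max_le (lin_natDegree hf _ _) ?_)
  have h1 : ((C (MvPolynomial.X 6) * X + C (MvPolynomial.X 7)) ^ 2 *
    (X ^ 3 - C (3 * MvPolynomial.X 8) * X - C (2 * MvPolynomial.X 9)) : (MvPolynomial (Fin 10) K0)[X]).natDegree ≤ 5 := by
    compute_degree
  omega

/-- the entries of the frame are the images of the universal entries -/
private structure IsEnt {f : MvPolynomial (Fin 3) K0} {A : Type} [CommRing A] [Algebra K0 A] (r : Frm f A)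
    (Q : MvPolynomial (Fin 10) K0 →ₐ[K0] A) : Prop where
  d : ∀ j, r.d j = Q (ud j)
  e : ∀ j, r.e j = Q (ue j)
  s : r.s = Q (MvPolynomial.X 6)
  t : r.t = Q (MvPolynomial.X 7)
  a : r.a = Q (MvPolynomial.X 8)
  b : r.b = Q (MvPolynomial.X 9)

private theorem uG_map (f : MvPolynomial (Fin 3) K0) {A : Type} [CommRing A] [Algebra K0 A]
    (Q : MvPolynomial (Fin 10) K0 →ₐ[K0] A) : (uG f).map (Q : MvPolynomial (Fin 10) K0 →+* A) =
      lin f (fun i => Q (ud i)) (fun i => Q (ue i)) - (C (Q (MvPolynomial.X 6)) * X + C (Q (MvPolynomial.X 7))) ^ 2 *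
        (X ^ 3 - C (3 * Q (MvPolynomial.X 8)) * X - C (2 * Q (MvPolynomial.X 9))) := by
  unfold uG
  rw [Polynomial.map_sub, lin_map]
  simp only [Polynomial.map_sub, Polynomial.map_mul, Polynomial.map_add, Polynomial.map_pow, Polynomial.map_C,
    Polynomial.map_X, RingHom.coe_coe, map_mul, map_ofNat, Polynomial.map_ofNat]

private theorem grad_Q (f : MvPolynomial (Fin 3) K0) {A : Type} [CommRing A] [Algebra K0 A]
    (Q : MvPolynomial (Fin 10) K0 →ₐ[K0] A) (i : Fin 3) :
    Q (grad f (lc (MvPolynomial.X 7) (-(MvPolynomial.X 6)) ud ue) i) =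
      grad f (lc (Q (MvPolynomial.X 7)) (-(Q (MvPolynomial.X 6))) (fun i => Q (ud i)) (fun i => Q (ue i))) i := by
  have h := congrFun (grad_map Q f (lc (MvPolynomial.X 7) (-(MvPolynomial.X 6)) ud ue)) i
  refine h.trans ?_
  congr 1
  funext j
  simp only [lc, map_add, map_mul, map_neg]

private theorem cr_Q {A : Type} [CommRing A] [Algebra K0 A] (Q : MvPolynomial (Fin 10) K0 →ₐ[K0] A) (i : Fin 3) :
    Q (cr ud ue i) = cr (fun i => Q (ud i)) (fun i => Q (ue i)) i :=
  congrFun (cr_map (Q : MvPolynomial (Fin 10) K0 →+* A) ud ue) i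

/-- the frame over a domain in which the nine equations hold -/
private theorem mkfrm [CharZero K0] {f : MvPolynomial (Fin 3) K0} (hf : Sm f) {A : Type} [CommRing A] [IsDomain A] [Algebra K0 A]
    (Q : MvPolynomial (Fin 10) K0 →ₐ[K0] A) {i : Fin 3} (hG : ∀ k, Q (gens f i k) = 0) (hc : Q (cr ud ue i) ≠ 0) :
    ∃ r : Frm f A, IsEnt r Q := by
  have hline : lin f (fun i => Q (ud i)) (fun i => Q (ue i)) = (C (Q (MvPolynomial.X 6)) * X + C (Q (MvPolynomial.X 7))) ^ 2 *
        (X ^ 3 - C (3 * Q (MvPolynomial.X 8)) * X - C (2 * Q (MvPolynomial.X 9))) := by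
    rw [← sub_eq_zero, ← uG_map]
    ext k
    rw [coeff_map, coeff_zero]
    by_cases hk : k < 7
    · have h1 := hG ⟨k, by omega⟩
      unfold gens at h1
      rw [if_pos hk] at h1
      exact h1
    · rw [uG_coeff hf.hom.totalDegree_le (by omega), map_zero]
  have hdisc : Q (MvPolynomial.X 9) ^ 2 - Q (MvPolynomial.X 8) ^ 3 = 1 := by
    have h1 := hG ⟨7, by omega⟩
    unfold gens at h1
    rw [if_neg (by simp), if_pos rfl, map_sub, map_sub, map_pow, map_pow, map_one] at h1
    exact sub_eq_zero.1 h1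
  have hgi : grad f (lc (Q (MvPolynomial.X 7)) (-(Q (MvPolynomial.X 6))) (fun i => Q (ud i)) (fun i => Q (ue i))) i =
      cr (fun i => Q (ud i)) (fun i => Q (ue i)) i := by
    have h1 := hG ⟨8, by omega⟩
    unfold gens at h1
    rw [if_neg (by simp), if_neg (by simp), map_sub, grad_Q, cr_Q] at h1
    exact sub_eq_zero.1 h1
  rw [cr_Q] at hc
  have hcr : cr (fun i => Q (ud i)) (fun i => Q (ue i)) ≠ 0 := fun h => hc (by rw [h]; rfl)
  -- orthogonality over the fraction field
  let φ : A →ₐ[K0] FractionRing A := IsScalarTower.toAlgHom K0 A (FractionRing A)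
  have hφ : Function.Injective φ := IsFractionRing.injective A (FractionRing A)
  have hinf : Infinite (FractionRing A) := Infinite.of_injective _ (algebraMap K0 (FractionRing A)).injective
  have hlineF := congrArg (Polynomial.map (φ : A →+* FractionRing A)) hline
  rw [lin_map] at hlineF
  simp only [Polynomial.map_sub, Polynomial.map_mul, Polynomial.map_add, Polynomial.map_pow, Polynomial.map_C,
    Polynomial.map_X, RingHom.coe_coe, map_mul, map_ofNat, Polynomial.map_ofNat] at hlineF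
  have hlf := lin_fun hf.hom (s := φ (Q (MvPolynomial.X 6))) (t := φ (Q (MvPolynomial.X 7)))
    (a := φ (Q (MvPolynomial.X 8))) (b := φ (Q (MvPolynomial.X 9))) (by rw [hlineF]; simp only [map_mul, map_ofNat])
  obtain ⟨t1, t2⟩ := tang hlf
  have hgF : ∀ j, grad f (lc (φ (Q (MvPolynomial.X 7))) (-(φ (Q (MvPolynomial.X 6)))) (fun i => φ (Q (ud i))) (fun i => φ (Q (ue i)))) j =
      φ (grad f (lc (Q (MvPolynomial.X 7)) (-(Q (MvPolynomial.X 6))) (fun i => Q (ud i)) (fun i => Q (ue i))) j) := by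
    intro j
    have h := congrFun (grad_map φ f (lc (Q (MvPolynomial.X 7)) (-(Q (MvPolynomial.X 6))) (fun i => Q (ud i)) (fun i => Q (ue i)))) j
    refine Eq.trans ?_ h.symm
    congr 1
    funext l
    simp only [lc, map_add, map_mul, map_neg]
  have u1 : ∑ j, Q (ud j) * grad f (lc (Q (MvPolynomial.X 7)) (-(Q (MvPolynomial.X 6))) (fun i => Q (ud i)) (fun i => Q (ue i))) j = 0 := by
    apply hφ
    rw [map_zero, map_sum, ← t1]
    refine Finset.sum_congr rfl fun j _ => ?_
    rw [map_mul, hgF]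
  have u2 : ∑ j, Q (ue j) * grad f (lc (Q (MvPolynomial.X 7)) (-(Q (MvPolynomial.X 6))) (fun i => Q (ud i)) (fun i => Q (ue i))) j = 0 := by
    apply hφ
    rw [map_zero, map_sum, ← t2]
    refine Finset.sum_congr rfl fun j _ => ?_
    rw [map_mul, hgF]
  have hgrd : grad f (lc (Q (MvPolynomial.X 7)) (-(Q (MvPolynomial.X 6))) (fun i => Q (ud i)) (fun i => Q (ue i))) =
      cr (fun i => Q (ud i)) (fun i => Q (ue i)) := by
    funext j
    have h1 := perp_dom hcr u1 u2 i j
    rw [hgi, mul_comm] at h1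
    exact (mul_right_cancel₀ hc h1).symm
  exact ⟨⟨fun i => Q (ud i), fun i => Q (ue i), Q (MvPolynomial.X 6), Q (MvPolynomial.X 7), Q (MvPolynomial.X 8),
    Q (MvPolynomial.X 9), hline, hdisc, hgrd⟩, ⟨fun _ => rfl, fun _ => rfl, rfl, rfl, rfl, rfl⟩⟩

private theorem ent_mem {f : MvPolynomial (Fin 3) K0} {A : Type} [CommRing A] [Algebra K0 A] {r : Frm f A}
    {Q : MvPolynomial (Fin 10) K0 →ₐ[K0] A} (h : IsEnt r Q) (k : Fin 10) : Q (MvPolynomial.X k) ∈ r.ent := by
  unfold Frm.ent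
  fin_cases k
  · exact Or.inl (Or.inl ⟨0, h.d 0⟩)
  · exact Or.inl (Or.inl ⟨1, h.d 1⟩)
  · exact Or.inl (Or.inl ⟨2, h.d 2⟩)
  · exact Or.inl (Or.inr ⟨0, h.e 0⟩)
  · exact Or.inl (Or.inr ⟨1, h.e 1⟩)
  · exact Or.inl (Or.inr ⟨2, h.e 2⟩)
  · exact Or.inr (Or.inl h.s.symm)
  · exact Or.inr (Or.inr (Or.inl h.t.symm))
  · exact Or.inr (Or.inr (Or.inr (Or.inl h.a.symm)))
  · exact Or.inr (Or.inr (Or.inr (Or.inr h.b.symm)))

private theorem gen_mem {f : MvPolynomial (Fin 3) K0} {A : Type} [CommRing A] [Algebra K0 A] {r : Frm f A}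
    {Q : MvPolynomial (Fin 10) K0 →ₐ[K0] A} (h : IsEnt r Q) (hQ : Function.Surjective Q) (x : A) :
    x ∈ Algebra.adjoin K0 r.ent := by
  obtain ⟨y, rfl⟩ := hQ x
  have h1 : y ∈ Algebra.adjoin K0 (Set.range (MvPolynomial.X : Fin 10 → MvPolynomial (Fin 10) K0)) := by
    rw [MvPolynomial.adjoin_range_X]
    trivial
  have h2 : Algebra.adjoin K0 (Set.range (MvPolynomial.X : Fin 10 → MvPolynomial (Fin 10) K0)) ≤
      (Algebra.adjoin K0 r.ent).comap Q := by
    rw [Algebra.adjoin_le_iff]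
    rintro _ ⟨k, rfl⟩
    exact Algebra.subset_adjoin (ent_mem h k)
  exact h2 h1

private theorem one_comp [IsAlgClosed K0] [CharZero K0] {f : MvPolynomial (Fin 3) K0} (hf : Sm f)
    {p : Ideal (MvPolynomial (Fin 10) K0)} {i : Fin 3} (hp : p ∈ (Ideal.span (Set.range (gens f i))).minimalPrimes)
    (hc : cr ud ue i ∉ p) : ∃ r : Frm f (MvPolynomial (Fin 10) K0 ⧸ p), IsEnt r (Ideal.Quotient.mkₐ K0 p) ∧
      cr r.d r.e ≠ 0 ∧ (∀ x : MvPolynomial (Fin 10) K0 ⧸ p, x ∈ Algebra.adjoin K0 r.ent) ∧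
      ∃ T : MvPolynomial (Fin 10) K0 ⧸ p, Transcendental K0 T ∧
        ∀ x : MvPolynomial (Fin 10) K0 ⧸ p, IsIntegral (Algebra.adjoin K0 ({T} : Set (MvPolynomial (Fin 10) K0 ⧸ p))) x := by
  have hpp : p.IsPrime := hp.1.1
  have hle : Ideal.span (Set.range (gens f i)) ≤ p := hp.1.2
  have hdom : IsDomain (MvPolynomial (Fin 10) K0 ⧸ p) := Ideal.Quotient.isDomain p
  have hQ : ∀ y, Ideal.Quotient.mkₐ K0 p y = 0 ↔ y ∈ p := fun y => Ideal.Quotient.eq_zero_iff_mem
  obtain ⟨r, hr⟩ := mkfrm hf (Ideal.Quotient.mkₐ K0 p) (i := i)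
    (fun k => (hQ _).2 (hle (Ideal.subset_span ⟨k, rfl⟩))) (fun h => hc ((hQ _).1 h))
  have hrd : r.d = fun i => Ideal.Quotient.mkₐ K0 p (ud i) := funext hr.d
  have hre : r.e = fun i => Ideal.Quotient.mkₐ K0 p (ue i) := funext hr.e
  have hcr : cr r.d r.e ≠ 0 := by
    intro h
    rw [hrd, hre] at h
    apply hc
    rw [← hQ, cr_Q, h]
    rfl
  have hgen := gen_mem hr (Ideal.Quotient.mkₐ_surjective K0 p)
  refine ⟨r, hr, hcr, hgen, ?_⟩
  let A := MvPolynomial (Fin 10) K0 ⧸ p
  let φ : A →ₐ[K0] FractionRing A := IsScalarTower.toAlgHom K0 A (FractionRing A)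
  have hφ : Function.Injective φ := IsFractionRing.injective A (FractionRing A)
  have hcrF : cr (r.map φ).d (r.map φ).e ≠ 0 := by
    intro h
    apply hcr
    funext j
    apply hφ
    have h1 := congrFun (cr_map (φ : A →+* FractionRing A) r.d r.e) j
    refine Eq.trans h1 ?_
    have h2 := congrFun h j
    rw [Pi.zero_apply, map_zero]
    exact h2
  obtain ⟨u, hu⟩ := trd hf (r.map φ) hcrF
  refine nn (F := FractionRing A) (u := u) ?_ (IsFractionRing.injective A (FractionRing A)) ?_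
  · intro h
    exact not_max (n := 9) (gens f i) hp (Ideal.Quotient.maximal_of_isField p h)
  · intro x
    have hx := hgen x
    change IsAlgebraic _ (φ x)
    induction hx using Algebra.adjoin_induction with
    | mem x hx =>
      apply hu
      unfold Frm.ent at hx ⊢
      rcases hx with (⟨j, rfl⟩ | ⟨j, rfl⟩) | hx
      · exact Or.inl (Or.inl ⟨j, rfl⟩)
      · exact Or.inl (Or.inr ⟨j, rfl⟩)
      · right
        rcases hx with rfl | rfl | rfl | rfl
        · exact Or.inl rfl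
        · exact Or.inr (Or.inl rfl)
        · exact Or.inr (Or.inr (Or.inl rfl))
        · exact Or.inr (Or.inr (Or.inr rfl))
    | algebraMap c =>
      rw [AlgHom.commutes]
      have h1 : algebraMap K0 (FractionRing A) c = algebraMap (IntermediateField.adjoin K0 ({u} : Set (FractionRing A)))
        (FractionRing A) (algebraMap K0 _ c) := rfl
      rw [h1]
      exact isAlgebraic_algebraMap _
    | add x y _ _ hx hy => rw [map_add]; exact hx.add hy
    | mul x y _ _ hx hy => rw [map_mul]; exact hx.mul hy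

end univ

theorem comps {K0 : Type} [Field K0] [IsAlgClosed K0] [CharZero K0] {f : MvPolynomial (Fin 3) K0} (hf : Sm f) :
    ∃ (n : ℕ) (p : Fin n → Ideal (MvPolynomial (Fin 10) K0)) (r : ∀ j, Frm f (MvPolynomial (Fin 10) K0 ⧸ p j)),
      (∀ j, (p j).IsPrime) ∧ (∀ j, cr (r j).d (r j).e ≠ 0) ∧
      (∀ j, ∀ x : MvPolynomial (Fin 10) K0 ⧸ p j, x ∈ Algebra.adjoin K0 (r j).ent) ∧
      (∀ j, ∃ T : MvPolynomial (Fin 10) K0 ⧸ p j, Transcendental K0 T ∧
        ∀ x : MvPolynomial (Fin 10) K0 ⧸ p j, IsIntegral (Algebra.adjoin K0 ({T} : Set (MvPolynomial (Fin 10) K0 ⧸ p j))) x) ∧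
      ∀ (K : Type) [Field K] [Algebra K0 K] (r' : Frm f K), cr r'.d r'.e ≠ 0 →
        ∃ (j : Fin n) (φ : (MvPolynomial (Fin 10) K0 ⧸ p j) →ₐ[K0] K), (r j).map φ = r' := by
  classical
  let S : Set (Ideal (MvPolynomial (Fin 10) K0)) :=
    {p | ∃ i, p ∈ (Ideal.span (Set.range (gens f i))).minimalPrimes ∧ cr ud ue i ∉ p}
  have hS : S.Finite := by
    refine (Set.finite_iUnion fun i : Fin 3 => Ideal.finite_minimalPrimes_of_isNoetherianRing _
      (Ideal.span (Set.range (gens f i)))).subset ?_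
    rintro p ⟨i, h, _⟩
    exact Set.mem_iUnion.2 ⟨i, h⟩
  have hF : Fintype S := hS.fintype
  let e := Fintype.equivFin S
  have key : ∀ j : Fin (Fintype.card S), ∃ r : Frm f (MvPolynomial (Fin 10) K0 ⧸ (e.symm j : Ideal (MvPolynomial (Fin 10) K0))),
      IsEnt r (Ideal.Quotient.mkₐ K0 (e.symm j : Ideal (MvPolynomial (Fin 10) K0))) ∧
      cr r.d r.e ≠ 0 ∧ (∀ x : MvPolynomial (Fin 10) K0 ⧸ (e.symm j : Ideal (MvPolynomial (Fin 10) K0)), x ∈ Algebra.adjoin K0 r.ent) ∧
      ∃ T : MvPolynomial (Fin 10) K0 ⧸ (e.symm j : Ideal (MvPolynomial (Fin 10) K0)), Transcendental K0 T ∧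
        ∀ x : MvPolynomial (Fin 10) K0 ⧸ (e.symm j : Ideal (MvPolynomial (Fin 10) K0)),
          IsIntegral (Algebra.adjoin K0 ({T} : Set (MvPolynomial (Fin 10) K0 ⧸ (e.symm j : Ideal (MvPolynomial (Fin 10) K0))))) x := by
    intro j
    obtain ⟨i, h1, h2⟩ := (e.symm j).2
    exact one_comp hf h1 h2
  choose r hr1 hr2 hr3 hr4 using key
  refine ⟨Fintype.card S, fun j => (e.symm j : Ideal (MvPolynomial (Fin 10) K0)), r, ?_, hr2, hr3, hr4, ?_⟩
  · intro j
    obtain ⟨i, h1, h2⟩ := (e.symm j).2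
    exact h1.1.1
  · intro K _ _ r' hr'
    let ψ : MvPolynomial (Fin 10) K0 →ₐ[K0] K :=
      MvPolynomial.aeval ![r'.d 0, r'.d 1, r'.d 2, r'.e 0, r'.e 1, r'.e 2, r'.s, r'.t, r'.a, r'.b]
    have hψd : (fun i => ψ (ud i)) = r'.d := by
      funext i
      fin_cases i
      · exact MvPolynomial.aeval_X _ 0
      · exact MvPolynomial.aeval_X _ 1
      · exact MvPolynomial.aeval_X _ 2
    have hψe : (fun i => ψ (ue i)) = r'.e := by
      funext i
      fin_cases i
      · exact MvPolynomial.aeval_X _ 3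
      · exact MvPolynomial.aeval_X _ 4
      · exact MvPolynomial.aeval_X _ 5
    have hψs : ψ (MvPolynomial.X 6) = r'.s := MvPolynomial.aeval_X _ 6
    have hψt : ψ (MvPolynomial.X 7) = r'.t := MvPolynomial.aeval_X _ 7
    have hψa : ψ (MvPolynomial.X 8) = r'.a := MvPolynomial.aeval_X _ 8
    have hψb : ψ (MvPolynomial.X 9) = r'.b := MvPolynomial.aeval_X _ 9
    obtain ⟨i, hi⟩ : ∃ i, cr r'.d r'.e i ≠ 0 := by
      by_contra hcon
      push Not at hcon
      exact hr' (funext hcon)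
    have hker : Ideal.span (Set.range (gens f i)) ≤ RingHom.ker ψ := by
      rw [Ideal.span_le]
      rintro _ ⟨k, rfl⟩
      change ψ (gens f i k) = 0
      unfold gens
      split_ifs with h1 h2
      · have h3 := congrArg (fun q : K[X] => q.coeff k) (uG_map f ψ)
        simp only [coeff_map] at h3
        refine Eq.trans h3 ?_
        rw [hψd, hψe, hψs, hψt, hψa, hψb, r'.line, sub_self, coeff_zero]
      · rw [map_sub, map_sub, map_pow, map_pow, map_one, hψa, hψb, r'.disc, sub_self]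
      · rw [map_sub, grad_Q, cr_Q, hψd, hψe, hψs, hψt, r'.grd, sub_self]
    have hprime : (RingHom.ker ψ).IsPrime := RingHom.ker_isPrime ψ
    obtain ⟨p, hp, hpk⟩ := Ideal.exists_minimalPrimes_le hker
    have hcp : cr ud ue i ∉ p := by
      intro h
      have h1 : ψ (cr ud ue i) = 0 := hpk h
      rw [cr_Q, hψd, hψe] at h1
      exact hi h1
    have hpS : p ∈ S := ⟨i, hp, hcp⟩
    obtain ⟨j, hj⟩ : ∃ j, (e.symm j : Ideal (MvPolynomial (Fin 10) K0)) = p := ⟨e ⟨p, hpS⟩, by rw [Equiv.symm_apply_apply]⟩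
    have hjk : ∀ y : MvPolynomial (Fin 10) K0, y ∈ (e.symm j : Ideal (MvPolynomial (Fin 10) K0)) → ψ y = 0 := by
      intro y hy
      rw [hj] at hy
      exact hpk hy
    let φ := Ideal.Quotient.liftₐ (e.symm j : Ideal (MvPolynomial (Fin 10) K0)) ψ hjk
    have hφ : ∀ y, φ (Ideal.Quotient.mkₐ K0 (e.symm j : Ideal (MvPolynomial (Fin 10) K0)) y) = ψ y := fun y => rfl
    refine ⟨j, φ, ?_⟩
    refine Frm.ext ?_ ?_ ?_ ?_ ?_ ?_
    · rw [← hψd]
      funext i
      change φ ((r j).d i) = _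
      rw [(hr1 j).d, hφ]
    · rw [← hψe]
      funext i
      change φ ((r j).e i) = _
      rw [(hr1 j).e, hφ]
    · change φ (r j).s = _
      rw [(hr1 j).s, hφ, hψs]
    · change φ (r j).t = _
      rw [(hr1 j).t, hφ, hψt]
    · change φ (r j).a = _
      rw [(hr1 j).a, hφ, hψa]
    · change φ (r j).b = _
      rw [(hr1 j).b, hφ, hψb]

end H25.DP
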