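import Pool.Agent.H25.DP.NoL

/-! # DP.LinB : a good basis of a tangent line (about 200 lines; given `no_line`, `tangG`, `sm_ext`, `euler`)

`w = grad f c ≠ 0` (`sm_ext`), `∑ c_i w_i = 6 f(c) = 0` (`euler`).  Choose `v` orthogonal to `w` and independent of `c` (`cr c v ≠ 0`; e.g. `v = cr w u` for a suitable `u`); all vectors orthogonal to `w` are combinations of `c` and `v`.
`B = lin f v c` (values `f(x v + c)`) has degree at most 6, `B(0) = f(c) = 0`, `B'(0) = ∑ v_i w_i = 0` (`tangG`), so `B = X² B1`, `deg B1 ≤ 4` and `f(x c + y v) = y² Q(x, y)` with a binary quartic `Q` (coefficients those of `B1`), `Q ≠ 0` (`no_line`).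
Choose a nontrivial zero `(g1, g2)` of `Q` (`K` algebraically closed), `g = g1 c + g2 v`, and `h` = `c` or `v` (independent of `g`).  In the coordinates `(x, y)` of `x g + y h`: the linear form `y`-coordinate in the basis `(c, v)` becomes `s1 x + s2 y`, the quartic vanishes at `(1, 0)`, so it is `quar q0 q1 q2 q3`. -/

namespace H25.DP

variable {K0 : Type} [Field K0] [IsAlgClosed K0]

omit [IsAlgClosed K0] in
open Polynomial in
private theorem lb_deg {f : MvPolynomial (Fin 3) K0} (hf : f.IsHomogeneous 6) {K : Type} [Field K] [Algebra K0 K]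
    (d e : Fin 3 → K) : (lin f d e).natDegree ≤ 6 := by
  have h1 : lin f d e = MvPolynomial.aeval (fun i => C (d i) * X + C (e i)) (MvPolynomial.map (algebraMap K0 K) f) := by
    unfold lin
    rw [MvPolynomial.aeval_map_algebraMap]
  rw [h1]
  have h2 : (MvPolynomial.map (algebraMap K0 K) f).totalDegree ≤ 6 :=
    (MvPolynomial.IsHomogeneous.map hf (algebraMap K0 K)).totalDegree_le
  have h3 := MvPolynomial.aeval_natDegree_le (MvPolynomial.map (algebraMap K0 K) f) h2
    (fun i => C (d i) * X + C (e i)) (n := 1) (fun i => natDegree_linear_le)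
  simpa using h3

omit [IsAlgClosed K0] in
open Polynomial in
private theorem lb_form {f : MvPolynomial (Fin 3) K0} (hf : f.IsHomogeneous 6) {K : Type} [Field K] [Infinite K] [Algebra K0 K]
    {c v : Fin 3 → K} {b : ℕ → K} (hb : ∀ t : K, ev f (lc t 1 v c) = ∑ k ∈ Finset.range 7, b k * t ^ k) (h0 : b 0 = 0)
    (h1 : b 1 = 0) (x y : K) :
    ev f (lc x y c v) = y ^ 2 * (b 2 * x ^ 4 + b 3 * x ^ 3 * y + b 4 * x ^ 2 * y ^ 2 + b 5 * x * y ^ 3 + b 6 * y ^ 4) := by
  have key : ∀ x : K, x ≠ 0 → ev f (lc x y c v) =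
      y ^ 2 * (b 2 * x ^ 4 + b 3 * x ^ 3 * y + b 4 * x ^ 2 * y ^ 2 + b 5 * x * y ^ 3 + b 6 * y ^ 4) := by
    intro x hx
    have e1 : lc x y c v = fun i => x * lc (y / x) 1 v c i := by
      funext i
      simp only [lc]
      field_simp
      ring
    rw [e1, ev_smul hf, hb]
    simp only [Finset.sum_range_succ, Finset.sum_range_zero, h0, h1]
    field_simp
    ring
  have e2 : ∀ x : K, (lin f c (fun i => y * v i)).eval x = ev f (lc x y c v) := by
    intro x
    rw [lin_eval]
    congr 1
    funext i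
    simp only [lc, one_mul]
  have e3 : lin f c (fun i => y * v i) = C (y ^ 2) * (C (b 2) * X ^ 4 + C (b 3 * y) * X ^ 3 + C (b 4 * y ^ 2) * X ^ 2 +
      C (b 5 * y ^ 3) * X + C (b 6 * y ^ 4)) := by
    refine Polynomial.eq_of_infinite_eval_eq _ _ (Set.Infinite.mono (s := {x : K | x ≠ 0}) ?_ ?_)
    · intro x hx
      show _ = _
      rw [e2, key x hx]
      simp only [eval_mul, eval_add, eval_pow, eval_C, eval_X]
      ring
    · exact (Set.finite_singleton (0 : K)).infinite_compl
  rw [← e2, e3]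
  simp only [eval_mul, eval_add, eval_pow, eval_C, eval_X]
  ring

private theorem lb_comb {K : Type} [Field K] {c v n z : Fin 3 → K} {j : Fin 3} (hj : cr c v j ≠ 0)
    {lam : K} (hn : ∀ i, cr c v i = lam * n i) (hz : ∑ i, z i * n i = 0) : ∃ x y : K, z = lc x y c v := by
  have hd : z 0 * cr c v 0 + z 1 * cr c v 1 + z 2 * cr c v 2 = 0 := by
    rw [Fin.sum_univ_three] at hz
    rw [hn 0, hn 1, hn 2]
    linear_combination lam * hz
  simp only [cr, Matrix.cons_val_zero, Matrix.cons_val_one, Matrix.cons_val] at hd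
  refine ⟨cr z v j / cr c v j, cr c z j / cr c v j, ?_⟩
  have key : ∀ i, cr c v j * z i = cr z v j * c i + cr c z j * v i := by
    intro i
    fin_cases j <;> fin_cases i <;>
      simp only [cr, Fin.zero_eta, Fin.mk_one, Fin.reduceFinMk, Matrix.cons_val_zero, Matrix.cons_val_one, Matrix.cons_val] <;>
      first
        | ring1
        | linear_combination hd
  funext i
  have h := key i
  unfold lc
  field_simp
  linear_combination h

theorem line_basis {f : MvPolynomial (Fin 3) K0} (hf : Sm f) {K : Type} [Field K] [IsAlgClosed K] [Algebra K0 K]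
    {c : Fin 3 → K} (hc : c ≠ 0) (hfc : ev f c = 0) :
    ∃ (g h : Fin 3 → K) (s1 s2 q0 q1 q2 q3 : K), cr g h ≠ 0 ∧
      (∀ v : Fin 3 → K, ∑ i, v i * grad f c i = 0 → ∃ x y : K, v = lc x y g h) ∧
      ∀ x y : K, ev f (lc x y g h) = (s1 * x + s2 * y) ^ 2 * quar q0 q1 q2 q3 x y := by
  have hinf : Infinite K := IsAlgClosed.instInfinite
  set w := grad f c with hw
  have hw0 : w ≠ 0 := sm_ext hf hc
  have hcw : ∑ i, c i * w i = 0 := by
    rw [hw, euler hf.hom, hfc, mul_zero]
  rw [Fin.sum_univ_three] at hcw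
  obtain ⟨i0, hi0⟩ := Function.ne_iff.1 hc
  rw [Pi.zero_apply] at hi0
  -- the second vector
  set u : Fin 3 → K := Pi.single i0 1 with hu
  set v : Fin 3 → K := cr w u with hv
  have hcu : c 0 * u 0 + c 1 * u 1 + c 2 * u 2 = c i0 := by
    rw [hu]
    fin_cases i0 <;> simp
  have hcv : ∀ i, cr c v i = c i0 * w i := by
    intro i
    rw [← hcu]
    fin_cases i <;>
      simp only [hv, cr, Fin.zero_eta, Fin.mk_one, Fin.reduceFinMk, Matrix.cons_val_zero, Matrix.cons_val_one, Matrix.cons_val]
    · linear_combination (-u 0) * hcw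
    · linear_combination (-u 1) * hcw
    · linear_combination (-u 2) * hcw
  obtain ⟨j, hj⟩ := Function.ne_iff.1 hw0
  rw [Pi.zero_apply] at hj
  have hcvj : cr c v j ≠ 0 := by
    rw [hcv]
    exact mul_ne_zero hi0 hj
  have hcr : cr c v ≠ 0 := fun h => hcvj (by rw [h]; rfl)
  have hvw : ∑ i, v i * w i = 0 := by
    rw [Fin.sum_univ_three]
    simp only [hv, cr, Matrix.cons_val_zero, Matrix.cons_val_one, Matrix.cons_val]
    ring
  have hcomb : ∀ z : Fin 3 → K, ∑ i, z i * w i = 0 → ∃ x y : K, z = lc x y c v := fun z hz =>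
    lb_comb hcvj hcv hz
  -- the polynomial on the line
  set B := lin f v c with hB
  have hB1 : ∀ t : K, ev f (lc t 1 v c) = ∑ k ∈ Finset.range 7, B.coeff k * t ^ k := by
    intro t
    rw [← lin_eval, ← hB, Polynomial.eval_eq_sum_range' (Nat.lt_succ_of_le (lb_deg hf.hom v c))]
  have hlc : lc 0 1 v c = c := by
    funext i
    simp only [lc, zero_mul, zero_add, one_mul]
  have hb0 : B.coeff 0 = 0 := by
    rw [Polynomial.coeff_zero_eq_eval_zero, hB, lin_eval, hlc, hfc]
  have hb1 : B.coeff 1 = 0 := by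
    have h1 := tangG f (g := v) (h := c) (y0 := 1) (P := B) (fun x => by rw [hB, lin_eval]) 0
    rw [hlc, ← hw, hvw, ← Polynomial.coeff_zero_eq_eval_zero, Polynomial.coeff_derivative] at h1
    simpa using h1.symm
  have hform := lb_form hf.hom (b := B.coeff) hB1 hb0 hb1
  by_cases h2 : B.coeff 2 = 0
  · refine ⟨c, v, 0, 1, B.coeff 3, B.coeff 4, B.coeff 5, B.coeff 6, hcr, hcomb, fun x y => ?_⟩
    rw [hform, h2]
    unfold quar
    ring
  · -- a root of the quartic
    obtain ⟨x1, hx1⟩ : ∃ x1 : K, B.coeff 2 * x1 ^ 4 + B.coeff 3 * x1 ^ 3 + B.coeff 4 * x1 ^ 2 + B.coeff 5 * x1 + B.coeff 6 = 0 := by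
      set q : Polynomial K := Polynomial.C (B.coeff 2) * Polynomial.X ^ 4 + (Polynomial.C (B.coeff 3) * Polynomial.X ^ 3 +
        Polynomial.C (B.coeff 4) * Polynomial.X ^ 2 + Polynomial.C (B.coeff 5) * Polynomial.X + Polynomial.C (B.coeff 6)) with hq
      have hdeg : q.degree ≠ 0 := by
        have h3 : (Polynomial.C (B.coeff 3) * Polynomial.X ^ 3 + Polynomial.C (B.coeff 4) * Polynomial.X ^ 2 +
            Polynomial.C (B.coeff 5) * Polynomial.X + Polynomial.C (B.coeff 6)).degree <
            (Polynomial.C (B.coeff 2) * Polynomial.X ^ 4).degree := by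
          rw [Polynomial.degree_C_mul_X_pow 4 h2]
          exact lt_of_le_of_lt Polynomial.degree_cubic_le (by norm_num)
        rw [hq, Polynomial.degree_add_eq_left_of_degree_lt h3, Polynomial.degree_C_mul_X_pow 4 h2]
        norm_num
      obtain ⟨x1, hx1⟩ := IsAlgClosed.exists_root q hdeg
      refine ⟨x1, ?_⟩
      rw [Polynomial.IsRoot.def, hq] at hx1
      simp only [Polynomial.eval_add, Polynomial.eval_mul, Polynomial.eval_pow, Polynomial.eval_C, Polynomial.eval_X] at hx1
      linear_combination hx1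
    refine ⟨lc x1 1 c v, c, 1, 0, 4 * B.coeff 2 * x1 ^ 3 + 3 * B.coeff 3 * x1 ^ 2 + 2 * B.coeff 4 * x1 + B.coeff 5,
      6 * B.coeff 2 * x1 ^ 2 + 3 * B.coeff 3 * x1 + B.coeff 4, 4 * B.coeff 2 * x1 + B.coeff 3, B.coeff 2, ?_, ?_, ?_⟩
    · intro h
      apply hcvj
      have h4 := congrFun h j
      have h5 : cr (lc x1 1 c v) c j = -cr c v j := by
        fin_cases j <;>
          simp only [lc, cr, Fin.zero_eta, Fin.mk_one, Fin.reduceFinMk, Matrix.cons_val_zero, Matrix.cons_val_one, Matrix.cons_val] <;>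
          ring
      rw [h5, Pi.zero_apply, neg_eq_zero] at h4
      exact h4
    · intro z hz
      obtain ⟨x, y, hxy⟩ := hcomb z hz
      refine ⟨y, x - y * x1, ?_⟩
      rw [hxy]
      funext i
      simp only [lc]
      ring
    · intro x y
      have h6 : lc x y (lc x1 1 c v) c = lc (x * x1 + y) x c v := by
        funext i
        simp only [lc]
        ring
      rw [h6, hform]
      unfold quar
      linear_combination x ^ 6 * hx1

end H25.DP
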