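import Pool.Agent.H25.DP.RatC
import Pool.Agent.H25.DP.NoL

/-! # DP.SingX : points of `X` over a line with a singular elliptic curve (about 300 lines; given `rat_curve`, `scale`, `inv_rat`, `no_line`)

On the line `x g + y h`: `f = (s1 x + s2 y)² q(x, y)`, `q = y (q0 x³ + ...)` a binary quartic with a double root.
Step 1 (`quar_fac`): `q = m² l1 l2` with linear forms `m, l1, l2` (coefficients in `K`, algebraically closed): `q0 = 0`: `m = y`, factor the quadratic form `q1 x² + q2 x y + q3 y²`; `q0 ≠ 0`, `dis = 0`: the cubic has a double root `r`: `q0 (x - r y)² (x - r' y)`, `m = x - r y`,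
`l1 = y`, `l2 = q0 (x - r' y)` (the polynomial `q0 X³ + ...` splits; `dis = q0⁴ ∏ (differences)²`).
Step 2: `m, l1, l2` and `(s1, s2)` are nonzero linear forms because `f` does not vanish on the line (`no_line`).  If `z = 0` then `P.inv = P`.  Let `z ≠ 0`, `(x0, y0)` the coordinates of `P`, `s m v = z` where `v² = l1 l2 (x0, y0)`.
Case A: `l1`, `l2` proportional: `l1 l2 = n²` with a linear form `n`; `v = ± n(x0, y0)`, take the sign `+` (replace `n` by `-n`).  Family over the line: `p(u) = (point on the segment from (x0, y0) to (x1, y1))`, `(x1, y1) = (s2, -s1)` the zero of `s`, `z(u) = s m n`;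
`rat_curve` with `u0 = 0`, `u1 = 1`: `P ~ P1` with `P1.z = 0`, so `P ~ P1 = P1.inv ~ P.inv` (`inv_rat`).  (The value at `u1` must be a point: `(s2, -s1) ≠ 0`.)
Case B: `l1`, `l2` independent: coordinates `α = l1`, `β = l2` on the line; `α0 = a0²`, `β0 = b0²`, choose the signs with `v = a0 b0` (both nonzero or change one sign).  The family `α = A(u)²`, `β = B(u)²`, `v = A(u) B(u)` with `A`, `B` linear in `u` from `(a0, b0)` at `u = 0` to
`(a1, b1)` at `u = 1`, where `(a1², b1²)` are the coordinates `(l1, l2)` of the zero `(s2, -s1)` of `s`; `z(u) = s m v`.  Again `P ~ P1`, `P1.z = 0`. -/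

namespace H25.DP

open H68.BB (Om Place Rd tt)
open H77.AF Polynomial

variable {K0 : Type} [Field K0] [IsAlgClosed K0] {K : Type} [Field K] [IsAlgClosed K] [CharZero K] [Algebra K0 K]
  {f : MvPolynomial (Fin 3) K0}

omit [IsAlgClosed K0] [Field K0] [Algebra K0 K] in
private theorem split2 (c1 c2 c3 : K) : ∃ a1 a2 b1 b2 : K, ∀ x y : K,
    c1 * x ^ 2 + c2 * x * y + c3 * y ^ 2 = (a1 * x + a2 * y) * (b1 * x + b2 * y) := by
  by_cases h : c1 = 0
  · refine ⟨0, 1, c2, c3, fun x y => ?_⟩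
    rw [h]
    ring
  · obtain ⟨d, hd⟩ := IsAlgClosed.exists_pow_nat_eq (c2 ^ 2 - 4 * c1 * c3) (n := 2) (by norm_num)
    refine ⟨c1, (c2 - d) / 2, 1, (c2 + d) / (2 * c1), fun x y => ?_⟩
    have h2 : (2 : K) ≠ 0 := two_ne_zero
    field_simp
    linear_combination y ^ 2 * hd

omit [IsAlgClosed K0] [Field K0] [Algebra K0 K] in
private theorem cub_roots {q0 q1 q2 q3 : K} (h : q0 ≠ 0) : ∃ r1 r2 r3 : K, q1 = -q0 * (r1 + r2 + r3) ∧
    q2 = q0 * (r1 * r2 + r1 * r3 + r2 * r3) ∧ q3 = -q0 * (r1 * r2 * r3) := by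
  obtain ⟨r1, hr⟩ := IsAlgClosed.exists_root (C q0 * X ^ 3 + C q1 * X ^ 2 + C q2 * X + C q3 : K[X])
    (by rw [Polynomial.degree_cubic h]; norm_num)
  have hr1 : q0 * r1 ^ 3 + q1 * r1 ^ 2 + q2 * r1 + q3 = 0 := by
    have h1 := hr
    rw [Polynomial.IsRoot.def] at h1
    simpa only [eval_add, eval_mul, eval_pow, eval_C, eval_X] using h1
  obtain ⟨d, hd⟩ := IsAlgClosed.exists_pow_nat_eq ((q1 + q0 * r1) ^ 2 - 4 * q0 * (q2 + q1 * r1 + q0 * r1 ^ 2))
    (n := 2) (by norm_num)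
  have h2 : (2 : K) ≠ 0 := two_ne_zero
  obtain ⟨e, he⟩ : ∃ e : K, e * (2 * q0) = 1 := ⟨(2 * q0)⁻¹, inv_mul_cancel₀ (mul_ne_zero h2 h)⟩
  refine ⟨r1, (-(q1 + q0 * r1) + d) * e, (-(q1 + q0 * r1) - d) * e, ?_, ?_, ?_⟩
  · linear_combination (-(q1 + q0 * r1)) * he
  · linear_combination (r1 * (q1 + q0 * r1) - 2 * e * q0 * (q2 + q1 * r1 + q0 * r1 ^ 2) - (q2 + q1 * r1 + q0 * r1 ^ 2)) * he +
      q0 * e ^ 2 * hd
  · linear_combination r1 * ((2 * e * q0 * (q2 + q1 * r1 + q0 * r1 ^ 2) + (q2 + q1 * r1 + q0 * r1 ^ 2))) * he +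
      (-(q0 * r1) * e ^ 2) * hd + hr1

omit [IsAlgClosed K0] in
theorem quar_fac {q0 q1 q2 q3 : K} (h : q0 = 0 ∨ dis q0 q1 q2 q3 = 0) :
    ∃ m1 m2 a1 a2 b1 b2 : K, ∀ x y : K,
      quar q0 q1 q2 q3 x y = (m1 * x + m2 * y) ^ 2 * ((a1 * x + a2 * y) * (b1 * x + b2 * y)) := by
  by_cases h0 : q0 = 0
  · obtain ⟨a1, a2, b1, b2, hab⟩ := split2 q1 q2 q3
    refine ⟨0, 1, a1, a2, b1, b2, fun x y => ?_⟩
    rw [← hab x y, h0]
    unfold quar
    ring
  · have hdis := h.resolve_left h0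
    obtain ⟨r1, r2, r3, e1, e2, e3⟩ := cub_roots (q1 := q1) (q2 := q2) (q3 := q3) h0
    subst e1 e2 e3
    have h1 : q0 ^ 4 * ((r1 - r2) * (r1 - r3) * (r2 - r3)) ^ 2 = 0 := by
      rw [← hdis]
      unfold dis
      ring
    have h2 : (r1 - r2) * (r1 - r3) * (r2 - r3) = 0 := by
      rcases mul_eq_zero.1 h1 with h3 | h3
      · exact absurd (pow_eq_zero_iff (by norm_num) |>.1 h3) h0
      · exact pow_eq_zero_iff (by norm_num) |>.1 h3
    rcases mul_eq_zero.1 h2 with h3 | h3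
    · rcases mul_eq_zero.1 h3 with h4 | h4
      · have h5 : r1 = r2 := sub_eq_zero.1 h4
        subst h5
        refine ⟨1, -r1, 0, 1, q0, -q0 * r3, fun x y => ?_⟩
        unfold quar
        ring
      · have h5 : r1 = r3 := sub_eq_zero.1 h4
        subst h5
        refine ⟨1, -r1, 0, 1, q0, -q0 * r2, fun x y => ?_⟩
        unfold quar
        ring
    · have h5 : r2 = r3 := sub_eq_zero.1 h3
      subst h5
      refine ⟨1, -r2, 0, 1, q0, -q0 * r1, fun x y => ?_⟩
      unfold quar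
      ring

omit [IsAlgClosed K0] [IsAlgClosed K] [CharZero K] in
private theorem lc_ne {g h : Fin 3 → K} (hgh : cr g h ≠ 0) {x y : K} (hxy : ¬ (x = 0 ∧ y = 0)) : lc x y g h ≠ 0 := by
  intro h0
  apply hgh
  have e : ∀ i, x * g i + y * h i = 0 := fun i => congrFun h0 i
  have hx : ∀ i j, x * (g i * h j - g j * h i) = 0 := fun i j => by
    linear_combination h j * e i - h i * e j
  have hy : ∀ i j, y * (g i * h j - g j * h i) = 0 := fun i j => by
    linear_combination g i * e j - g j * e i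
  have key : ∀ i j, g i * h j - g j * h i = 0 := by
    intro i j
    by_cases h1 : x = 0
    · have h2 : y ≠ 0 := fun h2 => hxy ⟨h1, h2⟩
      exact (mul_eq_zero.1 (hy i j)).resolve_left h2
    · exact (mul_eq_zero.1 (hx i j)).resolve_left h1
  funext i
  fin_cases i
  · exact key 1 2
  · exact key 2 0
  · exact key 0 1

omit [IsAlgClosed K0] [CharZero K] in
private theorem aeval_eval (p : Fin 3 → K[X]) (u : K) :
    (MvPolynomial.aeval p f : K[X]).eval u = ev f (fun i => (p i).eval u) := by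
  have h1 : ∀ q : K[X], q.eval u = (Polynomial.aeval u : K[X] →ₐ[K] K) q :=
    fun q => (Polynomial.coe_aeval_eq_eval u ▸ rfl)
  have h2 := MvPolynomial.comp_aeval_apply (f := p) (((Polynomial.aeval u : K[X] →ₐ[K] K).restrictScalars K0)) f
  rw [h1]
  unfold ev
  refine Eq.trans h2 ?_
  congr 2

omit [IsAlgClosed K0] in
private theorem fam {g h : Fin 3 → K} (hgh : cr g h ≠ 0) {P : XP f K} (xu yu zu : K[X])
    (hz : ∀ u : K, (zu.eval u) ^ 2 = ev f (lc (xu.eval u) (yu.eval u) g h))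
    (hP : P.p = lc (xu.eval 0) (yu.eval 0) g h) (hPz : P.z = zu.eval 0)
    (h1 : ¬ (xu.eval 1 = 0 ∧ yu.eval 1 = 0)) (h1z : zu.eval 1 = 0) :
    (Finsupp.single (fun _ => P) 1 - Finsupp.single (fun _ => P.inv) 1 : Cyc (xpd K f) 1) ∈ RatEq (xpd K f) 1 := by
  have hev : ∀ u : K, ∀ i, (xu * C (g i) + yu * C (h i)).eval u = lc (xu.eval u) (yu.eval u) g h i := by
    intro u i
    rw [eval_add, eval_mul, eval_mul, eval_C, eval_C]
    rfl
  have hzz : zu ^ 2 = MvPolynomial.aeval (fun i => xu * C (g i) + yu * C (h i)) f := by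
    apply Polynomial.funext
    intro u
    rw [aeval_eval, eval_pow, hz]
    congr 1
    funext i
    exact (hev u i).symm
  let P1 : XP f K :=
    { p := lc (xu.eval 1) (yu.eval 1) g h
      z := 0
      ne := lc_ne hgh h1
      eq := by rw [← hz 1, h1z] }
  have e1 := rat_curve (f := f) (fun i => xu * C (g i) + yu * C (h i)) zu hzz (u0 := 0) (u1 := 1) (P0 := P) (P1 := P1)
    (fun i => by rw [hev]; exact congrFun hP i) hPz (fun i => (hev 1 i).symm) h1z.symm
  have e2 := inv_rat e1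
  have e3 : P1.inv = P1 := XP.ext rfl (neg_zero)
  rw [e3] at e2
  have e4 := AddSubgroup.sub_mem _ e1 e2
  have e5 : ((Finsupp.single (fun _ => P) 1 - Finsupp.single (fun _ => P1) 1 : Cyc (xpd K f) 1) -
      (Finsupp.single (fun _ => P.inv) 1 - Finsupp.single (fun _ => P1) 1 : Cyc (xpd K f) 1)) =
      (Finsupp.single (fun _ => P) 1 - Finsupp.single (fun _ => P.inv) 1 : Cyc (xpd K f) 1) :=
    sub_sub_sub_cancel_right _ _ _
  exact Eq.mp (congrArg (fun w => w ∈ RatEq (xpd K f) 1) e5) e4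

theorem sing_x (hf : Sm f) {g h : Fin 3 → K} (hgh : cr g h ≠ 0) {s1 s2 q0 q1 q2 q3 : K}
    (hq : q0 = 0 ∨ dis q0 q1 q2 q3 = 0)
    (H : ∀ x y : K, ev f (lc x y g h) = (s1 * x + s2 * y) ^ 2 * quar q0 q1 q2 q3 x y) {P : XP f K} {x y : K}
    (hP : P.p = lc x y g h) :
    (Finsupp.single (fun _ => P) 1 - Finsupp.single (fun _ => P.inv) 1 : Cyc (xpd K f) 1) ∈ RatEq (xpd K f) 1 := by
  obtain ⟨m1, m2, a1, a2, b1, b2, hfac⟩ := quar_fac hq
  obtain ⟨X0, Y0, hne⟩ := no_line hf hgh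
  rw [H, hfac] at hne
  have hs : ¬ (s2 = 0 ∧ -s1 = 0) := by
    rintro ⟨h1, h2⟩
    apply hne
    rw [h1, neg_eq_zero.1 h2]
    ring
  have ha : ¬ (a1 = 0 ∧ a2 = 0) := by
    rintro ⟨h1, h2⟩
    apply hne
    rw [h1, h2]
    ring
  have hPz : P.z ^ 2 = (s1 * x + s2 * y) ^ 2 * ((m1 * x + m2 * y) ^ 2 * ((a1 * x + a2 * y) * (b1 * x + b2 * y))) := by
    rw [P.eq, hP, H, hfac]
  by_cases hdet : a1 * b2 - a2 * b1 = 0
  · -- proportional forms
    obtain ⟨c, hc1, hc2⟩ : ∃ c, b1 = c * a1 ∧ b2 = c * a2 := by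
      by_cases h1 : a1 = 0
      · have h2 : a2 ≠ 0 := fun h2 => ha ⟨h1, h2⟩
        refine ⟨b2 / a2, ?_, ?_⟩
        · rw [h1, zero_mul, zero_sub, neg_eq_zero] at hdet
          rw [h1, mul_zero]
          exact (mul_eq_zero.1 hdet).resolve_left h2
        · field_simp
      · refine ⟨b1 / a1, ?_, ?_⟩
        · field_simp
        · field_simp
          linear_combination hdet
    obtain ⟨e, he⟩ := IsAlgClosed.exists_pow_nat_eq c (n := 2) (by norm_num)
    obtain ⟨e', he', hv⟩ : ∃ e' : K, e' ^ 2 = c ∧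
        P.z = (s1 * x + s2 * y) * (m1 * x + m2 * y) * (e' * (a1 * x + a2 * y)) := by
      have h1 : P.z ^ 2 = ((s1 * x + s2 * y) * (m1 * x + m2 * y) * (e * (a1 * x + a2 * y))) ^ 2 := by
        rw [hPz, hc1, hc2, ← he]
        ring
      rcases sq_eq_sq_iff_eq_or_eq_neg.1 h1 with h2 | h2
      · exact ⟨e, he, h2⟩
      · refine ⟨-e, by rw [neg_sq, he], ?_⟩
        rw [h2]
        ring
    refine fam hgh (C x + X * C (s2 - x)) (C y + X * C (-s1 - y))
      ((C s1 * (C x + X * C (s2 - x)) + C s2 * (C y + X * C (-s1 - y))) *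
        (C m1 * (C x + X * C (s2 - x)) + C m2 * (C y + X * C (-s1 - y))) *
        (C e' * (C a1 * (C x + X * C (s2 - x)) + C a2 * (C y + X * C (-s1 - y))))) ?_ ?_ ?_ ?_ ?_
    · intro u
      rw [H, hfac, hc1, hc2, ← he']
      simp only [eval_mul, eval_add, eval_C, eval_X]
      generalize x + u * (s2 - x) = X'
      generalize y + u * (-s1 - y) = Y'
      generalize s1 * X' + s2 * Y' = s'
      generalize m1 * X' + m2 * Y' = m'
      ring
    · rw [hP]
      congr 1 <;> simp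
    · rw [hv]
      simp
    · simpa using hs
    · simp only [eval_mul, eval_add, eval_C, eval_X]
      ring
  · -- independent forms
    obtain ⟨A0, hA0⟩ := IsAlgClosed.exists_pow_nat_eq (a1 * x + a2 * y) (n := 2) (by norm_num)
    obtain ⟨B0, hB0⟩ := IsAlgClosed.exists_pow_nat_eq (b1 * x + b2 * y) (n := 2) (by norm_num)
    obtain ⟨A1, hA1⟩ := IsAlgClosed.exists_pow_nat_eq (a1 * s2 - a2 * s1) (n := 2) (by norm_num)
    obtain ⟨B1, hB1⟩ := IsAlgClosed.exists_pow_nat_eq (b1 * s2 - b2 * s1) (n := 2) (by norm_num)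
    obtain ⟨A, hA, hv⟩ : ∃ A : K, A ^ 2 = a1 * x + a2 * y ∧
        P.z = (s1 * x + s2 * y) * (m1 * x + m2 * y) * (A * B0) := by
      have h1 : P.z ^ 2 = ((s1 * x + s2 * y) * (m1 * x + m2 * y) * (A0 * B0)) ^ 2 := by
        rw [hPz, ← hA0, ← hB0]
        ring
      rcases sq_eq_sq_iff_eq_or_eq_neg.1 h1 with h2 | h2
      · exact ⟨A0, hA0, h2⟩
      · refine ⟨-A0, by rw [neg_sq, hA0], ?_⟩
        rw [h2]
        ring
    obtain ⟨D, hDD⟩ : ∃ D : K, D * (a1 * b2 - a2 * b1) = 1 := ⟨(a1 * b2 - a2 * b1)⁻¹, inv_mul_cancel₀ hdet⟩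
    -- the values of the coordinates
    have hx0 : D * (b2 * A ^ 2 - a2 * B0 ^ 2) = x := by
      rw [hA, hB0]
      linear_combination x * hDD
    have hy0 : D * (a1 * B0 ^ 2 - b1 * A ^ 2) = y := by
      rw [hA, hB0]
      linear_combination y * hDD
    have hx1 : D * (b2 * A1 ^ 2 - a2 * B1 ^ 2) = s2 := by
      rw [hA1, hB1]
      linear_combination s2 * hDD
    have hy1 : D * (a1 * B1 ^ 2 - b1 * A1 ^ 2) = -s1 := by
      rw [hA1, hB1]
      linear_combination (-s1) * hDD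
    refine fam hgh
      (C D * (C b2 * (C A + X * C (A1 - A)) ^ 2 - C a2 * (C B0 + X * C (B1 - B0)) ^ 2))
      (C D * (C a1 * (C B0 + X * C (B1 - B0)) ^ 2 - C b1 * (C A + X * C (A1 - A)) ^ 2))
      ((C s1 * (C D * (C b2 * (C A + X * C (A1 - A)) ^ 2 - C a2 * (C B0 + X * C (B1 - B0)) ^ 2)) +
        C s2 * (C D * (C a1 * (C B0 + X * C (B1 - B0)) ^ 2 - C b1 * (C A + X * C (A1 - A)) ^ 2))) *
        (C m1 * (C D * (C b2 * (C A + X * C (A1 - A)) ^ 2 - C a2 * (C B0 + X * C (B1 - B0)) ^ 2)) +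
        C m2 * (C D * (C a1 * (C B0 + X * C (B1 - B0)) ^ 2 - C b1 * (C A + X * C (A1 - A)) ^ 2))) *
        ((C A + X * C (A1 - A)) * (C B0 + X * C (B1 - B0)))) ?_ ?_ ?_ ?_ ?_
    · intro u
      rw [H, hfac]
      simp only [eval_mul, eval_add, eval_sub, eval_pow, eval_C, eval_X]
      generalize A + u * (A1 - A) = AA
      generalize B0 + u * (B1 - B0) = BB
      have e1 : a1 * (D * (b2 * AA ^ 2 - a2 * BB ^ 2)) + a2 * (D * (a1 * BB ^ 2 - b1 * AA ^ 2)) = AA ^ 2 := by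
        linear_combination AA ^ 2 * hDD
      have e2 : b1 * (D * (b2 * AA ^ 2 - a2 * BB ^ 2)) + b2 * (D * (a1 * BB ^ 2 - b1 * AA ^ 2)) = BB ^ 2 := by
        linear_combination BB ^ 2 * hDD
      rw [e1, e2]
      generalize D * (b2 * AA ^ 2 - a2 * BB ^ 2) = U
      generalize D * (a1 * BB ^ 2 - b1 * AA ^ 2) = W
      generalize s1 * U + s2 * W = s'
      generalize m1 * U + m2 * W = m'
      ring
    · rw [hP]
      simp only [eval_mul, eval_add, eval_sub, eval_pow, eval_C, eval_X, zero_mul, add_zero]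
      rw [hx0, hy0]
    · rw [hv]
      simp only [eval_mul, eval_add, eval_sub, eval_pow, eval_C, eval_X, zero_mul, add_zero]
      rw [hx0, hy0]
    · simp only [eval_mul, eval_add, eval_sub, eval_pow, eval_C, eval_X, one_mul, add_sub_cancel]
      rw [hx1, hy1]
      exact hs
    · simp only [eval_mul, eval_add, eval_sub, eval_pow, eval_C, eval_X, one_mul, add_sub_cancel]
      rw [hx1, hy1]
      ring

end H25.DP
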