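import Pool.Agent.H25.DP.Kru
import Pool.Agent.H25.DP.LinB
import Pool.Agent.H25.DP.BuildF
import Pool.Agent.H25.DP.SingX

/-! # DP.Cov : every point of the double plane lies on the elliptic surface of a frame, or its class is trivial (about 150 lines)

`exists_tan` for `p = P.p`: `c ≠ 0`, `f(c) = 0`, `p` orthogonal to `grad f c`.  `line_basis`: `g, h, s, q`, `p = x0 g + y0 h`.  If `q0 = 0` or `dis = 0`: `sing_x`.  Otherwise `build`: `r, k, l, m`.
If `P.z = 0` then `P.inv = P`: first alternative (the difference is `0`).  Let `P.z ≠ 0`.  `y0 ≠ 0` (otherwise `f(p) = 0`).  `p = C (x d + e)` with `C = y0 / m`, `x = x0 m / (k y0) - l / k`; `z² = f(p) = C^6 (s x + t)² (x³ - 3 a x - 2 b)` (`ev_smul`, `r.line` evaluated with `lin_eval`), so `s x + t ≠ 0`,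
`y = z / (C³ (s x + t))`.  `cr r.d r.e = k m cr g h ≠ 0`. -/

namespace H25.DP

open H68.BB (Om Place Rd tt)
open H77.AF

theorem cover {K0 : Type} [Field K0] [IsAlgClosed K0] {f : MvPolynomial (Fin 3) K0} (hf : Sm f) {K : Type} [Field K]
    [IsAlgClosed K] [CharZero K] [Algebra K0 K] (P : XP f K) :
    ((Finsupp.single (fun _ => P) 1 - Finsupp.single (fun _ => P.inv) 1 : Cyc (xpd K f) 1) ∈ RatEq (xpd K f) 1) ∨
      ∃ (r : Frm f K) (x y c : K), cr r.d r.e ≠ 0 ∧ c ≠ 0 ∧ y ^ 2 = x ^ 3 - 3 * r.a * x - 2 * r.b ∧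
        (∀ i, P.p i = c * (x * r.d i + r.e i)) ∧ P.z = c ^ 3 * ((r.s * x + r.t) * y) := by
  classical
  by_cases hz : P.z = 0
  · left
    have h1 : P.inv = P := by
      refine XP.ext rfl ?_
      show -P.z = P.z
      rw [hz, neg_zero]
    rw [h1]
    have h2 : ∀ A : (Fin 1 → XP f K) →₀ ℤ, (A - A : (Fin 1 → XP f K) →₀ ℤ) = 0 := fun A => sub_self A
    have h3 := h2 (Finsupp.single (fun _ => P) 1)
    exact h3 ▸ (AddSubgroup.zero_mem (RatEq (xpd K f) 1))
  obtain ⟨c, hc, hfc, hpc⟩ := exists_tan hf.hom P.p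
  obtain ⟨g, h, s1, s2, q0, q1, q2, q3, hgh, hall, H⟩ := line_basis hf hc hfc
  obtain ⟨x0, y0, hP⟩ := hall P.p hpc
  by_cases hq : q0 = 0 ∨ dis q0 q1 q2 q3 = 0
  · left
    exact sing_x hf hgh hq H hP
  push Not at hq
  right
  obtain ⟨r, k, l, m, hk, hm, hd, he⟩ := build hf hgh H hq.1 hq.2
  have hy0 : y0 ≠ 0 := by
    intro h0
    have h1 := P.eq
    rw [hP, H, h0] at h1
    have h2 : P.z ^ 2 = 0 := by rw [h1]; simp [quar]
    exact hz (pow_eq_zero_iff two_ne_zero |>.1 h2)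
  have hC : y0 / m ≠ 0 := div_ne_zero hy0 hm
  have hp : ∀ i, P.p i = (y0 / m) * (((x0 * m / y0 - l) / k) * r.d i + r.e i) := by
    intro i
    rw [hP, hd, he]
    show x0 * g i + y0 * h i = _
    field_simp
    ring
  have hz2 : P.z ^ 2 = (y0 / m) ^ 6 * ((r.s * ((x0 * m / y0 - l) / k) + r.t) ^ 2 *
      (((x0 * m / y0 - l) / k) ^ 3 - 3 * r.a * ((x0 * m / y0 - l) / k) - 2 * r.b)) := by
    have e1 : P.p = fun i => (y0 / m) * lc ((x0 * m / y0 - l) / k) 1 r.d r.e i := by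
      funext i
      rw [hp i]
      simp only [lc, one_mul]
    rw [P.eq, e1, ev_smul hf.hom, ← lin_eval, r.line]
    simp only [Polynomial.eval_mul, Polynomial.eval_add, Polynomial.eval_sub, Polynomial.eval_pow, Polynomial.eval_C,
      Polynomial.eval_X]
  have hst : r.s * ((x0 * m / y0 - l) / k) + r.t ≠ 0 := by
    intro h0
    rw [h0] at hz2
    have h2 : P.z ^ 2 = 0 := by rw [hz2]; ring
    exact hz (pow_eq_zero_iff two_ne_zero |>.1 h2)
  have hcr : cr r.d r.e = fun i => (k * m) * cr g h i := by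
    have e1 : r.d = fun i => k * g i := funext hd
    have e2 : r.e = fun i => l * g i + m * h i := funext he
    rw [e1, e2]
    funext i
    fin_cases i <;> simp [cr] <;> ring
  refine ⟨r, (x0 * m / y0 - l) / k, P.z / ((y0 / m) ^ 3 * (r.s * ((x0 * m / y0 - l) / k) + r.t)), y0 / m, ?_, hC, ?_, hp, ?_⟩
  · rw [hcr]
    intro h0
    apply hgh
    funext i
    have h1 := congrFun h0 i
    exact (mul_eq_zero.1 h1).resolve_left (mul_ne_zero hk hm)
  · rw [div_pow, hz2, div_eq_iff (pow_ne_zero 2 (mul_ne_zero (pow_ne_zero 3 hC) hst))]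
    ring
  · rw [← mul_assoc, mul_div_cancel₀]
    exact mul_ne_zero (pow_ne_zero 3 hC) hst

end H25.DP
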