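import Pool.Agent.H77.AF.Surf
import Mathlib

/-! # DP.Def : K3 surfaces of degree 2, the double planes `X : z^2 = f(p)`, `f` a smooth sextic form (definitions and trivial facts, no sorry)

`K0` is algebraically closed of characteristic zero, `K` a field containing `K0`, `Om K` the algebraic closure of `K(t)`.
The points of `X` are given by coordinate vectors `(p, z)` of `P(1,1,1,3)`. -/

namespace H25.DP

open H68.BB H77.AF Polynomial

variable {K0 : Type} [Field K0]

/-- the value of a form at a vector -/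
noncomputable def ev {F : Type} [CommRing F] [Algebra K0 F] (f : MvPolynomial (Fin 3) K0) (p : Fin 3 → F) : F :=
  MvPolynomial.aeval p f

/-- the gradient -/
noncomputable def grad {F : Type} [CommRing F] [Algebra K0 F] (f : MvPolynomial (Fin 3) K0) (p : Fin 3 → F) : Fin 3 → F :=
  fun i => ev (MvPolynomial.pderiv i f) p

/-- the cross product -/
def cr {F : Type} [CommRing F] (d e : Fin 3 → F) : Fin 3 → F :=
  ![d 1 * e 2 - d 2 * e 1, d 2 * e 0 - d 0 * e 2, d 0 * e 1 - d 1 * e 0]

/-- the linear combination `x g + y h` -/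
def lc {F : Type} [CommRing F] (x y : F) (g h : Fin 3 → F) : Fin 3 → F := fun i => x * g i + y * h i

/-- `f` is a smooth sextic form: the gradient has no nontrivial zero -/
structure Sm (f : MvPolynomial (Fin 3) K0) : Prop where
  hom : f.IsHomogeneous 6
  sm : ∀ c : Fin 3 → K0, c ≠ 0 → grad f c ≠ 0

/-- the value of the binary quartic `y (q0 x^3 + q1 x^2 y + q2 x y^2 + q3 y^3)` -/
def quar {F : Type} [CommRing F] (q0 q1 q2 q3 x y : F) : F :=
  y * (q0 * x ^ 3 + q1 * x ^ 2 * y + q2 * x * y ^ 2 + q3 * y ^ 3)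

/-- the discriminant of the cubic `q0 x^3 + q1 x^2 + q2 x + q3` -/
def dis {F : Type} [CommRing F] (q0 q1 q2 q3 : F) : F :=
  q1 ^ 2 * q2 ^ 2 - 4 * q0 * q2 ^ 3 - 4 * q1 ^ 3 * q3 - 27 * q0 ^ 2 * q3 ^ 2 + 18 * q0 * q1 * q2 * q3

/-- the polynomial `f(X d + e)` -/
noncomputable def lin {F : Type} [CommRing F] [Algebra K0 F] (f : MvPolynomial (Fin 3) K0) (d e : Fin 3 → F) : F[X] :=
  MvPolynomial.aeval (fun i => C (d i) * X + C (e i)) f

/-- points of the double plane `z^2 = f(p)` over `F`, given by coordinate vectors `(p, z)`, `p ≠ 0` -/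
@[ext] structure XP (f : MvPolynomial (Fin 3) K0) (F : Type) [Field F] [Algebra K0 F] where
  p : Fin 3 → F
  z : F
  ne : p ≠ 0
  eq : z ^ 2 = ev f p

section
variable {f : MvPolynomial (Fin 3) K0}

/-- the covering involution `(p, z) ↦ (p, - z)` -/
def XP.inv {F : Type} [Field F] [Algebra K0 F] (P : XP f F) : XP f F :=
  ⟨P.p, -P.z, P.ne, by rw [neg_sq]; exact P.eq⟩

theorem ev_map {F G : Type} [CommRing F] [Algebra K0 F] [CommRing G] [Algebra K0 G] (φ : F →ₐ[K0] G)
    (f : MvPolynomial (Fin 3) K0) (p : Fin 3 → F) : φ (ev f p) = ev f (fun i => φ (p i)) := by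
  unfold ev
  rw [← MvPolynomial.comp_aeval_apply]

theorem grad_map {F G : Type} [CommRing F] [Algebra K0 F] [CommRing G] [Algebra K0 G] (φ : F →ₐ[K0] G)
    (f : MvPolynomial (Fin 3) K0) (p : Fin 3 → F) : (fun i => φ (grad f p i)) = grad f (fun i => φ (p i)) := by
  funext i
  exact ev_map φ _ p

theorem cr_map {F G : Type} [CommRing F] [CommRing G] (φ : F →+* G) (d e : Fin 3 → F) :
    (fun i => φ (cr d e i)) = cr (fun i => φ (d i)) (fun i => φ (e i)) := by
  funext i
  fin_cases i <;> simp [cr]

theorem lin_eval {F : Type} [CommRing F] [Algebra K0 F] (f : MvPolynomial (Fin 3) K0) (d e : Fin 3 → F) (x : F) :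
    (lin f d e).eval x = ev f (lc x 1 d e) := by
  have h1 : ∀ q : F[X], q.eval x = (Polynomial.aeval x : F[X] →ₐ[F] F) q := fun q => (Polynomial.coe_aeval_eq_eval x ▸ rfl)
  have h2 := MvPolynomial.comp_aeval_apply (f := fun i => C (d i) * X + C (e i))
    (((Polynomial.aeval x : F[X] →ₐ[F] F).restrictScalars K0)) f
  rw [h1]
  unfold lin ev lc
  refine Eq.trans h2 ?_
  congr 2
  funext i
  change (Polynomial.aeval x : F[X] →ₐ[F] F) (C (d i) * X + C (e i)) = _
  rw [map_add, map_mul, Polynomial.aeval_C, Polynomial.aeval_X, Polynomial.aeval_C]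
  simp only [Algebra.algebraMap_self, RingHom.id_apply]
  ring

theorem lin_map {F G : Type} [CommRing F] [Algebra K0 F] [CommRing G] [Algebra K0 G] (φ : F →ₐ[K0] G)
    (f : MvPolynomial (Fin 3) K0) (d e : Fin 3 → F) :
    (lin f d e).map (φ : F →+* G) = lin f (fun i => φ (d i)) (fun i => φ (e i)) := by
  have h2 := MvPolynomial.comp_aeval_apply (f := fun i => C (d i) * X + C (e i)) (Polynomial.mapAlgHom φ) f
  unfold lin
  have h3 : (MvPolynomial.aeval (fun i => C (d i) * X + C (e i)) f : F[X]).map (φ : F →+* G) =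
    Polynomial.mapAlgHom φ (MvPolynomial.aeval (fun i => C (d i) * X + C (e i)) f) := rfl
  rw [h3]
  refine Eq.trans h2 ?_
  congr 2
  funext i
  change (C (d i) * X + C (e i)).map (φ : F →+* G) = _
  rw [Polynomial.map_add, Polynomial.map_mul, Polynomial.map_C, Polynomial.map_X, Polynomial.map_C]
  rfl

/-- a normalised frame of a tangent line of the sextic: the line is spanned by `d`, `e`, the point of tangency is `t d - s e` -/
@[ext] structure Frm (f : MvPolynomial (Fin 3) K0) (F : Type) [CommRing F] [Algebra K0 F] where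
  d : Fin 3 → F
  e : Fin 3 → F
  s : F
  t : F
  a : F
  b : F
  line : lin f d e = (C s * X + C t) ^ 2 * (X ^ 3 - C (3 * a) * X - C (2 * b))
  disc : b ^ 2 - a ^ 3 = 1
  grd : grad f (lc t (-s) d e) = cr d e

/-- the entries of a frame -/
def Frm.ent {F : Type} [CommRing F] [Algebra K0 F] (r : Frm f F) : Set F :=
  Set.range r.d ∪ Set.range r.e ∪ {r.s, r.t, r.a, r.b}

/-- image of a frame -/
noncomputable def Frm.map {F G : Type} [CommRing F] [Algebra K0 F] [CommRing G] [Algebra K0 G] (r : Frm f F)
    (φ : F →ₐ[K0] G) : Frm f G where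
  d := fun i => φ (r.d i)
  e := fun i => φ (r.e i)
  s := φ r.s
  t := φ r.t
  a := φ r.a
  b := φ r.b
  line := by
    rw [← lin_map, r.line]
    simp only [Polynomial.map_sub, Polynomial.map_mul, Polynomial.map_add, Polynomial.map_pow, Polynomial.map_C,
      Polynomial.map_X, RingHom.coe_coe, map_mul, map_ofNat, Polynomial.map_ofNat]
  disc := by
    have h := congrArg φ r.disc
    rw [map_sub, map_pow, map_pow, map_one] at h
    exact h
  grd := by
    have h := congrArg (fun v : Fin 3 → F => fun i => φ (v i)) r.grd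
    change (fun i => φ (grad f (lc r.t (-r.s) r.d r.e) i)) = (fun i => (φ : F →+* G) (cr r.d r.e i)) at h
    rw [grad_map, cr_map] at h
    refine Eq.trans ?_ h
    congr 1
    funext i
    simp [lc]

/-- `d`, `e` are independent at every point -/
def Frm.Nd {F : Type} [CommRing F] [Algebra K0 F] (r : Frm f F) : Prop := ∃ w : Fin 3 → F, ∑ i, w i * cr r.d r.e i = 1

theorem Frm.Nd.ne {A F : Type} [CommRing A] [Algebra K0 A] [Field F] [Algebra K0 F] {r : Frm f A} (hr : r.Nd)
    (φ : A →ₐ[K0] F) : cr (fun i => φ (r.d i)) (fun i => φ (r.e i)) ≠ 0 := by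
  obtain ⟨w, hw⟩ := hr
  intro h0
  have h1 := congrArg φ hw
  rw [map_sum, map_one] at h1
  have h2 := cr_map (φ : A →+* F) r.d r.e
  have h3 : ∀ i, φ (cr r.d r.e i) = 0 := fun i => by
    have h4 := congrFun h2 i
    change φ (cr r.d r.e i) = cr (fun i => φ (r.d i)) (fun i => φ (r.e i)) i at h4
    rw [h4, h0]
    rfl
  simp only [map_mul, h3, mul_zero, Finset.sum_const_zero] at h1
  exact zero_ne_one h1

theorem cr_lc {F : Type} [CommRing F] (x : F) (d e : Fin 3 → F) (h : lc x 1 d e = 0) : cr d e = 0 := by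
  have h1 : ∀ i, e i = -x * d i := fun i => by
    have h2 := congrFun h i
    simp only [lc, Pi.zero_apply, one_mul] at h2
    linear_combination h2
  funext i
  fin_cases i <;> simp [cr, h1] <;> ring

/-- the map from the elliptic surface of the frame to the double plane -/
noncomputable def toX {A F : Type} [CommRing A] [Algebra K0 A] [Field F] [Algebra K0 F] (r : Frm f A) (hr : r.Nd)
    (P : SP K0 A F r.a r.b) : XP f F where
  p := lc P.x 1 (fun i => P.φ (r.d i)) (fun i => P.φ (r.e i))
  z := (P.φ r.s * P.x + P.φ r.t) * P.y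
  ne := fun h => hr.ne P.φ (cr_lc _ _ _ h)
  eq := by
    have h1 : lin f (fun i => P.φ (r.d i)) (fun i => P.φ (r.e i)) =
      (C (P.φ r.s) * X + C (P.φ r.t)) ^ 2 * (X ^ 3 - C (3 * P.φ r.a) * X - C (2 * P.φ r.b)) := (r.map P.φ).line
    rw [← lin_eval, h1, mul_pow, P.eq]
    simp only [eval_mul, eval_add, eval_sub, eval_pow, eval_C, eval_X]

/-- the point data of the double plane: every point specialises at every place -/
noncomputable def xpd (K : Type) [Field K] [Algebra K0 K] (f : MvPolynomial (Fin 3) K0) : PD K where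
  X := XP f K
  Y := XP f (Om K)
  act σ P :=
    { p := fun i => σ (P.p i)
      z := σ P.z
      ne := fun h => P.ne (by
        funext i
        have h1 := congrFun h i
        exact (map_eq_zero_iff σ σ.injective).1 h1)
      eq := by
        have h1 := congrArg σ P.eq
        rw [map_pow] at h1
        rw [h1]
        exact ev_map (σ.toAlgHom.restrictScalars K0) f P.p }
  sp π P p := ∃ c : Om K, c ≠ 0 ∧ (∀ i, Rd π.V π.φ (c * P.p i) (p.p i)) ∧ Rd π.V π.φ (c ^ 3 * P.z) p.z
  off _ _ := False
  cst p :=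
    { p := fun i => algebraMap K (Om K) (p.p i)
      z := algebraMap K (Om K) p.z
      ne := fun h => p.ne (by
        funext i
        have h1 := congrFun h i
        exact (map_eq_zero_iff (algebraMap K (Om K)) (algebraMap K (Om K)).injective).1 h1)
      eq := by
        have h1 := congrArg (algebraMap K (Om K)) p.eq
        rw [map_pow] at h1
        rw [h1]
        exact ev_map (IsScalarTower.toAlgHom K0 K (Om K)) f p.p }
  act_cst := fun σ p => by
    have h : ∀ c : K, σ (algebraMap K (Om K) c) = algebraMap K (Om K) c := fun c => by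
      rw [IsScalarTower.algebraMap_apply K (RatFunc K) (Om K), AlgEquiv.commutes]
    refine XP.ext ?_ (h _)
    funext i
    exact h (p.p i)
  sp_cst := fun π p => ⟨1, one_ne_zero, fun i => by rw [one_mul]; exact π.const (p.p i),
    by rw [one_pow, one_mul]; exact π.const p.z⟩

/-- the zero-cycle `P - ι P` on `X` -/
noncomputable def aX {K : Type} [Field K] [Algebra K0 K] (P : XP f K) : Cyc1 (xpd K f) :=
  Finsupp.single P 1 - Finsupp.single P.inv 1

/-- the zero-cycle `(P_0 - ι P_0) × ... × (P_(k-1) - ι P_(k-1))` on `X^k` -/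
noncomputable def pr {K : Type} [Field K] [Algebra K0 K] {k : ℕ} (P : Fin k → XP f K) : Cyc (xpd K f) k :=
  ∑ J : Finset (Fin k), (-1 : ℤ) ^ J.card • Finsupp.single (fun i => if i ∈ J then (P i).inv else P i) 1

/-- the antisymmetrised product of the `P_i - ι P_i` -/
noncomputable def alt {K : Type} [Field K] [Algebra K0 K] {k : ℕ} (P : Fin k → XP f K) : Cyc (xpd K f) k :=
  ∑ σ : Equiv.Perm (Fin k), (Equiv.Perm.sign σ : ℤ) • pr (fun i => P (σ i))

end

end H25.DP
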