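import Pool.Agent.H25.DP.Def

/-! # DP.Sat : a saturated triangular basis of a line over a valuation ring (about 180 lines)

`V` a valuation subring of `F`, `φ : V → κ` local.  `Rd V φ x a` : `x ∈ V` and `φ x = a` (`H68.BB.Red`, with the lemmas `Rd.add`, `Rd.mul`, `Rd.of_mem`, ...).
Proof: choose `i` such that `d i ≠ 0` and `d j / d i ∈ V` for all `j` (exists: `V.mem_or_inv_mem`, three elements), `g = d / d i`, `k = d i`.  `e' = e - (e i) g` has `e' i = 0` and is nonzero (`cr d e ≠ 0`); choose `j` with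
`e' j ≠ 0` and `e' l / e' j ∈ V` for all `l`; `h = e' / e' j`, `l = e i`, `m = e' j`.  The reductions: `g' i = 1`, `h' i = 0`, `h' j = 1`, so the coordinate of `cr g' h'` with the indices `i, j` is `1` or `-1`.  If `d`, `e` are integral: `k = d i`, `l = e i`, `m = e j - e i g j`. -/

namespace H25.DP

open H68.BB

private theorem sat_max {F : Type} [Field F] (V : ValuationSubring F) {v : Fin 3 → F} (hv : v ≠ 0) :
    ∃ i, v i ≠ 0 ∧ ∀ j, v j / v i ∈ V := by
  obtain ⟨i, hi⟩ := Finite.exists_max (fun j => V.valuation (v j))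
  have hi0 : v i ≠ 0 := by
    intro h
    apply hv
    funext j
    have h1 := hi j
    rw [h, map_zero] at h1
    have h2 : V.valuation (v j) = 0 := le_antisymm h1 zero_le
    exact (map_eq_zero V.valuation).1 h2
  refine ⟨i, hi0, fun j => ?_⟩
  rw [← ValuationSubring.valuation_le_one_iff, map_div₀]
  have h3 : V.valuation (v i) ≠ 0 := (map_ne_zero V.valuation).2 hi0
  exact div_le_one_of_le₀ (hi j) zero_le

private theorem sat_minor {κ : Type} [Field κ] {a b : Fin 3 → κ} (hc : cr a b = 0) (i j : Fin 3) :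
    a i * b j - a j * b i = 0 := by
  have c0 : a 1 * b 2 - a 2 * b 1 = 0 := congrFun hc 0
  have c1 : a 2 * b 0 - a 0 * b 2 = 0 := congrFun hc 1
  have c2 : a 0 * b 1 - a 1 * b 0 = 0 := congrFun hc 2
  fin_cases i <;> fin_cases j
  · show a 0 * b 0 - a 0 * b 0 = 0
    ring
  · exact c2
  · show a 0 * b 2 - a 2 * b 0 = 0
    linear_combination -c1
  · show a 1 * b 0 - a 0 * b 1 = 0
    linear_combination -c2
  · show a 1 * b 1 - a 1 * b 1 = 0
    ring
  · exact c0
  · exact c1
  · show a 2 * b 1 - a 1 * b 2 = 0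
    linear_combination -c0
  · show a 2 * b 2 - a 2 * b 2 = 0
    ring

theorem sat {F κ : Type} [Field F] [Field κ] (V : ValuationSubring F) (φ : V →+* κ) [IsLocalHom φ] {d e : Fin 3 → F}
    (hde : cr d e ≠ 0) :
    ∃ (g h : Fin 3 → F) (g' h' : Fin 3 → κ) (k l m : F), (∀ i, Rd V φ (g i) (g' i)) ∧ (∀ i, Rd V φ (h i) (h' i)) ∧
      cr g' h' ≠ 0 ∧ k ≠ 0 ∧ m ≠ 0 ∧ (∀ i, d i = k * g i) ∧ (∀ i, e i = l * g i + m * h i) ∧
      ((∀ i, d i ∈ V) → (∀ i, e i ∈ V) → k ∈ V ∧ l ∈ V ∧ m ∈ V) := by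
  have hd : d ≠ 0 := by
    rintro rfl
    apply hde
    funext i
    fin_cases i <;> simp [cr]
  obtain ⟨i, hi0, hiV⟩ := sat_max V hd
  set g : Fin 3 → F := fun a => d a / d i with hg
  have hdg : ∀ a, d a = d i * g a := by
    intro a
    rw [hg]
    field_simp
  have hgi : g i = 1 := div_self hi0
  set e' : Fin 3 → F := fun a => e a - e i * g a with he'
  have he'i : e' i = 0 := by
    rw [he']
    simp only
    rw [hgi, mul_one, sub_self]
  have he'0 : e' ≠ 0 := by
    intro h
    apply hde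
    have h1 : ∀ a, e a = e i * g a := fun a => by
      have := congrFun h a
      exact sub_eq_zero.1 this
    funext a
    fin_cases a
    · show d 1 * e 2 - d 2 * e 1 = 0
      rw [h1 2, h1 1, hdg 1, hdg 2]
      ring
    · show d 2 * e 0 - d 0 * e 2 = 0
      rw [h1 2, h1 0, hdg 0, hdg 2]
      ring
    · show d 0 * e 1 - d 1 * e 0 = 0
      rw [h1 0, h1 1, hdg 1, hdg 0]
      ring
  obtain ⟨j, hj0, hjV⟩ := sat_max V he'0
  set h : Fin 3 → F := fun a => e' a / e' j with hh
  have hhj : h j = 1 := div_self hj0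
  have hhi : h i = 0 := by
    rw [hh]
    simp only
    rw [he'i, zero_div]
  have hij : i ≠ j := by
    rintro rfl
    exact hj0 he'i
  refine ⟨g, h, fun a => φ ⟨g a, hiV a⟩, fun a => φ ⟨h a, hjV a⟩, d i, e i, e' j,
    fun a => ⟨hiV a, rfl⟩, fun a => ⟨hjV a, rfl⟩, ?_, hi0, hj0, hdg, ?_, ?_⟩
  · have g1 : φ ⟨g i, hiV i⟩ = 1 := by
      rw [← map_one φ]
      congr 1
      exact Subtype.ext hgi
    have h1 : φ ⟨h j, hjV j⟩ = 1 := by
      rw [← map_one φ]
      congr 1
      exact Subtype.ext hhj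
    have h0 : φ ⟨h i, hjV i⟩ = 0 := by
      rw [← map_zero φ]
      congr 1
      exact Subtype.ext hhi
    intro hc
    have h5 := sat_minor hc i j
    rw [g1, h1, h0, mul_zero, sub_zero, mul_one] at h5
    exact one_ne_zero h5
  · intro a
    have h2 : e' j * h a = e' a := by
      rw [hh]
      field_simp
    rw [h2, he']
    ring
  · intro hdV heV
    refine ⟨hdV i, heV i, ?_⟩
    exact V.sub_mem (heV j) (V.mul_mem _ _ (heV i) (hiV j))

/-- the reduction of the cross product -/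
theorem rd_cr {F κ : Type} [Field F] [Field κ] {V : ValuationSubring F} {φ : V →+* κ} {g h : Fin 3 → F}
    {g' h' : Fin 3 → κ} (hg : ∀ i, Rd V φ (g i) (g' i)) (hh : ∀ i, Rd V φ (h i) (h' i)) (i : Fin 3) :
    Rd V φ (cr g h i) (cr g' h' i) := by
  fin_cases i
  · exact ((hg 1).mul (hh 2)).sub ((hg 2).mul (hh 1))
  · exact ((hg 2).mul (hh 0)).sub ((hg 0).mul (hh 2))
  · exact ((hg 0).mul (hh 1)).sub ((hg 1).mul (hh 0))

/-- the reduction of the value of a form with constant coefficients -/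
theorem rd_ev {K0 F κ : Type} [Field K0] [Field F] [Field κ] [Algebra K0 F] [Algebra K0 κ] {V : ValuationSubring F}
    {φ : V →+* κ} (hc : ∀ c : K0, Rd V φ (algebraMap K0 F c) (algebraMap K0 κ c)) (f : MvPolynomial (Fin 3) K0)
    {g : Fin 3 → F} {g' : Fin 3 → κ} (hg : ∀ i, Rd V φ (g i) (g' i)) : Rd V φ (ev f g) (ev f g') := by
  unfold ev
  induction f using MvPolynomial.induction_on with
  | C c =>
    rw [MvPolynomial.aeval_C, MvPolynomial.aeval_C]
    exact hc c
  | add p q hp hq =>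
    rw [map_add, map_add]
    exact hp.add hq
  | mul_X p i hp =>
    rw [map_mul, map_mul, MvPolynomial.aeval_X, MvPolynomial.aeval_X]
    exact hp.mul (hg i)

end H25.DP
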