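import Pool.Agent.H25.DP.SmF
import Pool.Agent.H25.DP.Tang
import Pool.Agent.H25.DP.LinF
import Pool.Agent.H25.DP.Sat

/-! # DP.Fac : the normal form of a frame over a valuation ring (about 250 lines)

`gau` (Gauss; `V` any subring, use `V.toSubring` for the valuation subring): `s2 = 1`: the coefficients of `q` from below (`coeff 0`: `s2 q_0`, `coeff (n+1)`: `s1 q_n + s2 q_(n+1)`); `s1 = 1`: from above (strong downward induction from the degree, `q_n = coeff (n+1) - s2 q_(n+1)`).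

`fac`: a frame `r` over `F` and a basis `g`, `h` of its line with entries in `V`, `d = k g`, `e = l g + m h`.  Put `S1 = s / k`, `S2 = t / m - s l / (k m)`; not both are zero (otherwise `s = t = 0`, `lc t (-s) d e = 0`,
`grad f 0 = 0` by homogeneity, contradiction to `r.grd` and `cr d e ≠ 0`).  `ρ` = the one of `S1`, `S2` which divides the other in `V`, `S1 = ρ s1`, `S2 = ρ s2`.  Then `s = ρ s1 k`, `t = ρ (s1 l + s2 m)`.
`q0 = ρ² / (m k³)`, `q1 = - 3 l q0 / m`, `q2`, `q3` from the two equations with `a`, `b`.  The identity for `f` on `x g + y h`: `x g + y h = α d + β e` with `β = y / m`, `α = (x - l y / m) / k`; use `lin_fun` (`F` infinite: it contains `K0`).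
`q_i ∈ V`: the polynomial `lin f g h` has coefficients in `V` (`g`, `h`, `K0` in `V`; e.g. it is the image of a polynomial over the subring `V`), equals `(C s1 * X + C s2) ^ 2 * (C q0 * X ^ 3 + ...)` (`Polynomial.funext`), `gau` twice.
Discriminant: `q0² dis(q) (m k)^12 = -108 ρ^12`: insert the formulas for `q0..q3`, `b² - a³ = 1` (checked by computer algebra; `field_simp`, `linear_combination (108 * ρ ^ 12) * r.disc` up to sign).
Gradient: `lc t (-s) d e = ρ k m (lc s2 (-s1) g h)`, `grad_smul`: `(ρ k m)^5 grad f (lc s2 (-s1) g h) = cr d e = k m cr g h`, so `θ = 1 / (ρ ^ 5 * (k * m) ^ 4)`. -/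

namespace H25.DP

open H68.BB Polynomial

private theorem fac_cf {F : Type} [Field F] (s1 s2 : F) (q : F[X]) (n : ℕ) :
    ((C s1 * X + C s2) * q).coeff (n + 1) = s1 * q.coeff n + s2 * q.coeff (n + 1) := by
  have h : (C s1 * X + C s2) * q = C s1 * (q * X) + C s2 * q := by ring
  rw [h, coeff_add, coeff_C_mul, coeff_C_mul, coeff_mul_X]

private theorem fac_cf0 {F : Type} [Field F] (s1 s2 : F) (q : F[X]) :
    ((C s1 * X + C s2) * q).coeff 0 = s2 * q.coeff 0 := by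
  have h : (C s1 * X + C s2) * q = C s1 * (q * X) + C s2 * q := by ring
  rw [h, coeff_add, coeff_C_mul, coeff_C_mul, mul_coeff_zero, coeff_X_zero, mul_zero, mul_zero, zero_add]

theorem gau {F : Type} [Field F] {V : Subring F} {s1 s2 : F} (h1 : s1 ∈ V) (h2 : s2 ∈ V) (h : s1 = 1 ∨ s2 = 1)
    {q : F[X]} (H : ∀ n, ((C s1 * X + C s2) * q).coeff n ∈ V) (n : ℕ) : q.coeff n ∈ V := by
  rcases h with h | h
  · have key : ∀ j n : ℕ, q.natDegree < n + j → q.coeff n ∈ V := by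
      intro j
      induction j with
      | zero =>
        intro n hn
        rw [coeff_eq_zero_of_natDegree_lt (by simpa using hn)]
        exact V.zero_mem
      | succ j ih =>
        intro n hn
        have h3 := ih (n + 1) (by omega)
        have h4 := H (n + 1)
        rw [fac_cf, h, one_mul] at h4
        have h5 := V.sub_mem h4 (V.mul_mem h2 h3)
        rwa [add_sub_cancel_right] at h5
    exact key (q.natDegree + 1) n (by omega)
  · induction n with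
    | zero =>
      have h4 := H 0
      rwa [fac_cf0, h, one_mul] at h4
    | succ n ih =>
      have h4 := H (n + 1)
      rw [fac_cf, h, one_mul] at h4
      have h5 := V.sub_mem h4 (V.mul_mem h1 ih)
      rwa [add_sub_cancel_left] at h5

/-- the coefficients of `f(X g + h)` are in the subring -/
private theorem fac_lin {K0 F : Type} [Field K0] [Field F] [Algebra K0 F] {V : Subring F}
    (hc : ∀ c : K0, algebraMap K0 F c ∈ V) {g h : Fin 3 → F} (hg : ∀ i, g i ∈ V) (hh : ∀ i, h i ∈ V)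
    (f : MvPolynomial (Fin 3) K0) (n : ℕ) : (lin f g h).coeff n ∈ V := by
  revert n
  unfold lin
  induction f using MvPolynomial.induction_on with
  | C c =>
    intro n
    rw [MvPolynomial.aeval_C, Polynomial.algebraMap_apply, coeff_C]
    split_ifs
    · exact hc c
    · exact V.zero_mem
  | add p q hp hq =>
    intro n
    rw [map_add, coeff_add]
    exact V.add_mem (hp n) (hq n)
  | mul_X p i hp =>
    intro n
    rw [map_mul, MvPolynomial.aeval_X, mul_comm]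
    cases n with
    | zero =>
      rw [fac_cf0]
      exact V.mul_mem (hh i) (hp 0)
    | succ n =>
      rw [fac_cf]
      exact V.add_mem (V.mul_mem (hg i) (hp n)) (V.mul_mem (hh i) (hp (n + 1)))

/-- the choice of `ρ` -/
private theorem fac_rho {F : Type} [Field F] (V : ValuationSubring F) {S1 S2 : F} (h : ¬ (S1 = 0 ∧ S2 = 0)) :
    ∃ ρ s1 s2 : F, ρ ≠ 0 ∧ s1 ∈ V ∧ s2 ∈ V ∧ (s1 = 1 ∨ s2 = 1) ∧ S1 = ρ * s1 ∧ S2 = ρ * s2 := by
  by_cases h1 : S1 = 0
  · have h2 : S2 ≠ 0 := fun h2 => h ⟨h1, h2⟩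
    exact ⟨S2, 0, 1, h2, V.zero_mem, V.one_mem, Or.inr rfl, by rw [h1, mul_zero], by rw [mul_one]⟩
  · rcases V.mem_or_inv_mem (S2 / S1) with h2 | h2
    · exact ⟨S1, 1, S2 / S1, h1, V.one_mem, h2, Or.inl rfl, by rw [mul_one], by field_simp⟩
    · by_cases h3 : S2 = 0
      · exact ⟨S1, 1, 0, h1, V.one_mem, V.zero_mem, Or.inl rfl, by rw [mul_one], by rw [h3, mul_zero]⟩
      · rw [inv_div] at h2
        exact ⟨S2, S1 / S2, 1, h3, h2, V.one_mem, Or.inr rfl, by field_simp, by rw [mul_one]⟩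

theorem fac {K0 : Type} [Field K0] [IsAlgClosed K0] [CharZero K0] {f : MvPolynomial (Fin 3) K0} (hf : Sm f) {F : Type}
    [Field F] [Algebra K0 F] {V : ValuationSubring F} (hc : ∀ c : K0, algebraMap K0 F c ∈ V) (r : Frm f F)
    (hr : cr r.d r.e ≠ 0) {g h : Fin 3 → F} {k l m : F} (hg : ∀ i, g i ∈ V) (hh : ∀ i, h i ∈ V) (hk : k ≠ 0) (hm : m ≠ 0)
    (hd : ∀ i, r.d i = k * g i) (he : ∀ i, r.e i = l * g i + m * h i) :
    ∃ s1 s2 q0 q1 q2 q3 ρ θ : F, (s1 ∈ V ∧ s2 ∈ V ∧ (s1 = 1 ∨ s2 = 1)) ∧ (q0 ∈ V ∧ q1 ∈ V ∧ q2 ∈ V ∧ q3 ∈ V) ∧ ρ ≠ 0 ∧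
      (∀ x y : F, ev f (lc x y g h) = (s1 * x + s2 * y) ^ 2 * quar q0 q1 q2 q3 x y) ∧
      r.s = ρ * s1 * k ∧ r.t = ρ * (s1 * l + s2 * m) ∧
      m * k ^ 3 * q0 = ρ ^ 2 ∧ m * q1 = -3 * l * q0 ∧
      m * (3 * q0 * k * l ^ 2 + 2 * q1 * k * l * m + q2 * k * m ^ 2) = -3 * r.a * ρ ^ 2 ∧
      m * (q0 * l ^ 3 + q1 * l ^ 2 * m + q2 * l * m ^ 2 + q3 * m ^ 3) = -2 * r.b * ρ ^ 2 ∧
      q0 ^ 2 * dis q0 q1 q2 q3 * (m * k) ^ 12 = -108 * ρ ^ 12 ∧
      (∀ i, grad f (lc s2 (-s1) g h) i = θ * cr g h i) ∧ ρ ^ 5 * (k * m) ^ 4 * θ = 1 := by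
  have hinf : Infinite F := Infinite.of_injective (algebraMap K0 F) (algebraMap K0 F).injective
  -- the cross product
  have hcr : ∀ i, cr r.d r.e i = k * m * cr g h i := by
    intro i
    fin_cases i <;> simp only [cr, hd, he, Matrix.cons_val_zero, Matrix.cons_val_one, Matrix.cons_val, Fin.mk_one,
      Fin.zero_eta, Fin.reduceFinMk, Fin.isValue] <;> ring
  have hS : ¬ (r.s / k = 0 ∧ r.t / m - r.s * l / (k * m) = 0) := by
    rintro ⟨h1, h2⟩
    have hs : r.s = 0 := by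
      rcases div_eq_zero_iff.1 h1 with h | h
      · exact h
      · exact absurd h hk
    have ht : r.t = 0 := by
      rw [hs, zero_mul, zero_div, sub_zero] at h2
      rcases div_eq_zero_iff.1 h2 with h | h
      · exact h
      · exact absurd h hm
    apply hr
    rw [← r.grd, hs, ht]
    funext i
    have h3 := grad_smul (n := 5) hf.hom (0 : F) (lc 0 (-0) r.d r.e) i
    have h4 : (fun j => (0 : F) * lc 0 (-0) r.d r.e j) = lc 0 (-0) r.d r.e := by
      funext j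
      simp [lc]
    rw [h4, zero_pow (by norm_num), zero_mul] at h3
    exact h3
  obtain ⟨ρ, s1, s2, hρ, hs1, hs2, h12, hS1, hS2⟩ := fac_rho V hS
  have hs : r.s = ρ * s1 * k := by
    rw [← hS1]
    field_simp
  have ht : r.t = ρ * (s1 * l + s2 * m) := by
    have h1 : r.t = (r.s / k) * l + (r.t / m - r.s * l / (k * m)) * m := by
      field_simp
      ring
    rw [h1, hS1, hS2]
    ring
  have hfun : ∀ x y : F, ev f (lc x y g h) = (s1 * x + s2 * y) ^ 2 *
      quar (ρ ^ 2 / (m * k ^ 3)) (-3 * l * ρ ^ 2 / (m ^ 2 * k ^ 3))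
        (ρ ^ 2 * (3 * l ^ 2 / (k ^ 3 * m ^ 3) - 3 * r.a / (k * m ^ 3)))
        (ρ ^ 2 / m * (-l ^ 3 / (k ^ 3 * m ^ 3) + 3 * r.a * l / (k * m ^ 3) - 2 * r.b / m ^ 3)) x y := by
    intro x y
    have h1 : lc x y g h = lc ((m * x - l * y) / (k * m)) (y / m) r.d r.e := by
      funext i
      simp only [lc, hd, he]
      field_simp
      ring
    rw [h1, lin_fun hf.hom r.line, hs, ht]
    simp only [quar]
    field_simp
    ring
  refine ⟨s1, s2, ρ ^ 2 / (m * k ^ 3), -3 * l * ρ ^ 2 / (m ^ 2 * k ^ 3),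
    ρ ^ 2 * (3 * l ^ 2 / (k ^ 3 * m ^ 3) - 3 * r.a / (k * m ^ 3)),
    ρ ^ 2 / m * (-l ^ 3 / (k ^ 3 * m ^ 3) + 3 * r.a * l / (k * m ^ 3) - 2 * r.b / m ^ 3), ρ, (ρ ^ 5 * (k * m) ^ 4)⁻¹,
    ⟨hs1, hs2, h12⟩, ?_, hρ, hfun, hs, ht, ?_, ?_, ?_, ?_, ?_, ?_, ?_⟩
  · -- integrality
    generalize ρ ^ 2 / (m * k ^ 3) = q0 at hfun ⊢
    generalize -3 * l * ρ ^ 2 / (m ^ 2 * k ^ 3) = q1 at hfun ⊢
    generalize ρ ^ 2 * (3 * l ^ 2 / (k ^ 3 * m ^ 3) - 3 * r.a / (k * m ^ 3)) = q2 at hfun ⊢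
    generalize ρ ^ 2 / m * (-l ^ 3 / (k ^ 3 * m ^ 3) + 3 * r.a * l / (k * m ^ 3) - 2 * r.b / m ^ 3) = q3 at hfun ⊢
    have h1 : lin f g h = (C s1 * X + C s2) * ((C s1 * X + C s2) * (C q0 * X ^ 3 + C q1 * X ^ 2 + C q2 * X + C q3)) := by
      refine Polynomial.funext fun x => ?_
      rw [lin_eval, hfun]
      simp only [quar, eval_mul, eval_add, eval_C, eval_X, eval_pow]
      ring
    have h2 : ∀ n, (lin f g h).coeff n ∈ V.toSubring := fac_lin (V := V.toSubring) hc hg hh f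
    rw [h1] at h2
    have h3 := gau (V := V.toSubring) hs1 hs2 h12 h2
    have h4 := gau (V := V.toSubring) hs1 hs2 h12 h3
    have c0 : (C q0 * X ^ 3 + C q1 * X ^ 2 + C q2 * X + C q3).coeff 3 = q0 := by
      simp [coeff_X, coeff_C]
    have c1 : (C q0 * X ^ 3 + C q1 * X ^ 2 + C q2 * X + C q3).coeff 2 = q1 := by
      simp [coeff_X, coeff_C, coeff_X_pow]
    have c2 : (C q0 * X ^ 3 + C q1 * X ^ 2 + C q2 * X + C q3).coeff 1 = q2 := by
      simp [coeff_X, coeff_C, coeff_X_pow]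
    have c3 : (C q0 * X ^ 3 + C q1 * X ^ 2 + C q2 * X + C q3).coeff 0 = q3 := by
      simp [coeff_X, coeff_C, coeff_X_pow]
    exact ⟨c0 ▸ h4 3, c1 ▸ h4 2, c2 ▸ h4 1, c3 ▸ h4 0⟩
  · field_simp
  · field_simp
  · field_simp
    ring
  · field_simp
    ring
  · have h1 : r.b ^ 2 = 1 + r.a ^ 3 := by
      linear_combination r.disc
    have h2 : (ρ ^ 2 / (m * k ^ 3)) ^ 2 * dis (ρ ^ 2 / (m * k ^ 3)) (-3 * l * ρ ^ 2 / (m ^ 2 * k ^ 3))
        (ρ ^ 2 * (3 * l ^ 2 / (k ^ 3 * m ^ 3) - 3 * r.a / (k * m ^ 3)))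
        (ρ ^ 2 / m * (-l ^ 3 / (k ^ 3 * m ^ 3) + 3 * r.a * l / (k * m ^ 3) - 2 * r.b / m ^ 3)) * (m * k) ^ 12 =
        -108 * ρ ^ 12 * (r.b ^ 2 - r.a ^ 3) := by
      simp only [dis]
      field_simp
      ring
    rw [h2, r.disc, mul_one]
  · intro i
    have h1 : (fun j => (ρ * k * m) * lc s2 (-s1) g h j) = lc r.t (-r.s) r.d r.e := by
      funext j
      simp only [lc, hd, he, hs, ht]
      ring
    have h2 := grad_smul (n := 5) hf.hom (ρ * k * m) (lc s2 (-s1) g h) i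
    rw [h1, r.grd, hcr] at h2
    have h3 : (ρ * k * m) ^ 5 ≠ 0 := pow_ne_zero _ (mul_ne_zero (mul_ne_zero hρ hk) hm)
    apply mul_left_cancel₀ h3
    rw [← h2]
    field_simp
  · exact mul_inv_cancel₀ (mul_ne_zero (pow_ne_zero _ hρ) (pow_ne_zero _ (mul_ne_zero hk hm)))

end H25.DP
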