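import Mathlib

/-! # DP.KrH : a component of a system with fewer equations than variables is not a point (MATHLIB only)

`p` a minimal prime over an ideal generated by `n` polynomials in `n + 1` variables over an algebraically closed field.  Suppose `p` is maximal.  By the Nullstellensatz `p` is the ideal of a point `x0` (`MvPolynomial.isMaximal_iff_eq_vanishingIdeal_singleton`), and all maximal ideals
are conjugate under translations, so all of them have the height of `p`, which is at most `n` by Krull's height theorem (`Ideal.height_le_card_of_mem_minimalPrimes_span_finset`); but the Krull dimension of the ring is `n + 1`. -/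

namespace H25.DP

open MvPolynomial

/-- translation of the variables -/
private noncomputable def krhT {K : Type} [Field K] {m : ℕ} (x : Fin m → K) :
    MvPolynomial (Fin m) K ≃+* MvPolynomial (Fin m) K :=
  (AlgEquiv.ofAlgHom (aeval (fun i => X i + C (x i)) : MvPolynomial (Fin m) K →ₐ[K] MvPolynomial (Fin m) K)
    (aeval (fun i => X i - C (x i)) : MvPolynomial (Fin m) K →ₐ[K] MvPolynomial (Fin m) K)
    (by ext i : 1; simp [← algebraMap_eq]) (by ext i : 1; simp [← algebraMap_eq])).toRingEquiv

private theorem krh_eval {K : Type} [Field K] {m : ℕ} (x y : Fin m → K) (f : MvPolynomial (Fin m) K) :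
    eval y (krhT x f) = eval (fun i => y i + x i) f := by
  have h : krhT x f = aeval (fun i => X i + C (x i)) f := rfl
  rw [h]
  induction f using MvPolynomial.induction_on with
  | C a => simp [← algebraMap_eq]
  | add p q hp hq => simp only [map_add, hp rfl, hq rfl]
  | mul_X p i hp => simp only [map_mul, hp rfl, aeval_X, map_add, eval_X, eval_C]

private theorem krh_height {K : Type} [Field K] {m : ℕ} (x y : Fin m → K) :
    (vanishingIdeal K {x}).height = (vanishingIdeal K {y}).height := by
  rw [← RingEquiv.height_comap (krhT (fun i => x i - y i)) (vanishingIdeal K {y})]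
  congr 1
  ext f
  rw [Ideal.mem_comap, mem_vanishingIdeal_singleton_iff, mem_vanishingIdeal_singleton_iff]
  have h := krh_eval (fun i => x i - y i) y f
  have h2 : (fun i => y i + (x i - y i)) = x := by
    funext i
    ring
  rw [h2] at h
  have e : ∀ (z : Fin m → K) (q : MvPolynomial (Fin m) K), aeval z q = eval z q := by
    intro z q
    rw [← coe_aeval_eq_eval]
    rfl
  rw [e, e]
  exact (show eval y (krhT (fun i => x i - y i) f) = eval x f from h) ▸ Iff.rfl

theorem not_max {K : Type} [Field K] [IsAlgClosed K] {n : ℕ} (g : Fin n → MvPolynomial (Fin (n + 1)) K)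
    {p : Ideal (MvPolynomial (Fin (n + 1)) K)} (hp : p ∈ (Ideal.span (Set.range g)).minimalPrimes) : ¬ p.IsMaximal := by
  intro hmax
  classical
  have hcard : p.height ≤ n := by
    have h := Ideal.height_le_card_of_mem_minimalPrimes_span_finset (p := p) (s := Finset.image g Finset.univ)
      (by simpa using hp)
    refine h.trans ?_
    have h2 : (Finset.image g Finset.univ).card ≤ n := Finset.card_image_le.trans (by simp)
    exact_mod_cast h2
  obtain ⟨x, hx⟩ := isMaximal_iff_eq_vanishingIdeal_singleton.1 hmax
  have hdim : ringKrullDim (MvPolynomial (Fin (n + 1)) K) ≤ ((n : ℕ∞) : WithBot ℕ∞) := by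
    rw [ringKrullDim_le_iff_isMaximal_height_le]
    intro m hm
    obtain ⟨y, hy⟩ := isMaximal_iff_eq_vanishingIdeal_singleton.1 hm
    rw [hy, krh_height y x, ← hx]
    exact_mod_cast hcard
  rw [MvPolynomial.ringKrullDim_of_isNoetherianRing, ringKrullDim_eq_zero_of_field] at hdim
  simp only [Nat.card_eq_fintype_card, Fintype.card_fin, zero_add] at hdim
  have h3 : ((n + 1 : ℕ) : WithBot ℕ∞) ≤ ((n : ℕ) : WithBot ℕ∞) := by exact_mod_cast hdim
  have h4 : n + 1 ≤ n := by exact_mod_cast h3
  omega

end H25.DP
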