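import Pool.Agent.H25.DP.Def
import Pool.Agent.H67.KH.Krull

/-! # DP.Kru : every point lies on a tangent line (about 80 lines; given `H67.KH.krull`)

Two forms `f`, `∑ p_i ∂_i f` of positive degree in three variables over the algebraically closed field `K` (images of polynomials over `K0` under `MvPolynomial.map (algebraMap K0 K)`) have a common nontrivial zero: `H67.KH.krull` (`n = 2`). -/

namespace H25.DP

private theorem kru_zero {K0 : Type} [Field K0] {n : ℕ} (hn : n ≠ 0) {f : MvPolynomial (Fin 3) K0} (hf : f.IsHomogeneous n)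
    {K : Type} [Field K] [Algebra K0 K] : MvPolynomial.eval (0 : Fin 3 → K) (MvPolynomial.map (algebraMap K0 K) f) = 0 := by
  rw [MvPolynomial.eval_zero, MvPolynomial.constantCoeff_eq, MvPolynomial.coeff_map, hf.coeff_eq_zero, map_zero]
  rw [map_zero]
  exact hn.symm

theorem exists_tan {K0 : Type} [Field K0] {f : MvPolynomial (Fin 3) K0} (hf : f.IsHomogeneous 6) {K : Type} [Field K]
    [IsAlgClosed K] [Algebra K0 K] (p : Fin 3 → K) :
    ∃ c : Fin 3 → K, c ≠ 0 ∧ ev f c = 0 ∧ ∑ i, p i * grad f c i = 0 := by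
  obtain ⟨c, hc, h⟩ := H67.KH.krull (K := K) (n := 2) ![MvPolynomial.map (algebraMap K0 K) f,
    ∑ i, MvPolynomial.C (p i) * MvPolynomial.map (algebraMap K0 K) (MvPolynomial.pderiv i f)] (by
    intro i
    fin_cases i
    · exact kru_zero (by norm_num) hf
    · show MvPolynomial.eval 0 (∑ i, MvPolynomial.C (p i) * MvPolynomial.map (algebraMap K0 K) (MvPolynomial.pderiv i f)) = 0
      rw [map_sum]
      apply Finset.sum_eq_zero
      intro j _
      rw [map_mul, kru_zero (n := 5) (by norm_num) hf.pderiv, mul_zero])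
  refine ⟨c, hc, ?_, ?_⟩
  · have h1 : MvPolynomial.eval c (MvPolynomial.map (algebraMap K0 K) f) = 0 := h 0
    rw [MvPolynomial.eval_map] at h1
    exact h1
  · have h1 : MvPolynomial.eval c (∑ i, MvPolynomial.C (p i) * MvPolynomial.map (algebraMap K0 K) (MvPolynomial.pderiv i f)) = 0 := h 1
    rw [map_sum] at h1
    rw [← h1]
    apply Finset.sum_congr rfl
    intro j _
    rw [map_mul, MvPolynomial.eval_C, MvPolynomial.eval_map]
    rfl

end H25.DP
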