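import Pool.Agent.H25.DP.LinF
import Pool.Agent.H25.DP.Sat
import Pool.Agent.H68.BB.Plc

/-! # DP.Prp : specialisations on the double plane (about 180 lines)

`prp`: choose `i` with `P.p i ≠ 0` and `P.p j / P.p i ∈ V` for all `j`; the scalar `c = 1 / P.p i`; `(c³ z)² = f(c p) ∈ V` (`ev_smul`), so `c³ z ∈ V` (valuation ring: if `w² ∈ V` then `w ∈ V`); the reduction has `p i = 1 ≠ 0` and satisfies the equation (`rd_ev`, `Rd.unique`).
`sp_uniq`: two specialisations of `P` at `π` with the scalars `c`, `c'`: `c' / c` is integral with nonzero reduction (both vectors are nonzero: compare one coordinate of `c p` and of `c' p`, in both directions), its reduction is the scalar.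
`sp_inv`: the same scalar.
`sp_line`: `c P.p = (c x) g + (c y) h`; one coordinate of `cr g h` has the nonzero reduction `cr g' h' i`; `c x` and `c y` are quotients of `cr` of integral vectors by it, so they are integral.
`spi`, `smi`: (surface) the point `toX r hr P` of an integral point of the surface specialises to `toX` of the specialisation (scalar `1`). -/

namespace H25.DP

open H68.BB (Om Place Rd tt)
open H77.AF

variable {K0 : Type} [Field K0] {K : Type} [Field K] [IsAlgClosed K] [Algebra K0 K] {f : MvPolynomial (Fin 3) K0}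

private theorem prp_const [IsAlgClosed K] (π : Place K (Om K)) (c : K0) :
    Rd π.V π.φ (algebraMap K0 (Om K) c) (algebraMap K0 K c) := by
  rw [IsScalarTower.algebraMap_apply K0 K (Om K)]
  exact π.const (algebraMap K0 K c)

private theorem prp_max {F : Type} [Field F] (V : ValuationSubring F) {v : Fin 3 → F} (hv : v ≠ 0) :
    ∃ i, v i ≠ 0 ∧ ∀ j, v j / v i ∈ V := by
  obtain ⟨i, hi⟩ := Finite.exists_max (fun j => V.valuation (v j))
  have hi0 : v i ≠ 0 := by
    intro h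
    apply hv
    funext j
    have h1 := hi j
    rw [h, map_zero] at h1
    have h2 : V.valuation (v j) = 0 := le_antisymm h1 zero_le
    exact (map_eq_zero V.valuation).1 h2
  refine ⟨i, hi0, fun j => ?_⟩
  rw [← ValuationSubring.valuation_le_one_iff, map_div₀]
  exact div_le_one_of_le₀ (hi j) zero_le

private theorem prp_sq {F : Type} [Field F] (V : ValuationSubring F) {w : F} (h : w ^ 2 ∈ V) : w ∈ V := by
  rcases V.mem_or_inv_mem w with h1 | h1
  · exact h1
  · by_cases hw : w = 0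
    · rw [hw]
      exact V.zero_mem
    · have h2 : w = w ^ 2 * w⁻¹ := by
        field_simp
      rw [h2]
      exact V.mul_mem _ _ h h1

theorem prp (hf : f.IsHomogeneous 6) (π : Place K (Om K)) (P : XP f (Om K)) : ∃ p : XP f K, (xpd K f).sp π P p := by
  obtain ⟨i, hi0, hi⟩ := prp_max π.V P.ne
  have hc0 : (P.p i)⁻¹ ≠ 0 := inv_ne_zero hi0
  have hu : ∀ j, (P.p i)⁻¹ * P.p j ∈ π.V := fun j => by
    have h := hi j
    rwa [div_eq_mul_inv, mul_comm] at h
  have hR : ∀ j, Rd π.V π.φ ((P.p i)⁻¹ * P.p j) (π.φ ⟨(P.p i)⁻¹ * P.p j, hu j⟩) := fun j => Rd.of_mem (hu j)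
  have hE := rd_ev (prp_const π) f hR
  have hz2 : (((P.p i)⁻¹) ^ 3 * P.z) ^ 2 = ev f (fun j => (P.p i)⁻¹ * P.p j) := by
    rw [ev_smul hf, mul_pow, P.eq, ← pow_mul]
  have hz : ((P.p i)⁻¹) ^ 3 * P.z ∈ π.V := by
    apply prp_sq
    rw [hz2]
    exact hE.mem
  have hZ : Rd π.V π.φ (((P.p i)⁻¹) ^ 3 * P.z) (π.φ ⟨((P.p i)⁻¹) ^ 3 * P.z, hz⟩) := Rd.of_mem hz
  refine ⟨⟨fun j => π.φ ⟨(P.p i)⁻¹ * P.p j, hu j⟩, π.φ ⟨((P.p i)⁻¹) ^ 3 * P.z, hz⟩, ?_, ?_⟩, (P.p i)⁻¹, hc0, hR, hZ⟩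
  · intro h
    have h1 := congrFun h i
    have h2 : Rd π.V π.φ ((P.p i)⁻¹ * P.p i) (1 : K) := by
      rw [inv_mul_cancel₀ hi0]
      exact Rd.one
    have h3 := (hR i).unique h2
    rw [h3] at h1
    exact one_ne_zero h1
  · have h1 := hZ.pow 2
    rw [hz2] at h1
    exact h1.unique hE

omit [IsAlgClosed K] in
theorem sp_uniq {π : Place K (Om K)} {P : XP f (Om K)} {p p' : XP f K} (h : (xpd K f).sp π P p)
    (h' : (xpd K f).sp π P p') : ∃ c : K, c ≠ 0 ∧ (∀ i, p'.p i = c * p.p i) ∧ p'.z = c ^ 3 * p.z := by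
  haveI := Place.isLocal π
  obtain ⟨c, hc, h1, h2⟩ := h
  obtain ⟨c', hc', h1', h2'⟩ := h'
  obtain ⟨i, hi⟩ : ∃ i, p.p i ≠ 0 := by
    by_contra hno
    apply p.ne
    funext i
    by_contra hi
    exact hno ⟨i, hi⟩
  have hcP : c * P.p i ≠ 0 := (h1 i).ne_zero hi
  have hPi : P.p i ≠ 0 := right_ne_zero_of_mul hcP
  have hg := (h1' i).div (h1 i) hi
  have hγ : c' * P.p i / (c * P.p i) = c' / c := by
    field_simp
  rw [hγ] at hg
  have hp : ∀ j, p'.p j = p'.p i / p.p i * p.p j := by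
    intro j
    have h3 := hg.mul (h1 j)
    have h4 : c' / c * (c * P.p j) = c' * P.p j := by
      field_simp
    rw [h4] at h3
    exact (h1' j).unique h3
  refine ⟨p'.p i / p.p i, ?_, hp, ?_⟩
  · intro h0
    apply p'.ne
    funext j
    rw [hp j, h0, zero_mul]
    rfl
  · have h3 := (hg.pow 3).mul h2
    have h4 : (c' / c) ^ 3 * (c ^ 3 * P.z) = c' ^ 3 * P.z := by
      field_simp
    rw [h4] at h3
    exact h2'.unique h3

omit [IsAlgClosed K] in
theorem sp_inv {π : Place K (Om K)} {P : XP f (Om K)} {p : XP f K} (h : (xpd K f).sp π P p) :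
    (xpd K f).sp π P.inv p.inv := by
  obtain ⟨c, hc, h1, h2⟩ := h
  refine ⟨c, hc, h1, ?_⟩
  change Rd π.V π.φ (c ^ 3 * -P.z) (-p.z)
  rw [mul_neg]
  exact h2.neg

omit [IsAlgClosed K] in
theorem sp_line {π : Place K (Om K)} {P : XP f (Om K)} {p : XP f K} (h : (xpd K f).sp π P p) {g h' : Fin 3 → Om K}
    {g0 h0 : Fin 3 → K} (hg : ∀ i, Rd π.V π.φ (g i) (g0 i)) (hh : ∀ i, Rd π.V π.φ (h' i) (h0 i)) (hgh : cr g0 h0 ≠ 0)
    {x y : Om K} (hP : P.p = lc x y g h') : ∃ x0 y0 : K, p.p = lc x0 y0 g0 h0 := by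
  haveI := Place.isLocal π
  obtain ⟨c, hc, h1, _⟩ := h
  obtain ⟨i, hi⟩ : ∃ i, cr g0 h0 i ≠ 0 := by
    by_contra hno
    apply hgh
    funext i
    by_contra hi
    exact hno ⟨i, hi⟩
  have hδ := rd_cr hg hh i
  have hδ0 := hδ.ne_zero hi
  have hx1 := (rd_cr h1 hh i).div hδ hi
  have hy1 := (rd_cr hg h1 i).div hδ hi
  have hPj : ∀ j, P.p j = x * g j + y * h' j := fun j => by
    rw [hP]
    rfl
  have hx2 : cr (fun j => c * P.p j) h' i = c * x * cr g h' i := by
    fin_cases i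
    · change c * P.p 1 * h' 2 - c * P.p 2 * h' 1 = c * x * (g 1 * h' 2 - g 2 * h' 1)
      rw [hPj, hPj]
      ring
    · change c * P.p 2 * h' 0 - c * P.p 0 * h' 2 = c * x * (g 2 * h' 0 - g 0 * h' 2)
      rw [hPj, hPj]
      ring
    · change c * P.p 0 * h' 1 - c * P.p 1 * h' 0 = c * x * (g 0 * h' 1 - g 1 * h' 0)
      rw [hPj, hPj]
      ring
  have hy2 : cr g (fun j => c * P.p j) i = c * y * cr g h' i := by
    fin_cases i
    · change g 1 * (c * P.p 2) - g 2 * (c * P.p 1) = c * y * (g 1 * h' 2 - g 2 * h' 1)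
      rw [hPj, hPj]
      ring
    · change g 2 * (c * P.p 0) - g 0 * (c * P.p 2) = c * y * (g 2 * h' 0 - g 0 * h' 2)
      rw [hPj, hPj]
      ring
    · change g 0 * (c * P.p 1) - g 1 * (c * P.p 0) = c * y * (g 0 * h' 1 - g 1 * h' 0)
      rw [hPj, hPj]
      ring
  rw [hx2, mul_div_cancel_right₀ _ hδ0] at hx1
  rw [hy2, mul_div_cancel_right₀ _ hδ0] at hy1
  refine ⟨cr p.p h0 i / cr g0 h0 i, cr g0 p.p i / cr g0 h0 i, funext fun j => ?_⟩
  have h3 := (hx1.mul (hg j)).add (hy1.mul (hh j))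
  have h4 : c * x * g j + c * y * h' j = c * P.p j := by
    rw [hPj]
    ring
  rw [h4] at h3
  exact (h1 j).unique h3

omit [IsAlgClosed K] in
theorem spi {A : Type} [CommRing A] [Algebra K0 A] (r : Frm f A) (hr : r.Nd) {π : Place K (Om K)}
    {P : SP K0 A (Om K) r.a r.b} {p : SP K0 A K r.a r.b} (h : (surf K0 K A r.a r.b).sp π P p) :
    (xpd K f).sp π (toX r hr P) (toX r hr p) := by
  obtain ⟨h1, h2, h3⟩ := h
  refine ⟨1, one_ne_zero, fun i => ?_, ?_⟩
  · rw [one_mul]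
    exact (h2.mul (h1 (r.d i))).add (Rd.one.mul (h1 (r.e i)))
  · rw [one_pow, one_mul]
    exact (((h1 r.s).mul h2).add (h1 r.t)).mul h3

end H25.DP
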