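import Pool.Agent.H25.DP.Val
import Pool.Agent.H25.DP.Prp
import Pool.Agent.H25.DP.SingX

/-! # DP.OffX : points leaving the affine surface have trivial classes on the double plane (about 200 lines; given `val`, `sp_uniq`, `sp_inv`, `sp_line`, `sing_x`, `scale`)

`x` a specialisation of `Q = toX r hr P`, `x'` one of `Q.inv`; `x'.inv` is a specialisation of `Q` (`sp_inv`, `inv` twice), so `x' = (c x.p, - c³ x.z)` (`sp_uniq`): `single x.inv - single x' ∈ RatEq` (`scale`).  So show `single x - single x.inv ∈ RatEq`.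
Apply `val` to the frame `r.map P.φ` over `Om K` (`cr ≠ 0` by `hr.ne`), `V = π.V`, `φ = π.φ` (local: `Place.isLocal`, surjective: `π.const`).
Case 1, all entries in `V`: `P.φ a ∈ V` for all `a` (`hA`; `V` is integrally closed and contains `P.φ (Algebra.adjoin K0 r.ent)`).  So `P.x ∉ V` (if `P.x ∈ V` then `P.y² ∈ V`, `P.y ∈ V`, and nothing is off).  With the scalar `1 / P.x`: `(1/x) Q.p = d + (1/x) e` reduces to `d' ≠ 0`
(`d' = 0` would give `cr d' e' = 0`, but `r.Nd`), `(1/x)³ Q.z = (s + t/x) (y / x²)`, `(y/x²)² = 1/x - 3a/x³ - 2b/x⁴` reduces to `0`.  So `(d', 0)` is a specialisation of `Q`; `sp_uniq`: `x.z = 0`, `x.inv = x`.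
Case 2: the second alternative of `val`, `Q.p = P.x • d + e` is a combination of `g`, `h`: `sp_line`, `sing_x`. -/

namespace H25.DP

open H68.BB (Om Place Rd tt)
open H77.AF

variable {K0 : Type} [Field K0] [IsAlgClosed K0] [CharZero K0] {f : MvPolynomial (Fin 3) K0}

private theorem offx_self {G : Type} [AddCommGroup G] (H : AddSubgroup G) (a : G) : a - a ∈ H := by
  rw [sub_self]
  exact H.zero_mem

private theorem offx_trans {G : Type} [AddCommGroup G] (H : AddSubgroup G) {a b c : G} (h1 : a - b ∈ H)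
    (h2 : b - c ∈ H) : a - c ∈ H := by
  have h3 := H.add_mem h1 h2
  rw [sub_add_sub_cancel] at h3
  exact h3

/-- a valuation ring contains the square roots of its elements -/
private theorem offx_sq {F : Type} [Field F] (V : ValuationSubring F) {y : F} (h : y ^ 2 ∈ V) : y ∈ V := by
  rcases V.mem_or_inv_mem y with h1 | h1
  · exact h1
  · rcases eq_or_ne y 0 with h0 | h0
    · rw [h0]
      exact V.zero_mem
    · have h2 : y = y ^ 2 * y⁻¹ := by
        field_simp
      rw [h2]
      exact V.mul_mem _ _ h h1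

omit [IsAlgClosed K0] [CharZero K0] in
/-- integrality over a subalgebra whose image is contained in a valuation ring -/
private theorem offx_int {F : Type} [Field F] [Algebra K0 F] {A : Type} [CommRing A] [Algebra K0 A] (V : ValuationSubring F)
    (ψ : A →ₐ[K0] F) (s : Set A) (hs : ∀ x ∈ s, ψ x ∈ V) (hk : ∀ c : K0, algebraMap K0 F c ∈ V) {x : A}
    (hx : IsIntegral (Algebra.adjoin K0 s) x) : ψ x ∈ V := by
  have h1 : ∀ b ∈ Algebra.adjoin K0 s, ψ b ∈ V := fun b hb => by
    induction hb using Algebra.adjoin_induction with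
    | mem b hb => exact hs b hb
    | algebraMap c => rw [AlgHom.commutes]; exact hk c
    | add a b _ _ ha hb => rw [map_add]; exact V.add_mem _ _ ha hb
    | mul a b _ _ ha hb => rw [map_mul]; exact V.mul_mem _ _ ha hb
  let θ : Algebra.adjoin K0 s →+* V :=
    ((ψ : A →+* F).comp (algebraMap (Algebra.adjoin K0 s) A)).codRestrict V.toSubring (fun b => h1 b.1 b.2)
  obtain ⟨p, hp, hpx⟩ := hx
  have h2 : IsIntegral V (ψ x) := by
    refine ⟨p.map θ, hp.map θ, ?_⟩
    rw [Polynomial.eval₂_map]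
    have h3 : (algebraMap V F).comp θ = (ψ : A →+* F).comp (algebraMap (Algebra.adjoin K0 s) A) := RingHom.ext (fun b => rfl)
    rw [h3]
    have h4 := congrArg (ψ : A →+* F) hpx
    rw [Polynomial.hom_eval₂, map_zero] at h4
    exact h4
  obtain ⟨y, hy⟩ := (IsIntegrallyClosed.isIntegral_iff (R := V) (K := F)).1 h2
  rw [← hy]
  exact y.2

omit [IsAlgClosed K0] [CharZero K0] in
private theorem offx_inv {F : Type} [Field F] [Algebra K0 F] (P : XP f F) : P.inv.inv = P :=
  XP.ext rfl (neg_neg P.z)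

omit [IsAlgClosed K0] [CharZero K0] in
/-- the scalar and the reduction in the first case -/
private theorem offx_one (hf : Sm f) {K : Type} [Field K] [IsAlgClosed K] [Algebra K0 K] {A : Type} [CommRing A]
    [Algebra K0 A] (r : Frm f A) (hr : r.Nd) {π : Place K (Om K)} [IsLocalHom π.φ]
    (hc : ∀ c : K0, Rd π.V π.φ (algebraMap K0 (Om K) c) (algebraMap K0 K c))
    {P : SP K0 A (Om K) r.a r.b} (hV : ∀ a : A, P.φ a ∈ π.V) (hx : P.x ∉ π.V) {x : XP f K}
    (h : (xpd K f).sp π (toX r hr P) x) : x.z = 0 := by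
  let Φ : A →ₐ[K0] K :=
    { toFun := fun a => π.φ ⟨P.φ a, hV a⟩
      map_one' := by
        rw [← map_one π.φ]
        congr 1
        exact Subtype.ext (map_one P.φ)
      map_mul' := fun a b => by
        rw [← map_mul π.φ]
        congr 1
        exact Subtype.ext (map_mul P.φ a b)
      map_zero' := by
        rw [← map_zero π.φ]
        congr 1
        exact Subtype.ext (map_zero P.φ)
      map_add' := fun a b => by
        rw [← map_add π.φ]
        congr 1
        exact Subtype.ext (map_add P.φ a b)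
      commutes' := fun c => by
        have h1 : ∀ y, y = P.φ (algebraMap K0 A c) → Rd π.V π.φ y (π.φ ⟨P.φ (algebraMap K0 A c), hV _⟩) := by
          rintro _ rfl
          exact Rd.of_mem (hV _)
        exact (h1 _ (P.φ.commutes c).symm).unique (hc c) }
  have hΦ : ∀ a : A, Rd π.V π.φ (P.φ a) (Φ a) := fun a => Rd.of_mem (hV a)
  have hx0 : P.x ≠ 0 := fun h0 => hx (by rw [h0]; exact π.V.zero_mem)
  have hw : Rd π.V π.φ (P.x)⁻¹ 0 := Rd.inv_zero hx
  -- the coordinates
  have hp : ∀ i, Rd π.V π.φ ((P.x)⁻¹ * (toX r hr P).p i) (Φ (r.d i)) := fun i => by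
    have h1 := (hΦ (r.d i)).add (hw.mul (hΦ (r.e i)))
    rw [zero_mul, add_zero] at h1
    have h2 : (P.x)⁻¹ * (toX r hr P).p i = P.φ (r.d i) + (P.x)⁻¹ * P.φ (r.e i) := by
      change (P.x)⁻¹ * (P.x * P.φ (r.d i) + 1 * P.φ (r.e i)) = _
      rw [mul_add, ← mul_assoc, inv_mul_cancel₀ hx0, one_mul, one_mul]
    rw [h2]
    exact h1
  have hd : (fun i => Φ (r.d i)) ≠ 0 := fun h0 => by
    refine hr.ne Φ ?_
    rw [h0]
    funext i
    fin_cases i <;> simp [cr]
  -- the coordinate z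
  have hv2 : Rd π.V π.φ (((P.x)⁻¹ ^ 2 * P.y) ^ 2) 0 := by
    have h1 : ((P.x)⁻¹ ^ 2 * P.y) ^ 2 = (P.x)⁻¹ - 3 * P.φ r.a * (P.x)⁻¹ ^ 3 - 2 * P.φ r.b * (P.x)⁻¹ ^ 4 := by
      rw [mul_pow, P.eq]
      field_simp
    rw [h1]
    have h2 := (hw.sub ((Rd.three.mul (hΦ r.a)).mul (hw.pow 3))).sub ((Rd.two.mul (hΦ r.b)).mul (hw.pow 4))
    simpa using h2
  have hv : Rd π.V π.φ ((P.x)⁻¹ ^ 2 * P.y) 0 := by
    have h1 : (P.x)⁻¹ ^ 2 * P.y ∈ π.V := offx_sq π.V hv2.mem
    have h2 : Rd π.V π.φ ((P.x)⁻¹ ^ 2 * P.y) (π.φ ⟨_, h1⟩) := Rd.of_mem h1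
    have h3 := (h2.pow 2).unique hv2
    have h4 := pow_eq_zero_iff (two_ne_zero) |>.1 h3
    rw [h4] at h2
    exact h2
  have hz : Rd π.V π.φ ((P.x)⁻¹ ^ 3 * (toX r hr P).z) 0 := by
    have h1 : (P.x)⁻¹ ^ 3 * (toX r hr P).z = (P.φ r.s + (P.x)⁻¹ * P.φ r.t) * ((P.x)⁻¹ ^ 2 * P.y) := by
      change (P.x)⁻¹ ^ 3 * ((P.φ r.s * P.x + P.φ r.t) * P.y) = _
      field_simp
    rw [h1]
    have h2 := ((hΦ r.s).add (hw.mul (hΦ r.t))).mul hv
    rw [mul_zero] at h2
    exact h2
  -- the equation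
  have he : (0 : K) ^ 2 = ev f (fun i => Φ (r.d i)) := by
    have h1 : Rd π.V π.φ (((P.x)⁻¹ ^ 3 * (toX r hr P).z) ^ 2) (0 ^ 2) := hz.pow 2
    have h2 : ((P.x)⁻¹ ^ 3 * (toX r hr P).z) ^ 2 = ev f (fun i => (P.x)⁻¹ * (toX r hr P).p i) := by
      rw [ev_smul hf.hom, mul_pow, (toX r hr P).eq, ← pow_mul]
    rw [h2] at h1
    exact h1.unique (rd_ev hc f hp)
  let y0 : XP f K := ⟨fun i => Φ (r.d i), 0, hd, he⟩
  have hy : (xpd K f).sp π (toX r hr P) y0 := ⟨(P.x)⁻¹, inv_ne_zero hx0, hp, hz⟩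
  obtain ⟨c, hc0, hc1, hc2⟩ := sp_uniq hy h
  rw [hc2]
  exact mul_zero _

theorem off_x (hf : Sm f) {K : Type} [Field K] [IsAlgClosed K] [Algebra K0 K] {A : Type} [CommRing A] [Algebra K0 A]
    (r : Frm f A) (hr : r.Nd) (hA : ∀ x : A, IsIntegral (Algebra.adjoin K0 r.ent) x) {π : Place K (Om K)}
    {P : SP K0 A (Om K) r.a r.b} (ho : (surf K0 K A r.a r.b).off π P) {x x' : XP f K}
    (h : (xpd K f).sp π (toX r hr P) x) (h' : (xpd K f).sp π (toX r hr P).inv x') :
    (Finsupp.single (fun _ => x) 1 - Finsupp.single (fun _ => x') 1 : Cyc (xpd K f) 1) ∈ RatEq (xpd K f) 1 := by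
  have := π.isLocal
  have : CharZero K := charZero_of_injective_algebraMap (algebraMap K0 K).injective
  have hs : Function.Surjective π.φ := fun c => by
    obtain ⟨h1, h2⟩ := π.const c
    exact ⟨_, h2⟩
  have hc : ∀ c : K0, Rd π.V π.φ (algebraMap K0 (Om K) c) (algebraMap K0 K c) := fun c => by
    rw [IsScalarTower.algebraMap_apply K0 K (Om K)]
    exact π.const _
  -- the second difference
  have h2 : (Finsupp.single (fun _ => x.inv) 1 - Finsupp.single (fun _ => x') 1 : Cyc (xpd K f) 1) ∈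
      RatEq (xpd K f) 1 := by
    have h3 := sp_inv h'
    rw [offx_inv] at h3
    obtain ⟨c, hc0, hc1, hc2⟩ := sp_uniq h h3
    refine scale (c := c) hc0 (fun i => hc1 i) ?_
    have h4 : -x'.z = c ^ 3 * x.z := hc2
    change x'.z = c ^ 3 * (-x.z)
    linear_combination -h4
  have h1 : (Finsupp.single (fun _ => x) 1 - Finsupp.single (fun _ => x.inv) 1 : Cyc (xpd K f) 1) ∈
      RatEq (xpd K f) 1 := by
    rcases val hf hs hc (r.map P.φ) (hr.ne P.φ) with h3 | h3
    · -- all the entries are integral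
      have hV : ∀ a : A, P.φ a ∈ π.V := fun a => by
        refine offx_int π.V P.φ r.ent (fun b hb => ?_) (fun c => (hc c).mem) (hA a)
        refine h3 _ ?_
        rcases hb with (⟨i, rfl⟩ | ⟨i, rfl⟩) | hb
        · exact Or.inl (Or.inl ⟨i, rfl⟩)
        · exact Or.inl (Or.inr ⟨i, rfl⟩)
        · refine Or.inr ?_
          rcases hb with rfl | rfl | rfl | hb
          · exact Or.inl rfl
          · exact Or.inr (Or.inl rfl)
          · exact Or.inr (Or.inr (Or.inl rfl))
          · refine Or.inr (Or.inr (Or.inr ?_))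
            rw [Set.mem_singleton_iff] at hb ⊢
            rw [hb]
            rfl
      have hx : P.x ∉ π.V := fun hx => by
        rcases ho with ⟨a, ha⟩ | ho | ho
        · exact ha (hV a)
        · exact ho hx
        · refine ho (offx_sq π.V ?_)
          rw [P.eq]
          have h4 : (3 : Om K) ∈ π.V := (Rd.three (V := π.V) (φ := π.φ)).mem
          have h5 : (2 : Om K) ∈ π.V := (Rd.two (V := π.V) (φ := π.φ)).mem
          exact sub_mem (sub_mem (pow_mem hx 3) (mul_mem (mul_mem h4 (hV r.a)) hx)) (mul_mem h5 (hV r.b))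
      have hz := offx_one hf r hr hc hV hx h
      have h4 : x.inv = x := XP.ext rfl (by
        change -x.z = x.z
        rw [hz, neg_zero])
      rw [h4]
      exact offx_self _ _
    · obtain ⟨g, h0, g', h0', k, l, m, s1, s2, q0, q1, q2, q3, hg, hh, hgh, hd, he, hq, H⟩ := h3
      have hP : (toX r hr P).p = lc (P.x * k + l) m g h0 := by
        funext i
        have h4 : P.φ (r.d i) = k * g i := hd i
        have h5 : P.φ (r.e i) = l * g i + m * h0 i := he i
        change P.x * P.φ (r.d i) + 1 * P.φ (r.e i) = (P.x * k + l) * g i + m * h0 i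
        rw [h4, h5]
        ring
      obtain ⟨x0, y0, hxy⟩ := sp_line h hg hh hgh hP
      exact sing_x hf hgh hq H hxy
  exact offx_trans _ h1 h2

end H25.DP
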