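import Pool.Agent.H25.DP.Val

/-! # DP.Uni : `d`, `e` are independent at every point of the base (about 120 lines; given `val_int`)

If the ideal `I` of `A` generated by the coordinates of `cr d e` is not `A`: let `F` be the fraction field of `A`, `A'` the image of `A` in `F`, `I'` the image of `I`; `Ideal.image_subset_nonunits_valuationSubring` (see its use in `Pool/Agent/H68/BB/Plc.lean`, `place_exists`)
gives a valuation subring `V ⊇ A'` of `F` with `I'` in the nonunits.  `κ` = the residue field of `V`, `φ` = the residue map (local), `K0 → V → κ` the algebra structure.  `r.map (A → F)` is a frame with `cr ≠ 0` and integral `d`, `e`;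
`val_int`: some coordinate of `cr d e` is a unit of `V`: contradiction.  So `I = A`: `Ideal.span (Set.range (cr r.d r.e)) = ⊤`, which gives `w`. -/

namespace H25.DP

open H68.BB

theorem uni {K0 : Type} [Field K0] [IsAlgClosed K0] [CharZero K0] {f : MvPolynomial (Fin 3) K0} (hf : Sm f) {A : Type}
    [CommRing A] [IsDomain A] [Algebra K0 A] (r : Frm f A) (hr : cr r.d r.e ≠ 0) : r.Nd := by
  classical
  by_contra hN
  have hI0 : Ideal.span (Set.range (cr r.d r.e)) ≠ ⊤ := by
    intro h
    apply hN
    have h1 : (1 : A) ∈ Ideal.span (Set.range (cr r.d r.e)) := by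
      rw [h]
      exact Submodule.mem_top
    rw [Ideal.span, Submodule.mem_span_range_iff_exists_fun] at h1
    obtain ⟨w, hw⟩ := h1
    exact ⟨w, hw⟩
  let F := FractionRing A
  let φ0 : A →+* F := algebraMap A F
  have hφ : Function.Injective φ0 := IsFractionRing.injective A F
  let e : A ≃+* φ0.range := RingEquiv.ofBijective φ0.rangeRestrict
    ⟨fun a b hab => hφ (congrArg Subtype.val hab), φ0.rangeRestrict_surjective⟩
  let I : Ideal φ0.range := Ideal.comap (e.symm : φ0.range →+* A) (Ideal.span (Set.range (cr r.d r.e)))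
  have hI : I ≠ ⊤ := Ideal.comap_ne_top _ hI0
  obtain ⟨B, hAB, hIB⟩ := Ideal.image_subset_nonunits_valuationSubring I hI
  have hmem : ∀ a : A, φ0 a ∈ B := fun a => hAB ⟨a, rfl⟩
  let fB : A →+* B := φ0.codRestrict B.toSubring hmem
  let κ := IsLocalRing.ResidueField B
  let res : B →+* κ := IsLocalRing.residue B
  let _ : Algebra K0 κ := ((res.comp fB).comp (algebraMap K0 A)).toAlgebra
  have hloc : IsLocalHom res := inferInstanceAs (IsLocalHom (IsLocalRing.residue B))
  let φA : A →ₐ[K0] F := IsScalarTower.toAlgHom K0 A F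
  have hφA : ∀ a, φA a = φ0 a := fun a => rfl
  have hc : ∀ c : K0, Rd B res (algebraMap K0 F c) (algebraMap K0 κ c) := by
    intro c
    have h1 : algebraMap K0 F c = φ0 (algebraMap K0 A c) := IsScalarTower.algebraMap_apply K0 A F c
    refine ⟨by rw [h1]; exact hmem _, ?_⟩
    have h2 : (⟨algebraMap K0 F c, by rw [h1]; exact hmem _⟩ : B) = fB (algebraMap K0 A c) := Subtype.ext h1
    rw [h2]
    rfl
  have hcr : ∀ i, cr (r.map φA).d (r.map φA).e i = φ0 (cr r.d r.e i) := by
    intro i
    have h1 := congrFun (cr_map φ0 r.d r.e) i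
    exact h1.symm
  have hr' : cr (r.map φA).d (r.map φA).e ≠ 0 := by
    intro h0
    apply hr
    funext i
    apply hφ
    rw [← hcr i, h0, Pi.zero_apply, Pi.zero_apply, map_zero]
  obtain ⟨i, w, hw, hwm, hww⟩ := val_int (V := B) (φ := res) hf hc (r.map φA) hr'
    (fun i => hmem (r.d i)) (fun i => hmem (r.e i))
  apply hw
  rw [← hww]
  change IsLocalRing.residue B _ = 0
  rw [IsLocalRing.residue_eq_zero_iff]
  have h1 : cr (r.map φA).d (r.map φA).e i ∈ (B.nonunits : Set F) := by
    rw [hcr i]
    apply hIB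
    refine ⟨e (cr r.d r.e i), ?_, rfl⟩
    change e (cr r.d r.e i) ∈ Ideal.comap _ _
    rw [Ideal.mem_comap]
    change e.symm (e (cr r.d r.e i)) ∈ _
    rw [RingEquiv.symm_apply_apply]
    exact Ideal.subset_span ⟨i, rfl⟩
  obtain ⟨ha, h2⟩ := ValuationSubring.mem_nonunits_iff_exists_mem_maximalIdeal.mp h1
  exact h2

end H25.DP
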