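import Pool.Agent.H25.DP.AltUp
import Pool.Agent.H25.DP.OffX
import Pool.Agent.H25.DP.Cov
import Pool.Agent.H25.DP.Cmp
import Pool.Agent.H25.DP.Uni

/-! # DP.Main : the antisymmetrised products of `N` zero-cycles of degree zero on a double plane K3 surface are torsion

Assembly, given the theorem `ABT` on affine elliptic surfaces over all base curves. -/

namespace H25.DP

open H68.BB (Om Place Rd tt)
open H77.AF

/-- the theorem on elliptic surfaces over all base curves, affine form -/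
def ABT (K0 : Type) [Field K0] : Prop :=
  ∀ (A : Type) [CommRing A] [IsDomain A] [Algebra K0 A] [Algebra.FiniteType K0 A] (T : A), Transcendental K0 T →
    (∀ x : A, IsIntegral (Algebra.adjoin K0 ({T} : Set A)) x) → ∀ a b : A, b ^ 2 - a ^ 3 = 1 →
    ∃ k : ℕ, ∀ (K : Type) [Field K] [IsAlgClosed K] [Algebra K0 K] (P : Fin k → SP K0 A K a b),
      ∑ σ : Equiv.Perm (Fin k), (Equiv.Perm.sign σ : ℤ) •
        (Finsupp.single (fun i => P (σ i)) 1 : Cyc (surf K0 K A a b) k) ∈ tor (RatEq (surf K0 K A a b) k)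

variable {K0 : Type} [Field K0] [IsAlgClosed K0] [CharZero K0] {f : MvPolynomial (Fin 3) K0}

omit [IsAlgClosed K0] [CharZero K0] in
private theorem act_toX {K : Type} [Field K] [Algebra K0 K] {A : Type} [CommRing A] [Algebra K0 A]
    (r : Frm f A) (hr : r.Nd) (σ : Om K ≃ₐ[RatFunc K] Om K) (y : SP K0 A (Om K) r.a r.b) :
    (xpd K f).act σ (toX r hr y) = toX r hr ((surf K0 K A r.a r.b).act σ y) := by
  refine XP.ext ?_ ?_
  · funext i
    change σ (y.x * y.φ (r.d i) + 1 * y.φ (r.e i)) = σ y.x * σ (y.φ (r.d i)) + 1 * σ (y.φ (r.e i))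
    rw [map_add, map_mul, map_mul, map_one]
  · change σ ((y.φ r.s * y.x + y.φ r.t) * y.y) = (σ (y.φ r.s) * σ y.x + σ (y.φ r.t)) * σ y.y
    rw [map_mul, map_add, map_mul]

/-- one component -/
theorem one_comp (hf : Sm f) {K : Type} [Field K] [IsAlgClosed K] [Algebra K0 K] {A : Type} [CommRing A] [Algebra K0 A]
    (r : Frm f A) (hr : r.Nd) (hA : ∀ x : A, IsIntegral (Algebra.adjoin K0 r.ent) x) {k : ℕ} (P : Fin k → SP K0 A K r.a r.b)
    (h : ∑ σ : Equiv.Perm (Fin k), (Equiv.Perm.sign σ : ℤ) •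
        (Finsupp.single (fun i => P (σ i)) 1 : Cyc (surf K0 K A r.a r.b) k) ∈ tor (RatEq (surf K0 K A r.a r.b) k)) :
    alt (fun i => toX r hr (P i)) ∈ tor (RatEq (xpd K f) k) := by
  have h1 := push_pd (D := surf K0 K A r.a r.b) (D' := xpd K f) (fun P => toX r hr P) (fun P => (toX r hr P).inv)
    (fun P => toX r hr P) (fun P => (toX r hr P).inv) ?_ ?_ (fun π y x hyx => spi r hr hyx)
    (fun π y x hyx => sp_inv (spi r hr hyx)) (fun π y => prp hf.hom π y)
    (fun π y xp xm ho hp hm => le_tor _ (off_x hf r hr hA ho hp hm)) h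
  · have h2 : ∀ σ : Equiv.Perm (Fin k), phi (surf K0 K A r.a r.b) (D' := xpd K f) (fun P => toX r hr P)
        (fun P => (toX r hr P).inv) k ((Equiv.Perm.sign σ : ℤ) •
          (Finsupp.single (fun i => P (σ i)) 1 : Cyc (surf K0 K A r.a r.b) k)) =
        (Equiv.Perm.sign σ : ℤ) • pr (fun i => toX r hr (P (σ i))) := fun σ => by
      refine (map_zsmul (phi (surf K0 K A r.a r.b) (D' := xpd K f) (fun P => toX r hr P)
        (fun P => (toX r hr P).inv) k) _ _).trans ?_
      congr 1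
      refine (phi_single (D := surf K0 K A r.a r.b) (D' := xpd K f) (fun P => toX r hr P)
        (fun P => (toX r hr P).inv) _ 1).trans ?_
      rw [one_smul]
      rfl
    have h3 := (map_sum (phi (surf K0 K A r.a r.b) (D' := xpd K f) (fun P => toX r hr P)
        (fun P => (toX r hr P).inv) k) (fun σ : Equiv.Perm (Fin k) => (Equiv.Perm.sign σ : ℤ) •
          (Finsupp.single (fun i => P (σ i)) 1 : Cyc (surf K0 K A r.a r.b) k)) Finset.univ).trans
      (Finset.sum_congr rfl fun σ _ => h2 σ)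
    exact Eq.mp (congrArg (fun w => w ∈ tor (RatEq (xpd K f) k)) h3) h1
  · intro σ y
    exact act_toX r hr σ y
  · intro σ y
    have h3 : (xpd K f).act σ (toX r hr y).inv = XP.inv ((xpd K f).act σ (toX r hr y)) :=
      XP.ext rfl (map_neg σ _)
    exact h3.trans (congrArg XP.inv (act_toX r hr σ y))

theorem main (hall : ABT K0) (hf : Sm f) :
    ∃ N : ℕ, ∀ (K : Type) [Field K] [IsAlgClosed K] [Algebra K0 K] (P : Fin N → XP f K),
      alt P ∈ tor (RatEq (xpd K f) N) := by
  classical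
  obtain ⟨n, p, r, hp, hcr, hent, hT, hcov⟩ := comps hf
  have hdom : ∀ j, IsDomain (MvPolynomial (Fin 10) K0 ⧸ p j) := fun j => by
    have := hp j
    exact Ideal.Quotient.isDomain _
  have hNd : ∀ j, (r j).Nd := fun j => by
    have := hdom j
    exact uni hf (r j) (hcr j)
  have hkj : ∀ j, ∃ k : ℕ, ∀ (K : Type) [Field K] [IsAlgClosed K] [Algebra K0 K]
      (P : Fin k → SP K0 (MvPolynomial (Fin 10) K0 ⧸ p j) K (r j).a (r j).b),
      ∑ σ : Equiv.Perm (Fin k), (Equiv.Perm.sign σ : ℤ) •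
        (Finsupp.single (fun i => P (σ i)) 1 : Cyc (surf K0 K (MvPolynomial (Fin 10) K0 ⧸ p j) (r j).a (r j).b) k) ∈
          tor (RatEq (surf K0 K (MvPolynomial (Fin 10) K0 ⧸ p j) (r j).a (r j).b) k) := fun j => by
    have := hdom j
    obtain ⟨T, hT1, hT2⟩ := hT j
    exact hall _ T hT1 hT2 (r j).a (r j).b (r j).disc
  choose k hk using hkj
  refine ⟨∑ j, k j + 1, ?_⟩
  intro K _ _ _ P
  have hch : CharZero K := charZero_of_injective_algebraMap (algebraMap K0 K).injective
  by_cases hbad : ∃ i, (Finsupp.single (fun _ => P i) 1 - Finsupp.single (fun _ => (P i).inv) 1 : Cyc (xpd K f) 1) ∈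
      RatEq (xpd K f) 1
  · obtain ⟨i, hi⟩ := hbad
    exact alt_kill (le_tor _ hi)
  push Not at hbad
  -- every point lies on the elliptic surface of a component
  have hpt : ∀ i, ∃ (j : Fin n) (y : SP K0 (MvPolynomial (Fin 10) K0 ⧸ p j) K (r j).a (r j).b),
      (Finsupp.single (fun _ => P i) 1 - Finsupp.single (fun _ => toX (r j) (hNd j) y) 1 : Cyc (xpd K f) 1) ∈
        RatEq (xpd K f) 1 := by
    intro i
    rcases cover hf (P i) with h | ⟨r', x, y, c, hr', hc, hy, hpi, hzi⟩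
    · exact absurd h (hbad i)
    · obtain ⟨j, φ, hφ⟩ := hcov K r' hr'
      subst hφ
      refine ⟨j, ⟨φ, x, y, hy⟩, ?_⟩
      refine scale (c := c⁻¹) (inv_ne_zero hc) ?_ ?_
      · intro l
        change x * φ ((r j).d l) + 1 * φ ((r j).e l) = c⁻¹ * (P i).p l
        rw [hpi l, inv_mul_cancel_left₀ hc, one_mul]
        rfl
      · change (φ (r j).s * x + φ (r j).t) * y = c⁻¹ ^ 3 * (P i).z
        rw [hzi, ← mul_assoc, ← mul_pow, inv_mul_cancel₀ hc, one_pow, one_mul]
        rfl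
  choose j y hy using hpt
  refine alt_congr hy ?_
  -- pigeonhole
  obtain ⟨j0, hj0⟩ : ∃ j0, k j0 ≤ (Finset.univ.filter fun i => j i = j0).card := by
    by_contra hcon
    push Not at hcon
    have h1 : (Finset.univ : Finset (Fin (∑ j, k j + 1))).card = ∑ j0, (Finset.univ.filter fun i => j i = j0).card :=
      Finset.card_eq_sum_card_fiberwise (fun _ _ => Finset.mem_univ _)
    rw [Finset.card_univ, Fintype.card_fin] at h1
    have h2 : ∑ j0, (Finset.univ.filter fun i => j i = j0).card ≤ ∑ j0, k j0 :=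
      Finset.sum_le_sum fun j0 _ => (hcon j0).le
    omega
  obtain ⟨J, hJ, hJc⟩ := Finset.exists_subset_card_eq hj0
  have e : Fin (k j0) ≃ {x // x ∈ J} := (Fintype.equivFinOfCardEq (by rw [Fintype.card_coe, hJc])).symm
  have hje : ∀ i, j (e i).1 = j0 := fun i => (Finset.mem_filter.1 (hJ (e i).2)).2
  refine alt_up (ι := fun i => (e i).1) (Subtype.val_injective.comp e.injective) ?_
  have hz : ∀ i, ∃ z : SP K0 (MvPolynomial (Fin 10) K0 ⧸ p j0) K (r j0).a (r j0).b,
      toX (r j0) (hNd j0) z = toX (r (j (e i).1)) (hNd _) (y (e i).1) := by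
    intro i
    have h2 : ∀ (j1 : Fin n) (w : SP K0 (MvPolynomial (Fin 10) K0 ⧸ p j1) K (r j1).a (r j1).b), j1 = j0 →
        ∃ z : SP K0 (MvPolynomial (Fin 10) K0 ⧸ p j0) K (r j0).a (r j0).b,
          toX (r j0) (hNd j0) z = toX (r j1) (hNd j1) w := by
      rintro j1 w rfl
      exact ⟨w, rfl⟩
    exact h2 _ _ (hje i)
  choose z hz using hz
  have h1 := one_comp hf (r j0) (hNd j0) (fun x => ?_) z (hk j0 K z)
  · have h3 : (fun i => toX (r j0) (hNd j0) (z i)) =
        fun i => toX (r (j (e i).1)) (hNd _) (y (e i).1) := funext hz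
    rw [h3] at h1
    exact h1
  · have h2 : x ∈ Algebra.adjoin K0 (r j0).ent := hent j0 x
    exact isIntegral_algebraMap (R := Algebra.adjoin K0 (r j0).ent) (A := MvPolynomial (Fin 10) K0 ⧸ p j0) (x := ⟨x, h2⟩)

end H25.DP
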