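import Pool.Agent.H25.DP.Def

/-! # DP.SmF : a smooth form is smooth over every extension (about 80 lines; Nullstellensatz)

The common zeros over `K0` of the three partial derivatives are contained in `{0}`, so every variable `X i` lies in the vanishing ideal of the zero locus of the ideal `I` of the partial derivatives = radical of `I` (`MvPolynomial.vanishingIdeal_zeroLocus_eq_radical`, `K0`
algebraically closed): `X i ^ n ∈ I` (`Ideal.span (Set.range fun i => pderiv i f)`).  Apply `aeval c` (the kernel of `aeval c` contains `I` if `grad f c = 0`): `c i ^ n = 0`. -/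

namespace H25.DP

variable {K0 : Type} [Field K0] [IsAlgClosed K0]

theorem sm_ext {f : MvPolynomial (Fin 3) K0} (hf : Sm f) {F : Type} [Field F] [Algebra K0 F] {c : Fin 3 → F}
    (hc : c ≠ 0) : grad f c ≠ 0 := by
  intro h0
  let I : Ideal (MvPolynomial (Fin 3) K0) := Ideal.span (Set.range fun i => MvPolynomial.pderiv i f)
  -- the zero locus over `K0` is contained in `{0}`
  have hz : ∀ x ∈ MvPolynomial.zeroLocus K0 I, x = 0 := by
    intro x hx
    by_contra hne
    apply hf.sm x hne
    funext i
    exact (MvPolynomial.mem_zeroLocus_iff.1 hx) _ (Ideal.subset_span ⟨i, rfl⟩)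
  -- the kernel of the evaluation at `c` contains `I`
  have hker : I ≤ RingHom.ker (MvPolynomial.aeval c : MvPolynomial (Fin 3) K0 →ₐ[K0] F) := by
    rw [Ideal.span_le]
    rintro _ ⟨i, rfl⟩
    have h1 := congrFun h0 i
    exact h1
  apply hc
  funext i
  have h1 : (MvPolynomial.X i : MvPolynomial (Fin 3) K0) ∈ I.radical := by
    rw [← MvPolynomial.vanishingIdeal_zeroLocus_eq_radical (K := K0) I, MvPolynomial.mem_vanishingIdeal_iff]
    intro x hx
    rw [hz x hx, MvPolynomial.aeval_X]
    rfl
  obtain ⟨n, hn⟩ := h1
  have h2 := hker hn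
  rw [RingHom.mem_ker, map_pow, MvPolynomial.aeval_X] at h2
  exact eq_zero_of_pow_eq_zero h2

end H25.DP
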